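import Pool.Agent.H848.BKD.Mat

/-!
# The primes of `D`
-/

set_option autoImplicit false
set_option linter.unusedSectionVars false
set_option linter.unusedVariables false

attribute [-instance] DivisionRing.toRatAlgebra

namespace Pool.Agent.H848.BKD

open Pool.Agent.R384
open Pool.Agent.NH57.BK Pool.Agent.NH57.BK.AlgP
open QuadraticAlgebra NumberField
open Pool.Agent.H463.QE (ns MP IsP Fs gX exists_fs det_MP fullX mem_ins)
open Pool.Agent.Y698 (RR aR fR nR aR_sq)
open Pool.Agent.R426.QD (Pn r4)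
open Pool.Agent.W192.HK (sp)

open scoped Classical

lemma pp_of {ϖ : RR} (h : Pn ϖ) (h7 : ϖ ∉ sp fR) : Pp (phi.symm ϖ) := by
  obtain ⟨q, rfl⟩ := phi.surjective ϖ
  rw [phi.symm_apply_apply]
  refine ⟨phi_prime.1 h.pr, ?_, ?_, ?_⟩
  · rw [← r4_phi]
    exact h.r4
  · intro hd
    have h1 : (1 - om : OO) ∣ q := hd
    have hpr : Prime q := phi_prime.1 h.pr
    obtain ⟨c, hc⟩ := h1
    have h2 : q ∣ (1 - om) * c := by rw [hc]
    have hom : (1 - om : OO) ∣ 2 := ⟨om, by rw [mul_comm]; exact om_mul.symm⟩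
    have hqn : ¬ q ∣ 2 := by
      intro h3
      apply h.od
      have : phi q ∣ phi 2 := phi_dvd.2 h3
      rwa [map_ofNat] at this
    rcases hpr.dvd_or_dvd h2 with h3 | h3
    · exact hqn (h3.trans hom)
    · have hpom : ¬ IsUnit (1 - om : OO) := by
        intro hu
        rw [QuadraticAlgebra.isUnit_iff_norm_isUnit] at hu
        have : QuadraticAlgebra.norm (1 - om : OO) = 2 := by
          rw [QuadraticAlgebra.norm_def]
          simp [om]
        rw [this, Int.isUnit_iff] at hu
        omega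
      obtain ⟨d, hd'⟩ := h3
      have h4 : q * (1 - (1 - om) * d) = 0 := by
        linear_combination hc + (1 - om) * hd'
      rcases mul_eq_zero.1 h4 with h5 | h5
      · exact hpr.ne_zero h5
      · exact hpom (IsUnit.of_mul_eq_one d (by linear_combination -h5))
  · intro hd
    apply h7
    rw [← phi_s7]
    exact mem_sp.2 hd

/-- the admissible parameters -/
def Ad (D : OO) : Prop := Squarefree (s7 * D) ∧ (4 : OO) ∣ D - 1

lemma pn_of_pp {q : OO} (h : Pp q) : phi q ∉ sp fR := by
  rw [← phi_s7]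
  intro h1
  exact h.sev (mem_sp.1 h1)

/-- the set of primes of `D` -/
theorem exists_ps {D : OO} (hD : Ad D) : ∃ S : Finset OO, PS S ∧ ∏ q ∈ S, q = D ∧
    Fs (S.image phi) (fun x => x) ∧ phi D = ∏ ϖ ∈ S.image phi, ϖ := by
  obtain ⟨hsq, J, hJ⟩ := hD
  have hsq' : Squarefree (fR * phi D) := by
    rw [← phi_s7, ← map_mul]
    intro x hx
    obtain ⟨x, rfl⟩ := phi.surjective x
    rw [← map_mul, phi_dvd] at hx
    exact (MulEquiv.isUnit_map phi.toMulEquiv).2 (hsq x hx)
  have hJ' : phi D = 1 + 4 * phi J := by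
    rw [← map_ofNat phi 4, ← map_mul, ← hJ, map_sub, map_one]
    ring
  obtain ⟨S, hS, hprod⟩ := exists_fs hsq' hJ'
  have himg : (S.image phi.symm).image phi = S := by
    ext x
    simp only [Finset.mem_image]
    constructor
    · rintro ⟨y, ⟨z, hz, rfl⟩, rfl⟩
      rwa [phi.apply_symm_apply]
    · intro hx
      exact ⟨phi.symm x, ⟨x, hx, rfl⟩, phi.apply_symm_apply x⟩
  have hpr : ∏ q ∈ S.image phi.symm, q = D := by
    apply phi.injective
    rw [hprod, map_prod, Finset.prod_image (fun a _ b _ h => phi.symm.injective h)]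
    exact Finset.prod_congr rfl fun x _ => phi.apply_symm_apply x
  refine ⟨S.image phi.symm, ⟨fun q hq => ?_, ?_⟩, hpr, ?_, ?_⟩
  · obtain ⟨ϖ, hϖ, rfl⟩ := Finset.mem_image.1 hq
    exact pp_of (hS.e.fa.pn ϖ hϖ) (hS.h7 ϖ hϖ)
  · rw [hpr]
    exact ⟨J, hJ⟩
  · rw [himg]; exact hS
  · rw [himg]; exact hprod

/-- the primes dividing `√-7 D` -/
theorem isP_iff {D : OO} {S : Finset OO} (hS : PS S) (hf : Fs (S.image phi) (fun x => x))
    (hD : phi D = ∏ ϖ ∈ S.image phi, ϖ) (P : Finset OO) : IsP om D P ↔ P = insert (-s7) S := by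
  have key : ∀ p : OO, (Prime p ∧ p ∣ (2 * om - 1) * D ∧ om ^ 2 ∣ p - 1) ↔ p ∈ insert (-s7) S := by
    intro p
    have h1 := mem_ins hf hD (phi p)
    have e1 : (2 * aR - 1) * phi D = phi ((2 * om - 1) * D) := by
      rw [map_mul, map_sub, map_mul, map_one, map_ofNat, phi_om]
    have e2 : phi p - 1 = phi (p - 1) := by rw [map_sub, map_one]
    have e3 : aR ^ 2 = phi (om ^ 2) := by rw [map_pow, phi_om]
    rw [e1, e2, e3, phi_dvd, phi_dvd, phi_prime] at h1
    rw [← h1, Finset.mem_insert]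
    have e4 : phi p = -fR ↔ p = -s7 := by
      rw [← phi_s7, ← map_neg]
      exact phi.injective.eq_iff
    have e5 : phi p ∈ S.image phi ↔ p ∈ S := by
      rw [Finset.mem_image]
      constructor
      · rintro ⟨x, hx, h⟩
        rwa [← phi.injective h]
      · intro h
        exact ⟨p, h, rfl⟩
    rw [e4, e5]
  constructor
  · intro h
    ext p
    rw [h p, key]
  · rintro rfl p
    exact (key p).symm

lemma det_rank {ι : Type} [Fintype ι] [DecidableEq ι] (M : Matrix ι ι (ZMod 2)) :
    M.det ≠ 0 ↔ M.rank = Fintype.card ι := by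
  constructor
  · intro h
    exact Matrix.rank_of_isUnit M ((Matrix.isUnit_iff_isUnit_det M).2 (isUnit_iff_ne_zero.2 h))
  · intro h hd
    obtain ⟨v, hv, hv0⟩ := Matrix.exists_mulVec_eq_zero_iff.2 hd
    have h1 := M.mulVecLin.finrank_range_add_finrank_ker
    rw [Module.finrank_fintype_fun_eq_card] at h1
    have h2 : Module.finrank (ZMod 2) (LinearMap.range M.mulVecLin) = M.rank := rfl
    have h3 : Module.finrank (ZMod 2) (LinearMap.ker M.mulVecLin) = 0 := by omega
    have h4 := Submodule.finrank_eq_zero.1 h3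
    have h5 : v ∈ LinearMap.ker M.mulVecLin := by
      rw [LinearMap.mem_ker, Matrix.mulVecLin_apply]
      exact hv0
    rw [h4, Submodule.mem_bot] at h5
    exact hv h5

/-- the determinant and the corank -/
lemma det_iff {D : OO} {S : Finset OO} (hS : PS S) (hf : Fs (S.image phi) (fun x => x))
    (hD : phi D = ∏ ϖ ∈ S.image phi, ϖ) : gX (S.image phi) ≠ 0 ↔ crk S = 0 := by
  have hP := (isP_iff hS hf hD (insert (-s7) S)).2 rfl
  have h1 := det_MP phi.symm hf (D := phi D) hD (P := insert (-s7) S) (by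
    rw [← phi_om, phi.symm_apply_apply, phi.symm_apply_apply]
    exact hP)
  rw [← h1, ← cork_eq hS]
  generalize insert (-s7) S = P
  have h2 : ∀ i : DecidableEq P, (@Matrix.det P i _ _ _ (MP P) ≠ 0 ↔
      (MP P).rank = Fintype.card P) := fun i => @det_rank P _ i (MP P)
  rw [h2, Fintype.card_coe]
  have h3 : (MP P).rank ≤ P.card := by
    have := Matrix.rank_le_card_width (MP P)
    rwa [Fintype.card_coe] at this
  omega

end Pool.Agent.H848.BKD
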