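import Pool.Graph.R_pool_sql_team_seeded_3dad9d7b.NH57.BK.Alg

/-!
# The elements that satisfy the local conditions: the general case

The case of a singular matrix of the theorem `t_ALG` of `Pool/Agent/NH57/BK/Alg.lean`.
-/

set_option autoImplicit false
set_option linter.unusedSectionVars false
set_option linter.unusedVariables false

namespace Pool.Agent.H848.BKD

open Pool.Agent.R384
open Pool.Agent.NH57.BK Pool.Agent.NH57.BK.AlgP
open QuadraticAlgebra
open scoped Classical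

/-- the sets of primary primes with product `1` modulo four -/
structure PS (S : Finset OO) : Prop where
  pp : ∀ q ∈ S, Pp q
  one : (4 : OO) ∣ ∏ q ∈ S, q - 1

/-- the matrix of the symbols: `(A v)_π = [π/√-7] v_π + ∑ [π/ρ] (v_π + v_ρ)` -/
noncomputable def AA (S : Finset OO) : Matrix S S (ZMod 2) := fun π ρ =>
  (if π = ρ then qs s7 π + ∑ τ ∈ S, qs (τ : OO) π else 0) + qs (ρ : OO) (π : OO)

lemma AA_mul (S : Finset OO) (y : S → ZMod 2) (π : S) : ((AA S).mulVec y) π =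
    (qs s7 π + ∑ τ ∈ S, qs (τ : OO) π) * y π + ∑ ρ : S, qs (ρ : OO) (π : OO) * y ρ := by
  rw [Matrix.mulVec, dotProduct]
  simp only [AA, add_mul, Finset.sum_add_distrib]
  congr 1
  rw [Finset.sum_eq_single π]
  · rw [if_pos rfl]; ring
  · intro b _ hb
    rw [if_neg (fun h => hb h.symm), zero_mul]
  · intro h; exact absurd (Finset.mem_univ _) h

lemma AA_mulT (S : Finset OO) (y : S → ZMod 2) (π : S) : ((AA S).transpose.mulVec y) π =
    (qs s7 π + ∑ τ ∈ S, qs (τ : OO) π) * y π + ∑ ρ : S, qs (π : OO) (ρ : OO) * y ρ := by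
  rw [Matrix.mulVec, dotProduct]
  simp only [AA, Matrix.transpose_apply, add_mul, Finset.sum_add_distrib]
  congr 1
  rw [Finset.sum_eq_single π]
  · rw [if_pos rfl]; ring
  · intro b _ hb
    rw [if_neg hb, zero_mul]
  · intro h; exact absurd (Finset.mem_univ _) h

/-- the matrix or its transpose -/
noncomputable def BB (v : OO) (S : Finset OO) : Matrix S S (ZMod 2) :=
  if v = -1 then (AA S).transpose else AA S

lemma rank_BB (v : OO) (S : Finset OO) : (BB v S).rank = (AA S).rank := by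
  unfold BB
  split_ifs
  · exact Matrix.rank_transpose _
  · rfl

/-- the indicator vector -/
noncomputable def ix (S T : Finset OO) : S → ZMod 2 := fun ρ => if (ρ : OO) ∈ T then 1 else 0

lemma ix_inj {S T T' : Finset OO} (hT : T ⊆ S) (hT' : T' ⊆ S) (h : ix S T = ix S T') : T = T' := by
  have key : ∀ ρ ∈ S, (ρ ∈ T ↔ ρ ∈ T') := by
    intro ρ hρ
    have h1 := congrFun h ⟨ρ, hρ⟩
    unfold ix at h1
    by_cases h2 : ρ ∈ T
    · by_cases h3 : ρ ∈ T'
      · simp [h2, h3]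
      · simp [h2, h3] at h1
    · by_cases h3 : ρ ∈ T'
      · simp [h2, h3] at h1
      · simp [h2, h3]
  ext ρ
  constructor
  · intro h1
    exact (key ρ (hT h1)).1 h1
  · intro h1
    exact (key ρ (hT' h1)).2 h1

lemma sum_t' {S : Finset OO} (hS : PS S) : ∑ ρ ∈ S, tO ρ = 0 := by
  apply sg_one
  rw [← em3_prod hS.pp]
  obtain ⟨t, ht⟩ := hS.one
  have h1 := congrArg (em h3) ht
  rw [map_sub, map_mul, map_one, map_ofNat] at h1
  have h40 : (4 : ZMod 4) = 0 := by decide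
  rw [h40, zero_mul] at h1
  exact sub_eq_zero.1 h1

lemma rec_all' (hrec : S_REC) {S : Finset OO} (hS : PS S) {π ρ : OO} (hπ : π ∈ S) (hρ : ρ ∈ S) :
    qs ρ π = qs π ρ + tO π * tO ρ + (if ρ = π then tO π else 0) := by
  have h5 : ∀ y : ZMod 2, y + y = 0 := by decide
  by_cases h : ρ = π
  · rw [if_pos h, h]
    have h6 : ∀ y : ZMod 2, y * y + y = 0 := by decide
    linear_combination -h6 (tO π)
  · rw [if_neg h]
    have h1 := hrec.1 π ρ (hS.pp π hπ) (hS.pp ρ hρ) (fun h' => h h'.symm)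
    linear_combination h1 - h5 (qs π ρ)

lemma pm_ne : ((-1 : OO) = 1) = False := by
  rw [eq_iff_iff, iff_false]
  intro h
  have := congrArg QuadraticAlgebra.re h
  simp at this

/-- the sign which belongs to `T` -/
noncomputable def uu (v : OO) (T : Finset OO) : OO :=
  if v = -1 then 1 else if ∑ ρ ∈ T, tO ρ = 0 then 1 else -1

/-- the linear algebra -/
lemma lin' (hrec : S_REC) {S : Finset OO} (hS : PS S) {T : Finset OO} (hTS : T ⊆ S) {u v : OO}
    {w4 : ZMod 4} (hw4 : w4 ^ 2 = w4 - 2) (hu : u = 1 ∨ u = -1)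
    (hv : (v = -1 ∧ w4 = 2) ∨ (v = 1 ∧ w4 = 3))
    (ha : ∀ q ∈ S, q ∉ T → qs q u + ∑ ρ ∈ T, qs q ρ = 0)
    (hb : ∀ q ∈ T, qs q (u * v) + qs q s7 + ∑ ρ ∈ S \ T, qs q ρ = 0)
    (hc : em hw4 (u * ∏ ρ ∈ T, ρ) = 1) : (BB v S).mulVec (ix S T) = 0 ∧ u = uu v T := by
  obtain ⟨e, he1, he2, he3⟩ := eps_of hrec hu
  have hTp : ∀ ρ ∈ T, Pp ρ := fun ρ hρ => hS.pp ρ (hTS hρ)
  have h5 : ∀ y : ZMod 2, y + y = 0 := by decide
  set x : OO → ZMod 2 := fun ρ => if ρ ∈ T then 1 else 0 with hxdef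
  have hx : ∀ ρ, x ρ = if ρ ∈ T then 1 else 0 := fun ρ => rfl
  have hix : ∀ ρ : S, ix S T ρ = x ρ := fun ρ => rfl
  rw [map_mul, he2] at hc
  rcases hv with ⟨rfl, rfl⟩ | ⟨rfl, rfl⟩
  · rw [em2_prod hTp, mul_one] at hc
    have he0 := sg_one _ hc
    have hu1 := he3 he0
    refine ⟨?_, by rw [hu1, uu, if_pos rfl]⟩
    subst hu1
    rw [BB, if_pos rfl]
    funext π
    rw [AA_mulT]
    simp only [hix]
    rw [Finset.sum_coe_sort S (fun ρ' => qs (π : OO) ρ' * x ρ')]
    obtain ⟨q, hq⟩ := π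
    show (qs s7 q + ∑ τ ∈ S, qs τ q) * x q + ∑ ρ ∈ S, qs q ρ * x ρ = 0
    have hpq := hS.pp q hq
    have h1 := comb hTS (fun ρ => qs q ρ) (tO q + qs q s7) 0 q x hx
      (fun h => by
        have := ha q hq h
        rw [qs_one] at this
        exact this)
      (fun h => by
        have := hb q h
        rw [one_mul, (hrec.2 q hpq).2] at this
        rw [zero_add]
        exact this)
    have h2 : ∑ ρ ∈ S, qs ρ q = ∑ ρ ∈ S, qs q ρ + tO q := by
      rw [Finset.sum_congr rfl fun ρ hρ => rec_all' hrec hS hq hρ, Finset.sum_add_distrib,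
        Finset.sum_add_distrib, ← Finset.mul_sum, sum_t' hS, mul_zero, add_zero,
        Finset.sum_ite_eq', if_pos hq]
    rw [h2, ← (hrec.2 q hpq).1]
    simp only [mul_add, Finset.sum_add_distrib, ← Finset.sum_mul] at h1
    linear_combination h1
  · rw [em3_prod hTp, ← sg_add] at hc
    have he0 := sg_one _ hc
    have hne : ¬ (1 : OO) = -1 := fun h => by rw [← pm_ne]; exact h.symm
    refine ⟨?_, ?_⟩
    · rw [BB, if_neg hne]
      funext π
      rw [AA_mul]
      simp only [hix]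
      rw [Finset.sum_coe_sort S (fun ρ' => qs ρ' (π : OO) * x ρ')]
      obtain ⟨q, hq⟩ := π
      show (qs s7 q + ∑ τ ∈ S, qs τ q) * x q + ∑ ρ ∈ S, qs ρ q * x ρ = 0
      have hpq := hS.pp q hq
      have h1 := comb hTS (fun ρ => qs q ρ) (qs q s7) (qs q u) q x hx
        (fun h => ha q hq h)
        (fun h => by
          have := hb q h
          rw [mul_one] at this
          exact this)
      have h3 : ∑ ρ ∈ S, tO ρ * x ρ = e := by
        have h4 : ∑ ρ ∈ S, tO ρ * x ρ = ∑ ρ ∈ T, tO ρ := by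
          rw [← Finset.sum_subset hTS]
          · refine Finset.sum_congr rfl fun ρ hρ => ?_
            rw [hx, if_pos hρ, mul_one]
          · intro ρ _ hρ
            rw [hx, if_neg hρ, mul_zero]
        rw [h4]
        linear_combination he0 - h5 e
      have h2 : ∑ ρ ∈ S, qs ρ q * (x q + x ρ) =
          ∑ ρ ∈ S, qs q ρ * (x ρ + x q) + tO q * e := by
        have h6 : ∑ ρ ∈ S, qs ρ q * (x q + x ρ) = ∑ ρ ∈ S, (qs q ρ * (x ρ + x q) +
            (tO q * x q * tO ρ + tO q * (tO ρ * x ρ)) + (if ρ = q then tO q * (x q + x q) else 0)) := by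
          refine Finset.sum_congr rfl fun ρ hρ => ?_
          rw [rec_all' hrec hS hq hρ]
          by_cases h : ρ = q
          · rw [if_pos h, if_pos h, h]; ring
          · rw [if_neg h, if_neg h]; ring
        rw [h6, Finset.sum_add_distrib, Finset.sum_add_distrib, Finset.sum_add_distrib,
          ← Finset.mul_sum, ← Finset.mul_sum, h3, sum_t' hS, mul_zero, zero_add,
          Finset.sum_ite_eq', if_pos hq, h5, mul_zero, add_zero]
      simp only [mul_add, Finset.sum_add_distrib, ← Finset.sum_mul] at h2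
      rw [he1 q hpq] at h1
      simp only [mul_add, Finset.sum_add_distrib, ← Finset.sum_mul] at h1
      rw [← (hrec.2 q hpq).1]
      linear_combination h1 + h2
    · have he : ∑ ρ ∈ T, tO ρ = e := by linear_combination he0 - h5 e
      rw [uu, if_neg hne, he]
      rcases hu with hu1 | hu1
      · rw [if_pos]
        · exact hu1
        · -- `e = 0`
          have h6 := he2 3 (by decide)
          rw [hu1, map_one] at h6
          exact sg_one _ h6.symm
      · rw [if_neg]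
        · exact hu1
        · intro h0
          have := he3 h0
          rw [hu1] at this
          exact hne this.symm

/-- the local conditions -/
structure LC (m ϖ ϖ' : OO) {w4 : ZMod 4} (hw4 : w4 ^ 2 = w4 - 2) (δ : OO) : Prop where
  sf : Squarefree δ
  nd : ¬ ϖ ∣ δ
  nd' : ¬ ϖ' ∣ δ
  four : em hw4 δ = 1
  sup : ∀ π : OO, Prime π → π ∣ δ → ¬ π ∣ 2 → π ∣ m
  loc : ∀ q : OO, Prime q → q ∣ m → (¬ q ∣ δ ∧ Sqm q δ) ∨
    ∃ δ1 m1, δ = q * δ1 ∧ m = q * m1 ∧ Sqm q (δ1 * m1)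

/-- the elements that satisfy the local conditions are given by elements of the kernel -/
theorem algD (hrec : S_REC) {S : Finset OO} (hS : PS S) {m ϖ ϖ' v : OO} {w4 : ZMod 4}
    (hw4 : w4 ^ 2 = w4 - 2) (hmv : m = v * (s7 * ∏ q ∈ S, q))
    (hcase : (v = -1 ∧ ϖ = om ∧ ϖ' = 1 - om ∧ w4 = 2) ∨
      (v = 1 ∧ ϖ = 1 - om ∧ ϖ' = om ∧ w4 = 3)) {δ : OO} (h : LC m ϖ ϖ' hw4 δ) :
    ∃ (f : Bool) (T : Finset OO), T ⊆ S ∧ (BB v S).mulVec (ix S T) = 0 ∧
      δ = bif f then s7 * (uu v T * v * ∏ q ∈ S \ T, q) else uu v T * ∏ q ∈ T, q := by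
  obtain ⟨hδ, hϖ, hϖ', hem, hsup, hloc⟩ := h
  have hvc : ((v = -1 ∧ w4 = 2) ∨ (v = 1 ∧ w4 = 3)) := by
    rcases hcase with ⟨h, -, -, h4⟩ | ⟨h, -, -, h4⟩
    · exact Or.inl ⟨h, h4⟩
    · exact Or.inr ⟨h, h4⟩
  have hvu : v = 1 ∨ v = -1 := by
    rcases hvc with ⟨h, -⟩ | ⟨h, -⟩
    · exact Or.inr h
    · exact Or.inl h
  have hom : ¬ om ∣ δ ∧ ¬ (1 - om) ∣ δ := by
    rcases hcase with ⟨-, h1, h2, -⟩ | ⟨-, h1, h2, -⟩
    · rw [h1] at hϖ; rw [h2] at hϖ'; exact ⟨hϖ, hϖ'⟩
    · rw [h1] at hϖ; rw [h2] at hϖ'; exact ⟨hϖ', hϖ⟩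
  have h2δ : ∀ π : OO, Prime π → π ∣ δ → ¬ π ∣ 2 := by
    intro π hπ hd h2
    have e : (2 : OO) = om * (1 - om) := om_mul.symm
    rw [e] at h2
    rcases hπ.dvd_or_dvd h2 with h1 | h1
    · exact hom.1 (((hπ.dvd_prime_iff_associated prime_om).1 h1).symm.dvd.trans hd)
    · exact hom.2 (((hπ.dvd_prime_iff_associated prime_om').1 h1).symm.dvd.trans hd)
  have hs70 : s7 ≠ 0 := prime_s7.ne_zero
  -- the part prime to `√-7`
  obtain ⟨f, δ', hf, hδf, hδ7⟩ :
      ∃ (f : ℕ) (δ' : OO), (f = 0 ∨ f = 1) ∧ δ = s7 ^ f * δ' ∧ ¬ s7 ∣ δ' := by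
    by_cases h : s7 ∣ δ
    · obtain ⟨δ', h'⟩ := h
      refine ⟨1, δ', Or.inr rfl, by rw [h', pow_one], ?_⟩
      rintro ⟨t, ht⟩
      apply prime_s7.not_isUnit
      apply hδ s7
      rw [h', ht]
      exact ⟨t, by ring⟩
    · exact ⟨0, δ, Or.inl rfl, by rw [pow_zero, one_mul], h⟩
  have hδd : δ' ∣ δ := by rw [hδf]; exact Dvd.intro_left _ rfl
  have hδ' : Squarefree δ' := hδ.squarefree_of_dvd hδd
  set T : Finset OO := S.filter fun q => q ∣ δ' with hT
  have hTS : T ⊆ S := Finset.filter_subset _ _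
  have hmem : ∀ q, q ∈ T ↔ q ∈ S ∧ q ∣ δ' := fun q => by simp [hT]
  have hTp : ∀ ρ ∈ T, Pp ρ := fun ρ hρ => hS.pp ρ (hTS hρ)
  obtain ⟨u, hu, hδe⟩ : ∃ u : OO, (u = 1 ∨ u = -1) ∧ δ' = u * ∏ q ∈ T, q := by
    have hP : ∏ q ∈ T, q ∣ δ' := by
      apply Finset.prod_dvd_of_coprime
      · intro i hi k hk hik
        exact ((hTp i hi).prime.irreducible.coprime_iff_not_dvd).2 (AlgP.nd (hTp i hi) (hTp k hk) hik)
      · intro i hi
        exact ((hmem i).1 hi).2
    obtain ⟨δ2, h2⟩ := hP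
    have hδ20 : δ2 ≠ 0 := by
      rintro rfl
      rw [mul_zero] at h2
      exact hδ'.ne_zero h2
    have hno : ∀ q ∈ S, ¬ q ∣ δ2 := by
      rintro i hi ⟨t, ht⟩
      have hiT : i ∈ T := (hmem i).2 ⟨hi, by rw [h2, ht]; exact ⟨(∏ q ∈ T, q) * t, by ring⟩⟩
      obtain ⟨v, hv⟩ := Finset.dvd_prod_of_mem (fun q : OO => q) hiT
      apply (hS.pp i hi).prime.not_isUnit
      apply hδ' i
      rw [h2, ht, hv]
      exact ⟨v * t, by ring⟩
    have hunit : IsUnit δ2 := by
      by_contra hcon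
      obtain ⟨π, hπ, hπy⟩ := WfDvdMonoid.exists_irreducible_factor hcon hδ20
      have hπp := hπ.prime
      have hπδ' : π ∣ δ' := hπy.trans (by rw [h2]; exact Dvd.intro_left _ rfl)
      have hπδ : π ∣ δ := hπδ'.trans hδd
      have hπm := hsup π hπp hπδ (h2δ π hπp hπδ)
      rw [hmv] at hπm
      rcases hπp.dvd_or_dvd hπm with h3 | h3
      · apply hπp.not_isUnit
        rcases hvu with rfl | rfl
        · exact isUnit_of_dvd_one h3
        · exact isUnit_of_dvd_one ((dvd_neg).1 h3)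
      · rcases hπp.dvd_or_dvd h3 with h4 | h4
        · exact hδ7 (((hπp.dvd_prime_iff_associated prime_s7).1 h4).symm.dvd.trans hπδ')
        · obtain ⟨q, hq, h5⟩ := (hπp.dvd_finsetProd_iff _).1 h4
          exact hno q hq
            ((((hπp.dvd_prime_iff_associated (hS.pp q hq).prime).1 h5).symm.dvd.trans hπy))
    exact ⟨δ2, unit_cases hunit, by rw [h2]; ring⟩
  have hTdvd : ∀ q ∈ S, (q ∈ T ↔ q ∣ δ) := by
    intro q hq
    rw [hmem, hδf]
    constructor
    · exact fun h => Dvd.dvd.mul_left h.2 _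
    · intro h
      refine ⟨hq, ?_⟩
      rcases (hS.pp q hq).prime.dvd_or_dvd h with h1 | h1
      · exact absurd ((hS.pp q hq).prime.dvd_of_dvd_pow h1) (AlgP.not_s7 (hS.pp q hq))
      · exact h1
  have hsf : ∀ q, Pp q → ¬ q ∣ s7 ^ f ∧ qs q (s7 ^ f) = f * qs q s7 := by
    intro q hq
    rcases hf with rfl | rfl
    · refine ⟨fun h => hq.prime.not_isUnit (isUnit_of_dvd_one (by simpa using h)), ?_⟩
      rw [pow_zero, qs_one]; simp
    · rw [pow_one]
      exact ⟨AlgP.not_s7 hq, by simp⟩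
  have huv : u * v = 1 ∨ u * v = -1 := by
    rcases hu with rfl | rfl <;> rcases hvu with rfl | rfl <;> simp
  have hqm : ∀ q ∈ S, q ∣ m := by
    intro q hq
    rw [hmv]
    exact Dvd.dvd.mul_left (Dvd.dvd.mul_left (Finset.dvd_prod_of_mem (fun q : OO => q) hq) _) _
  -- the conditions
  have c1 : ∀ q ∈ S, q ∉ T → qs q u + f * qs q s7 + ∑ ρ ∈ T, qs q ρ = 0 := by
    intro q hq hqT
    have hp := hS.pp q hq
    have h2 := AlgP.not_two hp
    rcases hloc q hp.prime (hqm q hq) with ⟨-, h1⟩ | ⟨δ1, m1, h1, -⟩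
    · have n1 := AlgP.nd_prod hTp hp hqT
      have n0 := AlgP.not_unit hp hu
      have n3 : ¬ q ∣ u * ∏ ρ ∈ T, ρ := fun h => (hp.prime.dvd_or_dvd h).elim n0 n1
      rw [← qs_zero, hδf, hδe, AlgP.qs_mul hp.prime h2 (hsf q hp).1 n3,
        AlgP.qs_mul hp.prime h2 n0 n1, (hsf q hp).2, AlgP.qs_prod hp.prime h2 T
          (fun ρ hρ => AlgP.nd hp (hTp ρ hρ) (fun h => hqT (h ▸ hρ)))] at h1
      rw [← h1]
      ring
    · exact absurd ((hTdvd q hq).2 ⟨δ1, h1⟩) hqT
  have c2 : ∀ q ∈ T, qs q (u * v) + (f * qs q s7 + qs q s7) + ∑ ρ ∈ S \ T, qs q ρ = 0 := by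
    intro q hqT
    have hq := hTS hqT
    have hp := hS.pp q hq
    have h2' := AlgP.not_two hp
    rcases hloc q hp.prime (hqm q hq) with ⟨h1, -⟩ | ⟨δ1, m1, h1, h2, h3⟩
    · exact absurd ((hTdvd q hq).1 hqT) h1
    · have hq0 := hp.prime.ne_zero
      have e1 : δ1 = s7 ^ f * (u * ∏ ρ ∈ T.erase q, ρ) := by
        apply mul_left_cancel₀ hq0
        rw [← h1, hδf, hδe, ← Finset.mul_prod_erase T (fun q => q) hqT]
        ring
      have e2 : m1 = v * (s7 * ((∏ ρ ∈ T.erase q, ρ) * ∏ ρ ∈ S \ T, ρ)) := by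
        apply mul_left_cancel₀ hq0
        rw [← h2, hmv, ← Finset.prod_sdiff hTS, ← Finset.mul_prod_erase T (fun q => q) hqT]
        ring
      have e3 : δ1 * m1 = (s7 ^ f * (s7 * (u * v * ∏ ρ ∈ S \ T, ρ))) *
          (∏ ρ ∈ T.erase q, ρ) ^ 2 := by
        rw [e1, e2]
        ring
      have hqT' : q ∉ S \ T := fun h => (Finset.mem_sdiff.1 h).2 hqT
      have hSTp : ∀ ρ ∈ S \ T, Pp ρ := fun ρ hρ => hS.pp ρ (Finset.mem_sdiff.1 hρ).1
      have n1 := AlgP.nd_prod hSTp hp hqT'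
      have n2 := AlgP.not_unit hp huv
      have n3 : ¬ q ∣ u * v * ∏ ρ ∈ S \ T, ρ := fun h => (hp.prime.dvd_or_dvd h).elim n2 n1
      have n4 : ¬ q ∣ s7 * (u * v * ∏ ρ ∈ S \ T, ρ) := fun h =>
        (hp.prime.dvd_or_dvd h).elim (AlgP.not_s7 hp) n3
      have n5 : ¬ q ∣ s7 ^ f * (s7 * (u * v * ∏ ρ ∈ S \ T, ρ)) := fun h =>
        (hp.prime.dvd_or_dvd h).elim (hsf q hp).1 n4
      have n6 : ¬ q ∣ ∏ ρ ∈ T.erase q, ρ :=
        AlgP.nd_prod (fun ρ hρ => hTp ρ (Finset.mem_of_mem_erase hρ)) hp (Finset.notMem_erase q T)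
      rw [← qs_zero, e3, AlgP.qs_mul_sq hp.prime h2' n5 n6,
        AlgP.qs_mul hp.prime h2' (hsf q hp).1 n4, AlgP.qs_mul hp.prime h2' (AlgP.not_s7 hp) n3,
        AlgP.qs_mul hp.prime h2' n2 n1, (hsf q hp).2, AlgP.qs_prod hp.prime h2' (S \ T)
          (fun ρ hρ => AlgP.nd hp (hSTp ρ hρ) (fun h => hqT' (h ▸ hρ)))] at h3
      rw [← h3]
      ring
  have hvv : v * v = 1 := by rcases hvu with rfl | rfl <;> ring
  rcases hf with rfl | rfl
  · -- `√-7` does not divide `δ`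
    rw [pow_zero, one_mul] at hδf
    obtain ⟨g1, g2⟩ := lin' hrec hS hTS hw4 hu hvc
      (fun q hq hqT => by
        have := c1 q hq hqT
        rw [Nat.cast_zero, zero_mul, add_zero] at this
        exact this)
      (fun q hqT => by
        have := c2 q hqT
        rw [Nat.cast_zero, zero_mul, zero_add] at this
        exact this) (by rw [← hδe, ← hδf]; exact hem)
    refine ⟨false, T, hTS, g1, ?_⟩
    rw [cond_false, ← g2, hδf, hδe]
  · -- `√-7` divides `δ`
    rw [pow_one] at hδf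
    have h2x : ∀ x : ZMod 2, x + x = 0 := by decide
    have hm1 : em hw4 m = 1 := by
      rw [hmv, map_mul, map_mul]
      rcases hvc with ⟨rfl, rfl⟩ | ⟨rfl, rfl⟩
      · have h1 : em hw4 s7 = -1 := by rw [em_apply]; simp only [s7]; decide
        have h2 : em hw4 (∏ q ∈ S, q) = 1 := AlgP.em2_prod hS.pp
        rw [h1, h2, map_neg, map_one]
        decide
      · have h1 : em hw4 s7 = 1 := by rw [em_apply]; simp only [s7]; decide
        have h2 : em hw4 (∏ q ∈ S, q) = 1 := by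
          have := AlgP.em3_prod hS.pp
          rw [sum_t' hS] at this
          exact this
        rw [h1, h2, map_one]
        decide
    have huu : em hw4 u * em hw4 u = 1 := by
      rcases hu with rfl | rfl
      · rw [map_one, one_mul]
      · rw [map_neg, map_one]; decide
    have hc : em hw4 (u * v * ∏ ρ ∈ S \ T, ρ) = 1 := by
      rw [hδf, hδe, map_mul, map_mul] at hem
      rw [hmv, ← Finset.prod_sdiff hTS, map_mul, map_mul, map_mul] at hm1
      rw [map_mul, map_mul]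
      calc em hw4 u * em hw4 v * em hw4 (∏ ρ ∈ S \ T, ρ)
          = em hw4 u * em hw4 v * em hw4 (∏ ρ ∈ S \ T, ρ) *
            (em hw4 s7 * (em hw4 u * em hw4 (∏ ρ ∈ T, ρ))) := by rw [hem, mul_one]
        _ = (em hw4 u * em hw4 u) * (em hw4 v * (em hw4 s7 * (em hw4 (∏ ρ ∈ S \ T, ρ) *
            em hw4 (∏ ρ ∈ T, ρ)))) := by ring
        _ = 1 := by rw [huu, hm1, mul_one]
    obtain ⟨g1, g2⟩ := lin' hrec hS (T := S \ T) Finset.sdiff_subset hw4 huv hvc
      (fun q hq hqT => by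
        have hqT' : q ∈ T := by
          by_contra h
          exact hqT (Finset.mem_sdiff.2 ⟨hq, h⟩)
        have := c2 q hqT'
        rw [Nat.cast_one, one_mul, h2x, add_zero] at this
        exact this)
      (fun q hqT => by
        have h1 := Finset.mem_sdiff.1 hqT
        have := c1 q h1.1 h1.2
        rw [Nat.cast_one, one_mul] at this
        rw [Finset.sdiff_sdiff_eq_self hTS, mul_assoc, hvv, mul_one]
        exact this) hc
    refine ⟨true, S \ T, Finset.sdiff_subset, g1, ?_⟩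
    rw [cond_true, Finset.sdiff_sdiff_eq_self hTS, ← g2, mul_assoc u v v, hvv, mul_one, hδf, hδe]

/-- the kernel -/
abbrev Ker (v : OO) (S : Finset OO) : Type := LinearMap.ker (BB v S).mulVecLin

/-- the corank of the matrix of symbols -/
noncomputable def crk (S : Finset OO) : ℕ := S.card - (AA S).rank

lemma card_ker (v : OO) (S : Finset OO) : Nat.card (Ker v S) = 2 ^ crk S := by
  have h1 : Module.finrank (ZMod 2) (LinearMap.range (BB v S).mulVecLin) +
      Module.finrank (ZMod 2) (Ker v S) = S.card := by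
    rw [(BB v S).mulVecLin.finrank_range_add_finrank_ker, Module.finrank_fintype_fun_eq_card,
      Fintype.card_coe]
  have h2 : Module.finrank (ZMod 2) (LinearMap.range (BB v S).mulVecLin) = (AA S).rank := by
    rw [← rank_BB v S]
    rfl
  have h3 : Module.finrank (ZMod 2) (Ker v S) = crk S := by
    unfold crk
    rw [h2] at h1
    omega
  have h4 := Module.natCard_eq_pow_finrank (K := ZMod 2) (V := Ker v S)
  rw [h4, h3, Nat.card_zmod]

end Pool.Agent.H848.BKD
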