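import Pool.Graph.R_pool_sql_team_seeded_3dad9d7b.NH57.BL.AlgG
import Pool.Agent.H848.BKD.AlgD

/-!
# The elements that satisfy the local conditions: the remaining weights, the general case

The case of a singular bordered matrix of the theorem `t_ALGG` of `Pool/Agent/NH57/BL/AlgG.lean`.
-/

set_option autoImplicit false
set_option linter.unusedSectionVars false
set_option linter.unusedVariables false

namespace Pool.Agent.H848.BKD

open Pool.Agent.R384
open Pool.Agent.NH57.BK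
open Pool.Agent.NH57.BK.AlgP
open Pool.Agent.NH57.BG (e6 e3 S_SUPO)
open Pool.Agent.NH57.BG.A8 (sum_ind cl cl_mul sq_mul)
open Pool.Agent.NH57.BH Pool.Agent.NH57.BH.AG
open QuadraticAlgebra
open scoped Classical

/-- the sets of primary primes with product `1` modulo four, in the class `(x, y)` modulo eight -/
structure PX (x y : ZMod 2) (S : Finset OO) : Prop where
  ps : PS S
  six : em e6 (∏ q ∈ S, q) = 5 ↔ x = 1
  three : em e3 (∏ q ∈ S, q) = 5 ↔ y = 1

/-- the bordered matrix -/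
noncomputable def NX (x y : ZMod 2) (S : Finset OO) : Matrix (Option S) (Option S) (ZMod 2) :=
  fun i k => match i, k with
    | none, none => aa x y
    | none, some ρ => dO x ρ
    | some π, none => gO y π
    | some π, some ρ => MM S π ρ

/-- the bordered matrix or its transpose -/
noncomputable def NB (v : OO) (x y : ZMod 2) (S : Finset OO) :
    Matrix (Option S) (Option S) (ZMod 2) :=
  if v = -1 then (NX x y S).transpose else NX x y S

lemma rank_NB (v : OO) (x y : ZMod 2) (S : Finset OO) : (NB v x y S).rank = (NX x y S).rank := by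
  unfold NB
  split_ifs
  · exact Matrix.rank_transpose _
  · rfl

/-- the indicator vector with a border -/
noncomputable def iy (S T : Finset OO) (a : ZMod 2) : Option S → ZMod 2 := fun o => match o with
  | none => a
  | some ρ => ix S T ρ

lemma iy_inj {S T T' : Finset OO} {a a' : ZMod 2} (hT : T ⊆ S) (hT' : T' ⊆ S)
    (h : iy S T a = iy S T' a') : T = T' ∧ a = a' := by
  refine ⟨ix_inj hT hT' ?_, congrFun h none⟩
  funext ρ
  exact congrFun h (some ρ)

/-- the linear algebra -/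
lemma linG' (hrec : S_REC) {x y : ZMod 2} {S : Finset OO} (hS : PS S) {T : Finset OO}
    (hTS : T ⊆ S) {u v b ϖ ϖ' : OO} {a z z' s e : ZMod 2} {w4 : ZMod 4} (hw4 : w4 ^ 2 = w4 - 2)
    (hu : (u = 1 ∧ e = 0) ∨ (u = -1 ∧ e = 1))
    (hv : (v = -1 ∧ ϖ = om ∧ ϖ' = 1 - om ∧ w4 = 2 ∧ z = x ∧ z' = y ∧ s = 1) ∨
      (v = 1 ∧ ϖ = 1 - om ∧ ϖ' = om ∧ w4 = 3 ∧ z = y ∧ z' = x ∧ s = 0))
    (hbq : ∀ q ∈ S, qs q b = qs q (-ϖ) + (1 + z) * tO q)
    (ha : ∀ q ∈ S, q ∉ T → qs q u + a * qs q b + ∑ ρ ∈ T, qs q ρ = 0)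
    (hb : ∀ q ∈ T, qs q (u * v) + a * qs q b + qs q s7 + ∑ ρ ∈ S \ T, qs q ρ = 0)
    (hc : em hw4 (u * ∏ ρ ∈ T, ρ) = 1)
    (hd : (1 + z') * e + a * (1 + (1 + z') * (1 + z)) +
      ∑ ρ ∈ T, (qs ρ (-ϖ') + (1 + z') * s * tO ρ) = 0) :
    (NB v x y S).mulVec (iy S T a) = 0 ∧ u = uu v T := by
  have he1 : ∀ q, Pp q → qs q u = e * tO q := by
    intro q hq
    rcases hu with ⟨rfl, rfl⟩ | ⟨rfl, rfl⟩
    · rw [qs_one, zero_mul]
    · rw [(hrec.2 q hq).2, one_mul]
  have he2 : em hw4 u = sg e := by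
    rcases hu with ⟨rfl, rfl⟩ | ⟨rfl, rfl⟩
    · rw [map_one]; rfl
    · rw [map_neg, map_one]; rfl
  have he3 : e = 0 → u = 1 := by
    intro h
    rcases hu with ⟨h1, -⟩ | ⟨-, h1⟩
    · exact h1
    · rw [h1] at h; exact absurd h (by decide)
  have hTp : ∀ ρ ∈ T, Pp ρ := fun ρ hρ => hS.pp ρ (hTS hρ)
  have h5 : ∀ y : ZMod 2, y + y = 0 := by decide
  set X : OO → ZMod 2 := fun ρ => if ρ ∈ T then 1 else 0 with hxdef
  have hx : ∀ ρ, X ρ = if ρ ∈ T then 1 else 0 := fun ρ => rfl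
  rw [map_mul, he2] at hc
  rcases hv with ⟨rfl, rfl, rfl, rfl, rfl, rfl, rfl⟩ | ⟨rfl, rfl, rfl, rfl, rfl, rfl, rfl⟩
  · rw [em2_prod hTp, mul_one] at hc
    have he0 := sg_one _ hc
    have hu1 := he3 he0
    refine ⟨?_, by rw [hu1, uu, if_pos rfl]⟩
    rw [NB, if_pos rfl]
    funext o
    rw [Pi.zero_apply, Matrix.mulVec, dotProduct, Fintype.sum_option]
    rcases o with _ | ⟨q, hq⟩
    · have h3 := sum_ind hTS (fun ρ => gO z' ρ) X hx
      show aa z z' * a + ∑ ρ : S, gO z' ρ * X ρ = 0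
      rw [Finset.sum_coe_sort S (fun ρ' => gO z' ρ' * X ρ'), h3]
      unfold aa gO
      rw [aa_eq]
      rw [he0] at hd
      have h4 : ∀ ρ ∈ T, qs ρ (-(1 - om)) + (1 + z') * tO ρ =
          qs ρ (-(1 - om)) + (1 + z') * 1 * tO ρ := fun ρ _ => by rw [mul_one]
      rw [Finset.sum_congr rfl h4]
      linear_combination hd
    · have hpq := hS.pp q hq
      show dO z q * a + ∑ ρ : S, MM S ρ q * X ρ = 0
      rw [Finset.sum_coe_sort S (fun ρ' => MM S ρ' q * X ρ'), MM_col hq]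
      have h1 := comb hTS (fun ρ => qs q ρ) (tO q + qs q s7) (a * qs q b) q X hx
        (fun h => by
          have := ha q hq h
          rw [hu1, qs_one, zero_add] at this
          exact this)
        (fun h => by
          have := hb q h
          rw [hu1, one_mul, (hrec.2 q hpq).2] at this
          rw [← this]
          ring)
      have h2 : ∑ ρ ∈ S, qs ρ q = ∑ ρ ∈ S, qs q ρ + tO q := by
        rw [Finset.sum_congr rfl fun ρ hρ => rec_all' hrec hS hq hρ, Finset.sum_add_distrib,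
          Finset.sum_add_distrib, ← Finset.mul_sum, sum_t' hS, mul_zero, add_zero,
          Finset.sum_ite_eq', if_pos hq]
      rw [h2, ← (hrec.2 q hpq).1]
      unfold dO
      rw [← hbq q hq]
      simp only [mul_add, Finset.sum_add_distrib, ← Finset.sum_mul] at h1
      linear_combination h1
  · rw [em3_prod hTp, ← sg_add] at hc
    have he0 := sg_one _ hc
    have hne : ¬ (1 : OO) = -1 := fun h => by rw [← pm_ne]; exact h.symm
    have h3 : ∑ ρ ∈ S, tO ρ * X ρ = e := by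
      rw [sum_ind hTS tO X hx]
      linear_combination he0 - h5 e
    have h6' : ∑ ρ ∈ T, tO ρ = e := by
      linear_combination he0 - h5 e
    refine ⟨?_, ?_⟩
    · rw [NB, if_neg hne]
      funext o
      rw [Pi.zero_apply, Matrix.mulVec, dotProduct, Fintype.sum_option]
      rcases o with _ | ⟨q, hq⟩
      · have h4 := sum_ind hTS (fun ρ => dO z' ρ) X hx
        show aa z' z * a + ∑ ρ : S, dO z' ρ * X ρ = 0
        rw [Finset.sum_coe_sort S (fun ρ' => dO z' ρ' * X ρ'), h4]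
        unfold aa dO
        rw [aa_eq]
        rw [Finset.sum_add_distrib, ← Finset.mul_sum, h6']
        rw [Finset.sum_congr rfl fun ρ _ => show qs ρ (-om) + (1 + z') * 0 * tO ρ = qs ρ (-om) by ring]
          at hd
        linear_combination hd
      · have hpq := hS.pp q hq
        show gO z q * a + ∑ ρ : S, MM S q ρ * X ρ = 0
        rw [Finset.sum_coe_sort S (fun ρ' => MM S q ρ' * X ρ'), MM_row hq]
        have h1 := comb hTS (fun ρ => qs q ρ) (qs q s7) (qs q u + a * qs q b) q X hx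
          (fun h => ha q hq h)
          (fun h => by
            have := hb q h
            rw [mul_one] at this
            exact this)
        have h2 : ∑ ρ ∈ S, qs ρ q * (X q + X ρ) =
            ∑ ρ ∈ S, qs q ρ * (X ρ + X q) + tO q * e := by
          have h6 : ∑ ρ ∈ S, qs ρ q * (X q + X ρ) = ∑ ρ ∈ S, (qs q ρ * (X ρ + X q) +
              (tO q * X q * tO ρ + tO q * (tO ρ * X ρ)) +
                (if ρ = q then tO q * (X q + X q) else 0)) := by
            refine Finset.sum_congr rfl fun ρ hρ => ?_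
            rw [rec_all' hrec hS hq hρ]
            by_cases h : ρ = q
            · rw [if_pos h, if_pos h, h]; ring
            · rw [if_neg h, if_neg h]; ring
          rw [h6, Finset.sum_add_distrib, Finset.sum_add_distrib, Finset.sum_add_distrib,
            ← Finset.mul_sum, ← Finset.mul_sum, h3, sum_t' hS, mul_zero, zero_add,
            Finset.sum_ite_eq', if_pos hq, h5, mul_zero, add_zero]
        rw [h2, ← (hrec.2 q hpq).1]
        rw [he1 q hpq] at h1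
        unfold gO
        rw [← hbq q hq]
        linear_combination h1
    · rw [uu, if_neg hne, h6']
      rcases hu with ⟨hu1, he⟩ | ⟨hu1, he⟩
      · rw [if_pos he]; exact hu1
      · rw [if_neg]
        · exact hu1
        · rw [he]; decide

/-- the local conditions -/
structure LG (m ϖ : OO) (z : ZMod 2) {w4 : ZMod 4} (hw4 : w4 ^ 2 = w4 - 2)
    {w8 : ZMod 8} (hw8 : w8 ^ 2 = w8 - 2) (δ : OO) : Prop where
  sf : Squarefree δ
  eight : em hw8 δ = 1 ∨ em hw8 (δ * m) = 1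
  four : em hw4 δ = 1 ∨ ∃ δ' : OO, δ = (if z = 1 then -ϖ else ϖ) * δ' ∧ em hw4 δ' = 1
  sup : ∀ π : OO, Prime π → π ∣ δ → ¬ π ∣ 2 → π ∣ m
  loc : ∀ q : OO, Prime q → q ∣ m → (¬ q ∣ δ ∧ Sqm q δ) ∨
    ∃ δ1 m1, δ = q * δ1 ∧ m = q * m1 ∧ Sqm q (δ1 * m1)

/-- the elements that satisfy the local conditions are given by elements of the kernel -/
theorem algGD (hrec : S_REC) (hsupo : S_SUPO) {x y : ZMod 2} {S : Finset OO} (hG : PX x y S)
    {m ϖ ϖ' δ : OO} {w4 : ZMod 4} (hw4 : w4 ^ 2 = w4 - 2) {w8 : ZMod 8} (hw8 : w8 ^ 2 = w8 - 2)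
    {z : ZMod 2} {v : OO}
    (hcase : (m = -(s7 * ∏ q ∈ S, q) ∧ ϖ = om ∧ ϖ' = 1 - om ∧ w4 = 2 ∧ w8 = 3 ∧ z = x ∧ v = -1) ∨
      (m = s7 * ∏ q ∈ S, q ∧ ϖ = 1 - om ∧ ϖ' = om ∧ w4 = 3 ∧ w8 = 6 ∧ z = y ∧ v = 1))
    (hLG : LG m ϖ z hw4 hw8 δ) :
    ∃ (f : Bool) (a : ℕ) (T : Finset OO), (a = 0 ∨ a = 1) ∧ T ⊆ S ∧
      (NB v x y S).mulVec (iy S T a) = 0 ∧
      δ = (if z = 1 then -ϖ else ϖ) ^ a *
        (bif f then s7 * (uu v T * v * ∏ q ∈ S \ T, q) else uu v T * ∏ q ∈ T, q) := by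
  obtain ⟨hδ, hem8, hem4, hsup, hloc⟩ := hLG
  have hS := hG.ps
  obtain ⟨z', s, hvc, hw8c, hmv⟩ : ∃ (z' s : ZMod 2),
      ((v = -1 ∧ ϖ = om ∧ ϖ' = 1 - om ∧ w4 = 2 ∧ z = x ∧ z' = y ∧ s = 1) ∨
      (v = 1 ∧ ϖ = 1 - om ∧ ϖ' = om ∧ w4 = 3 ∧ z = y ∧ z' = x ∧ s = 0)) ∧
      ((ϖ' = 1 - om ∧ w8 = 3 ∧ s = 1) ∨ (ϖ' = om ∧ w8 = 6 ∧ s = 0)) ∧
      m = v * (s7 * ∏ q ∈ S, q) := by
    rcases hcase with ⟨h, h1, h2, h4, h5, h6, h7⟩ | ⟨h, h1, h2, h4, h5, h6, h7⟩
    · exact ⟨y, 1, Or.inl ⟨h7, h1, h2, h4, h6, rfl, rfl⟩, Or.inl ⟨h2, h5, rfl⟩, by rw [h, h7]; ring⟩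
    · exact ⟨x, 0, Or.inr ⟨h7, h1, h2, h4, h6, rfl, rfl⟩, Or.inr ⟨h2, h5, rfl⟩, by rw [h, h7]; ring⟩
  have hvu : v = 1 ∨ v = -1 := by
    rcases hvc with ⟨h, -⟩ | ⟨h, -⟩
    · exact Or.inr h
    · exact Or.inl h
  -- the two places
  have hϖ4 : em hw4 ϖ = 2 := by
    rcases hvc with ⟨-, h1, -, rfl, -⟩ | ⟨-, h1, -, rfl, -⟩
    · rw [h1, em_apply]; simp only [om]; decide
    · rw [h1, map_sub, map_one, em_apply]; simp only [om]; decide
  have hϖ8 : em hw8 ϖ' = 6 ∧ em hw8 ϖ = 3 ∧ em hw8 s7 * em hw8 s7 = 1 := by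
    rcases hvc with ⟨-, h1, h2, -⟩ | ⟨-, h1, h2, -⟩ <;> rcases hw8c with ⟨h3, rfl, -⟩ | ⟨h3, rfl, -⟩
    · rw [h1, h2, map_sub, map_one, em_apply, em_apply]; simp only [om, s7]; decide
    · exfalso
      rw [h2] at h3
      have := congrArg (em AlgP.h3) h3
      rw [map_sub, map_one, em_apply] at this
      simp only [om] at this
      exact absurd this (by decide)
    · exfalso
      rw [h2] at h3
      have := congrArg (em AlgP.h3) h3
      rw [map_sub, map_one, em_apply] at this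
      simp only [om] at this
      exact absurd this (by decide)
    · rw [h1, h2, map_sub, map_one, em_apply, em_apply]; simp only [om, s7]; decide
  have hϖϖ : ϖ * ϖ' = 2 := by
    rcases hvc with ⟨-, h1, h2, -⟩ | ⟨-, h1, h2, -⟩
    · rw [h1, h2, om_mul]
    · rw [h1, h2, mul_comm, om_mul]
  set b : OO := if z = 1 then -ϖ else ϖ with hbdef
  have hbc : b = -ϖ ∧ z = 1 ∨ b = ϖ ∧ z = 0 := by
    by_cases h : z = 1
    · left; rw [hbdef, if_pos h]; exact ⟨rfl, h⟩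
    · right; rw [hbdef, if_neg h]
      exact ⟨rfl, by revert h; generalize z = t; revert t; decide⟩
  obtain ⟨a, δ0, ha, hδa, h40⟩ : ∃ (a : ℕ) (δ0 : OO), (a = 0 ∨ a = 1) ∧ δ = b ^ a * δ0 ∧
      em hw4 δ0 = 1 := by
    rcases hem4 with h | ⟨δ', h, h'⟩
    · exact ⟨0, δ, Or.inl rfl, by rw [pow_zero, one_mul], h⟩
    · exact ⟨1, δ', Or.inr rfl, by rw [pow_one]; exact h, h'⟩
  have hδ0d : δ0 ∣ δ := by rw [hδa]; exact Dvd.intro_left _ rfl
  have hδ0 : Squarefree δ0 := hδ.squarefree_of_dvd hδ0d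
  have hϖ : ¬ ϖ ∣ δ0 := by
    rintro ⟨t, ht⟩
    have h := h40
    rw [ht, map_mul, hϖ4] at h
    have h' : ∀ y : ZMod 4, 2 * y ≠ 1 := by decide
    exact h' _ h
  have hϖ' : ¬ ϖ' ∣ δ0 := by
    rintro h0
    obtain ⟨t, ht⟩ := h0.trans hδ0d
    have h' : ∀ y : ZMod 8, 6 * y ≠ 1 := by decide
    rcases hem8 with h | h
    · rw [ht, map_mul, hϖ8.1] at h
      exact h' _ h
    · rw [ht, mul_assoc, map_mul, hϖ8.1] at h
      exact h' _ h
  have hom : ¬ om ∣ δ0 ∧ ¬ (1 - om) ∣ δ0 := by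
    rcases hvc with ⟨-, h1, h2, -⟩ | ⟨-, h1, h2, -⟩
    · rw [h1] at hϖ; rw [h2] at hϖ'; exact ⟨hϖ, hϖ'⟩
    · rw [h1] at hϖ; rw [h2] at hϖ'; exact ⟨hϖ', hϖ⟩
  have h2δ : ∀ π : OO, Prime π → π ∣ δ0 → ¬ π ∣ 2 := by
    intro π hπ hd h2
    have e : (2 : OO) = om * (1 - om) := om_mul.symm
    rw [e] at h2
    rcases hπ.dvd_or_dvd h2 with h1 | h1
    · exact hom.1 (((hπ.dvd_prime_iff_associated prime_om).1 h1).symm.dvd.trans hd)
    · exact hom.2 (((hπ.dvd_prime_iff_associated prime_om').1 h1).symm.dvd.trans hd)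
  have hs70 : s7 ≠ 0 := prime_s7.ne_zero
  -- the part prime to `√-7`
  obtain ⟨f, δ', hf, hδf, hδ7⟩ :
      ∃ (f : ℕ) (δ' : OO), (f = 0 ∨ f = 1) ∧ δ0 = s7 ^ f * δ' ∧ ¬ s7 ∣ δ' := by
    by_cases h : s7 ∣ δ0
    · obtain ⟨δ', h'⟩ := h
      refine ⟨1, δ', Or.inr rfl, by rw [h', pow_one], ?_⟩
      rintro ⟨t, ht⟩
      apply prime_s7.not_isUnit
      apply hδ0 s7
      rw [h', ht]
      exact ⟨t, by ring⟩
    · exact ⟨0, δ0, Or.inl rfl, by rw [pow_zero, one_mul], h⟩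
  have hδd : δ' ∣ δ0 := by rw [hδf]; exact Dvd.intro_left _ rfl
  have hδ' : Squarefree δ' := hδ0.squarefree_of_dvd hδd
  set T : Finset OO := S.filter fun q => q ∣ δ' with hT
  have hTS : T ⊆ S := Finset.filter_subset _ _
  have hmem : ∀ q, q ∈ T ↔ q ∈ S ∧ q ∣ δ' := fun q => by simp [hT]
  have hTp : ∀ ρ ∈ T, Pp ρ := fun ρ hρ => hS.pp ρ (hTS hρ)
  obtain ⟨u, hu, hδe⟩ : ∃ u : OO, (u = 1 ∨ u = -1) ∧ δ' = u * ∏ q ∈ T, q := by
    have hP : ∏ q ∈ T, q ∣ δ' := by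
      apply Finset.prod_dvd_of_coprime
      · intro i hi k hk hik
        exact ((hTp i hi).prime.irreducible.coprime_iff_not_dvd).2 (AlgP.nd (hTp i hi) (hTp k hk) hik)
      · intro i hi
        exact ((hmem i).1 hi).2
    obtain ⟨δ2, h2⟩ := hP
    have hδ20 : δ2 ≠ 0 := by
      rintro rfl
      rw [mul_zero] at h2
      exact hδ'.ne_zero h2
    have hno : ∀ q ∈ S, ¬ q ∣ δ2 := by
      rintro i hi ⟨t, ht⟩
      have hiT : i ∈ T := (hmem i).2 ⟨hi, by rw [h2, ht]; exact ⟨(∏ q ∈ T, q) * t, by ring⟩⟩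
      obtain ⟨v, hv⟩ := Finset.dvd_prod_of_mem (fun q : OO => q) hiT
      apply (hS.pp i hi).prime.not_isUnit
      apply hδ' i
      rw [h2, ht, hv]
      exact ⟨v * t, by ring⟩
    have hunit : IsUnit δ2 := by
      by_contra hcon
      obtain ⟨π, hπ, hπy⟩ := WfDvdMonoid.exists_irreducible_factor hcon hδ20
      have hπp := hπ.prime
      have hπδ' : π ∣ δ' := hπy.trans (by rw [h2]; exact Dvd.intro_left _ rfl)
      have hπδ : π ∣ δ0 := hπδ'.trans hδd
      have hπm := hsup π hπp (hπδ.trans hδ0d) (h2δ π hπp hπδ)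
      rw [hmv] at hπm
      rcases hπp.dvd_or_dvd hπm with h3 | h3
      · apply hπp.not_isUnit
        rcases hvu with rfl | rfl
        · exact isUnit_of_dvd_one h3
        · exact isUnit_of_dvd_one ((dvd_neg).1 h3)
      · rcases hπp.dvd_or_dvd h3 with h4 | h4
        · exact hδ7 (((hπp.dvd_prime_iff_associated prime_s7).1 h4).symm.dvd.trans hπδ')
        · obtain ⟨q, hq, h5⟩ := (hπp.dvd_finsetProd_iff _).1 h4
          exact hno q hq
            ((((hπp.dvd_prime_iff_associated (hS.pp q hq).prime).1 h5).symm.dvd.trans hπy))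
    exact ⟨δ2, unit_cases hunit, by rw [h2]; ring⟩
  obtain ⟨e, hue⟩ : ∃ e : ZMod 2, (u = 1 ∧ e = 0) ∨ (u = -1 ∧ e = 1) := by
    rcases hu with h | h
    · exact ⟨0, Or.inl ⟨h, rfl⟩⟩
    · exact ⟨1, Or.inr ⟨h, rfl⟩⟩
  obtain ⟨ev, hve⟩ : ∃ e : ZMod 2, (v = 1 ∧ e = 0) ∨ (v = -1 ∧ e = 1) := by
    rcases hvu with h | h
    · exact ⟨0, Or.inl ⟨h, rfl⟩⟩
    · exact ⟨1, Or.inr ⟨h, rfl⟩⟩
  have huve : (u * v = 1 ∧ e + ev = 0) ∨ (u * v = -1 ∧ e + ev = 1) := by
    rcases hue with ⟨rfl, rfl⟩ | ⟨rfl, rfl⟩ <;> rcases hve with ⟨h, rfl⟩ | ⟨h, rfl⟩ <;> rw [h]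
    · left; exact ⟨by ring, by decide⟩
    · right; exact ⟨by ring, by decide⟩
    · right; exact ⟨by ring, by decide⟩
    · left; exact ⟨by ring, by decide⟩
  have hbϖ : ∀ q : OO, q ∣ b → q ∣ ϖ := by
    intro q hq
    rcases hbc with ⟨h, -⟩ | ⟨h, -⟩
    · rw [h] at hq; exact (dvd_neg).1 hq
    · rw [h] at hq; exact hq
  have hqϖ : ∀ q, Pp q → ¬ q ∣ ϖ := by
    intro q hq hd
    refine AlgP.not_two hq ?_
    rw [← hϖϖ]
    exact Dvd.dvd.mul_right hd _
  have hbq : ∀ q, Pp q → qs q b = qs q (-ϖ) + (1 + z) * tO q := by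
    intro q hq
    rcases hbc with ⟨h, h'⟩ | ⟨h, h'⟩
    · rw [h, h']
      have : (1 + 1 : ZMod 2) = 0 := by decide
      rw [this, zero_mul, add_zero]
    · rw [h, h', add_zero, one_mul]
      have h1 : qs q (-1 * -ϖ) = qs q (-1) + qs q (-ϖ) :=
        AlgP.qs_mul hq.prime (AlgP.not_two hq) (AlgP.not_unit hq (Or.inr rfl))
          (fun h => hqϖ q hq ((dvd_neg).1 h))
      rw [(hrec.2 q hq).2] at h1
      rw [show (-1 : OO) * -ϖ = ϖ by ring] at h1
      rw [h1]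
      ring
  have hsa : ∀ q, Pp q → ¬ q ∣ b ^ a ∧ qs q (b ^ a) = a * qs q b := by
    intro q hq
    rcases ha with rfl | rfl
    · refine ⟨fun h => hq.prime.not_isUnit (isUnit_of_dvd_one (by simpa using h)), ?_⟩
      rw [pow_zero, qs_one]; simp
    · rw [pow_one]
      exact ⟨fun h => hqϖ q hq (hbϖ q h), by simp⟩
  have hTdvd : ∀ q ∈ S, (q ∈ T ↔ q ∣ δ) := by
    intro q hq
    rw [hmem, hδa, hδf]
    constructor
    · exact fun h => Dvd.dvd.mul_left (Dvd.dvd.mul_left h.2 _) _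
    · intro h
      refine ⟨hq, ?_⟩
      rcases (hS.pp q hq).prime.dvd_or_dvd h with h1 | h1
      · exact absurd h1 (hsa q (hS.pp q hq)).1
      · rcases (hS.pp q hq).prime.dvd_or_dvd h1 with h1 | h1
        · exact absurd ((hS.pp q hq).prime.dvd_of_dvd_pow h1) (AlgP.not_s7 (hS.pp q hq))
        · exact h1
  have hsf : ∀ q, Pp q → ¬ q ∣ s7 ^ f ∧ qs q (s7 ^ f) = f * qs q s7 := by
    intro q hq
    rcases hf with rfl | rfl
    · refine ⟨fun h => hq.prime.not_isUnit (isUnit_of_dvd_one (by simpa using h)), ?_⟩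
      rw [pow_zero, qs_one]; simp
    · rw [pow_one]
      exact ⟨AlgP.not_s7 hq, by simp⟩
  have huv : u * v = 1 ∨ u * v = -1 := by
    rcases huve with ⟨h, -⟩ | ⟨h, -⟩
    · exact Or.inl h
    · exact Or.inr h
  have hqm : ∀ q ∈ S, q ∣ m := by
    intro q hq
    rw [hmv]
    exact Dvd.dvd.mul_left (Dvd.dvd.mul_left (Finset.dvd_prod_of_mem (fun q : OO => q) hq) _) _
  -- the conditions
  have c1 : ∀ q ∈ S, q ∉ T →
      qs q u + a * qs q b + f * qs q s7 + ∑ ρ ∈ T, qs q ρ = 0 := by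
    intro q hq hqT
    have hp := hS.pp q hq
    have h2 := AlgP.not_two hp
    rcases hloc q hp.prime (hqm q hq) with ⟨-, h1⟩ | ⟨δ1, m1, h1, -⟩
    · have n1 := AlgP.nd_prod hTp hp hqT
      have n0 := AlgP.not_unit hp hu
      have n3 : ¬ q ∣ u * ∏ ρ ∈ T, ρ := fun h => (hp.prime.dvd_or_dvd h).elim n0 n1
      have n4 : ¬ q ∣ s7 ^ f * (u * ∏ ρ ∈ T, ρ) := fun h =>
        (hp.prime.dvd_or_dvd h).elim (hsf q hp).1 n3
      rw [← qs_zero, hδa, hδf, hδe, AlgP.qs_mul hp.prime h2 (hsa q hp).1 n4,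
        AlgP.qs_mul hp.prime h2 (hsf q hp).1 n3,
        AlgP.qs_mul hp.prime h2 n0 n1, (hsa q hp).2, (hsf q hp).2, AlgP.qs_prod hp.prime h2 T
          (fun ρ hρ => AlgP.nd hp (hTp ρ hρ) (fun h => hqT (h ▸ hρ)))] at h1
      rw [← h1]
      ring
    · exact absurd ((hTdvd q hq).2 ⟨δ1, h1⟩) hqT
  have c2 : ∀ q ∈ T, qs q (u * v) + a * qs q b + (f * qs q s7 + qs q s7) +
      ∑ ρ ∈ S \ T, qs q ρ = 0 := by
    intro q hqT
    have hq := hTS hqT
    have hp := hS.pp q hq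
    have h2' := AlgP.not_two hp
    rcases hloc q hp.prime (hqm q hq) with ⟨h1, -⟩ | ⟨δ1, m1, h1, h2, h3⟩
    · exact absurd ((hTdvd q hq).1 hqT) h1
    · have hq0 := hp.prime.ne_zero
      have e1 : δ1 = b ^ a * (s7 ^ f * (u * ∏ ρ ∈ T.erase q, ρ)) := by
        apply mul_left_cancel₀ hq0
        rw [← h1, hδa, hδf, hδe, ← Finset.mul_prod_erase T (fun q => q) hqT]
        ring
      have e2 : m1 = v * (s7 * ((∏ ρ ∈ T.erase q, ρ) * ∏ ρ ∈ S \ T, ρ)) := by
        apply mul_left_cancel₀ hq0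
        rw [← h2, hmv, ← Finset.prod_sdiff hTS, ← Finset.mul_prod_erase T (fun q => q) hqT]
        ring
      have e3 : δ1 * m1 = (b ^ a * (s7 ^ f * (s7 * (u * v * ∏ ρ ∈ S \ T, ρ)))) *
          (∏ ρ ∈ T.erase q, ρ) ^ 2 := by
        rw [e1, e2]
        ring
      have hqT' : q ∉ S \ T := fun h => (Finset.mem_sdiff.1 h).2 hqT
      have hSTp : ∀ ρ ∈ S \ T, Pp ρ := fun ρ hρ => hS.pp ρ (Finset.mem_sdiff.1 hρ).1
      have n1 := AlgP.nd_prod hSTp hp hqT'
      have n2 := AlgP.not_unit hp huv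
      have n3 : ¬ q ∣ u * v * ∏ ρ ∈ S \ T, ρ := fun h => (hp.prime.dvd_or_dvd h).elim n2 n1
      have n4 : ¬ q ∣ s7 * (u * v * ∏ ρ ∈ S \ T, ρ) := fun h =>
        (hp.prime.dvd_or_dvd h).elim (AlgP.not_s7 hp) n3
      have n5 : ¬ q ∣ s7 ^ f * (s7 * (u * v * ∏ ρ ∈ S \ T, ρ)) := fun h =>
        (hp.prime.dvd_or_dvd h).elim (hsf q hp).1 n4
      have n7 : ¬ q ∣ b ^ a * (s7 ^ f * (s7 * (u * v * ∏ ρ ∈ S \ T, ρ))) := fun h =>
        (hp.prime.dvd_or_dvd h).elim (hsa q hp).1 n5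
      have n6 : ¬ q ∣ ∏ ρ ∈ T.erase q, ρ :=
        AlgP.nd_prod (fun ρ hρ => hTp ρ (Finset.mem_of_mem_erase hρ)) hp (Finset.notMem_erase q T)
      rw [← qs_zero, e3, AlgP.qs_mul_sq hp.prime h2' n7 n6,
        AlgP.qs_mul hp.prime h2' (hsa q hp).1 n5,
        AlgP.qs_mul hp.prime h2' (hsf q hp).1 n4, AlgP.qs_mul hp.prime h2' (AlgP.not_s7 hp) n3,
        AlgP.qs_mul hp.prime h2' n2 n1, (hsa q hp).2, (hsf q hp).2,
        AlgP.qs_prod hp.prime h2' (S \ T)
          (fun ρ hρ => AlgP.nd hp (hSTp ρ hρ) (fun h => hqT' (h ▸ hρ)))] at h3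
      rw [← h3]
      ring
  -- the classes modulo eight
  have hcT : ∀ R : Finset OO, R ⊆ S → em hw8 (∏ ρ ∈ R, ρ) * em hw8 (∏ ρ ∈ R, ρ) = 1 ∧
      C z' (em hw8 (∏ ρ ∈ R, ρ)) = ∑ ρ ∈ R, (qs ρ (-ϖ') + (1 + z') * s * tO ρ) := by
    intro R hR
    obtain ⟨h1, h2⟩ := C_prod hw8 z' (T := R)
      (fun ρ hρ => (sup hsupo hw8 hw8c z' (hS.pp ρ (hR hρ))).1)
    refine ⟨h1, ?_⟩
    rw [h2]
    exact Finset.sum_congr rfl fun ρ hρ => (sup hsupo hw8 hw8c z' (hS.pp ρ (hR hρ))).2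
  have hm8 : em hw8 m * em hw8 m = 1 ∧ C z' (em hw8 m) = 0 := by
    obtain ⟨t, ht⟩ := hS.one
    have h4 : ∀ t : ZMod 8, 4 * t = 0 ∨ 4 * t = 4 := by decide
    have hP : em hw8 (∏ q ∈ S, q) = 1 + em hw8 4 * em hw8 t := by
      have h1 := congrArg (em hw8) ht
      rw [map_sub, map_mul, map_one] at h1
      linear_combination h1
    rw [map_ofNat] at hP
    have hz' : ∀ t : ZMod 2, t = 0 ∨ t = 1 := by decide
    rcases hvc with ⟨h, -, h2, -, -, hz, -⟩ | ⟨h, -, h2, -, -, hz, -⟩ <;>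
      rcases hw8c with ⟨h3, rfl, -⟩ | ⟨h3, rfl, -⟩
    · have hy : em e3 (∏ q ∈ S, q) = 5 ↔ z' = 1 := by rw [hz]; exact hG.three
      have he : em hw8 (∏ q ∈ S, q) = em e3 (∏ q ∈ S, q) := rfl
      rw [he] at hP
      have hs : em hw8 s7 = 5 := by rw [em_apply]; simp only [s7]; decide
      rw [hmv, h, map_mul, map_mul, map_neg, map_one, hs, he]
      rcases h4 (em hw8 t) with h6 | h6 <;> rw [h6] at hP <;> rw [hP] at hy ⊢ <;>
        rcases hz' z' with h7 | h7 <;> rw [h7] at hy ⊢ <;> revert hy <;> decide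
    · exfalso
      rw [h2] at h3
      have := congrArg (em AlgP.h3) h3
      rw [map_sub, map_one, em_apply] at this
      simp only [om] at this
      exact absurd this (by decide)
    · exfalso
      rw [h2] at h3
      have := congrArg (em AlgP.h3) h3
      rw [map_sub, map_one, em_apply] at this
      simp only [om] at this
      exact absurd this (by decide)
    · have hy : em e6 (∏ q ∈ S, q) = 5 ↔ z' = 1 := by rw [hz]; exact hG.six
      have he : em hw8 (∏ q ∈ S, q) = em e6 (∏ q ∈ S, q) := rfl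
      rw [he] at hP
      have hs : em hw8 s7 = 3 := by rw [em_apply]; simp only [s7]; decide
      rw [hmv, h, map_mul, map_mul, map_one, hs, he]
      rcases h4 (em hw8 t) with h6 | h6 <;> rw [h6] at hP <;> rw [hP] at hy ⊢ <;>
        rcases hz' z' with h7 | h7 <;> rw [h7] at hy ⊢ <;> revert hy <;> decide
  have hU : ∀ (u : OO) (e : ZMod 2), (u = 1 ∧ e = 0) ∨ (u = -1 ∧ e = 1) →
      em hw8 u * em hw8 u = 1 ∧ C z' (em hw8 u) = (1 + z') * e := by
    intro u e h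
    have k1 : ∀ z : ZMod 2, C z 1 = (1 + z) * 0 := by decide
    have k2 : ∀ z : ZMod 2, C z (-1) = (1 + z) * 1 := by decide
    rcases h with ⟨rfl, rfl⟩ | ⟨rfl, rfl⟩
    · rw [map_one]; exact ⟨by decide, k1 z'⟩
    · rw [map_neg, map_one]; exact ⟨by decide, k2 z'⟩
  have hA : em hw8 (b ^ a) * em hw8 (b ^ a) = 1 ∧
      C z' (em hw8 (b ^ a)) = a * (1 + (1 + z') * (1 + z)) := by
    have k0 : ∀ z : ZMod 2, C z 1 = 0 := by decide
    have k1 : ∀ z : ZMod 2, C z (-3) = 1 + (1 + z) * (1 + 1) := by decide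
    have k2 : ∀ z : ZMod 2, C z 3 = 1 + (1 + z) * (1 + 0) := by decide
    rcases ha with rfl | rfl
    · rw [pow_zero, map_one, Nat.cast_zero, zero_mul]; exact ⟨by decide, k0 z'⟩
    · rw [pow_one, Nat.cast_one, one_mul]
      rcases hbc with ⟨h, h'⟩ | ⟨h, h'⟩
      · rw [h, h', map_neg, hϖ8.2.1]; exact ⟨by decide, k1 z'⟩
      · rw [h, h', hϖ8.2.1]; exact ⟨by decide, k2 z'⟩
  have hcl0 : C z' (em hw8 δ) = 0 := by
    have k0 : ∀ z : ZMod 2, C z 1 = 0 := by decide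
    rcases hem8 with h | h
    · rw [h]; exact k0 z'
    · rw [map_mul] at h
      have h1 : em hw8 δ = em hw8 m := by
        linear_combination (em hw8 m) * h - (em hw8 δ) * hm8.1
      rw [h1]; exact hm8.2
  have hfin : (a : ZMod 2) = 0 → a = 0 := by
    intro h
    rcases ha with rfl | rfl
    · rfl
    · exact absurd h (by decide)
  have h2x : ∀ x : ZMod 2, x + x = 0 := by decide
  have hTc := hcT T hTS
  have hUu := hU u e hue
  rcases hf with rfl | rfl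
  · -- `√-7` does not divide `δ`
    rw [pow_zero, one_mul] at hδf
    have had : (1 + z') * e + a * (1 + (1 + z') * (1 + z)) +
        ∑ ρ ∈ T, (qs ρ (-ϖ') + (1 + z') * s * tO ρ) = 0 := by
      rw [hδa, hδf, hδe, map_mul, map_mul, C_mul _ _ _ hA.1 (sq_mul hUu.1 hTc.1),
        C_mul _ _ _ hUu.1 hTc.1, hA.2, hUu.2, hTc.2] at hcl0
      linear_combination hcl0
    obtain ⟨g1, g2⟩ := linG' hrec hS hTS hw4 hue hvc (fun q hq => hbq q (hS.pp q hq))
      (fun q hq hqT => by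
        have := c1 q hq hqT
        rw [Nat.cast_zero, zero_mul, add_zero] at this
        exact this)
      (fun q hqT => by
        have := c2 q hqT
        rw [Nat.cast_zero, zero_mul, zero_add] at this
        exact this) (by rw [← hδe, ← hδf]; exact h40) had
    refine ⟨false, a, T, ha, hTS, g1, ?_⟩
    rw [cond_false, ← g2, hδa, hδf, hδe]
  · -- `√-7` divides `δ`
    rw [pow_one] at hδf
    have hm1 : em hw4 m = 1 := by
      rw [hmv, map_mul, map_mul]
      rcases hvc with ⟨rfl, -, -, rfl, -⟩ | ⟨rfl, -, -, rfl, -⟩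
      · have h1 : em hw4 s7 = -1 := by rw [em_apply]; simp only [s7]; decide
        have h2 : em hw4 (∏ q ∈ S, q) = 1 := AlgP.em2_prod hS.pp
        rw [h1, h2, map_neg, map_one]
        decide
      · have h1 : em hw4 s7 = 1 := by rw [em_apply]; simp only [s7]; decide
        have h2 : em hw4 (∏ q ∈ S, q) = 1 := by
          have := AlgP.em3_prod hS.pp
          rw [sum_t' hS] at this
          exact this
        rw [h1, h2, map_one]
        decide
    have huu : em hw4 u * em hw4 u = 1 := by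
      rcases hu with rfl | rfl
      · rw [map_one, one_mul]
      · rw [map_neg, map_one]; decide
    have hc : em hw4 (u * v * ∏ ρ ∈ S \ T, ρ) = 1 := by
      rw [hδf, hδe, map_mul, map_mul] at h40
      rw [hmv, ← Finset.prod_sdiff hTS, map_mul, map_mul, map_mul] at hm1
      rw [map_mul, map_mul]
      calc em hw4 u * em hw4 v * em hw4 (∏ ρ ∈ S \ T, ρ)
          = em hw4 u * em hw4 v * em hw4 (∏ ρ ∈ S \ T, ρ) *
            (em hw4 s7 * (em hw4 u * em hw4 (∏ ρ ∈ T, ρ))) := by rw [h40, mul_one]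
        _ = (em hw4 u * em hw4 u) * (em hw4 v * (em hw4 s7 * (em hw4 (∏ ρ ∈ S \ T, ρ) *
            em hw4 (∏ ρ ∈ T, ρ)))) := by ring
        _ = 1 := by rw [huu, hm1, mul_one]
    have hvv : v * v = 1 := by rcases hvu with rfl | rfl <;> ring
    have hR := hcT (S \ T) Finset.sdiff_subset
    have hVv := hU v ev hve
    have had : (1 + z') * (e + ev) + a * (1 + (1 + z') * (1 + z)) +
        ∑ ρ ∈ S \ T, (qs ρ (-ϖ') + (1 + z') * s * tO ρ) = 0 := by
      have h1 := hm8.2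
      rw [hmv, ← Finset.prod_sdiff hTS, map_mul, map_mul, map_mul,
        C_mul _ _ _ hVv.1 (sq_mul hϖ8.2.2 (sq_mul hR.1 hTc.1)),
        C_mul _ _ _ hϖ8.2.2 (sq_mul hR.1 hTc.1), C_mul _ _ _ hR.1 hTc.1, hVv.2, hR.2, hTc.2] at h1
      rw [hδa, hδf, hδe, map_mul, map_mul, map_mul,
        C_mul _ _ _ hA.1 (sq_mul hϖ8.2.2 (sq_mul hUu.1 hTc.1)),
        C_mul _ _ _ hϖ8.2.2 (sq_mul hUu.1 hTc.1),
        C_mul _ _ _ hUu.1 hTc.1, hA.2, hUu.2, hTc.2] at hcl0
      linear_combination hcl0 + h1 - h2x (C z' (em hw8 s7)) -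
        h2x (∑ ρ ∈ T, (qs ρ (-ϖ') + (1 + z') * s * tO ρ))
    obtain ⟨g1, g2⟩ := linG' hrec hS (T := S \ T) Finset.sdiff_subset hw4 huve hvc
      (fun q hq => hbq q (hS.pp q hq))
      (fun q hq hqT => by
        have hqT' : q ∈ T := by
          by_contra h
          exact hqT (Finset.mem_sdiff.2 ⟨hq, h⟩)
        have := c2 q hqT'
        rw [Nat.cast_one, one_mul, h2x, add_zero] at this
        exact this)
      (fun q hqT => by
        have h1 := Finset.mem_sdiff.1 hqT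
        have := c1 q h1.1 h1.2
        rw [Nat.cast_one, one_mul] at this
        rw [Finset.sdiff_sdiff_eq_self hTS, mul_assoc, hvv, mul_one]
        exact this) hc had
    refine ⟨true, a, S \ T, ha, Finset.sdiff_subset, g1, ?_⟩
    rw [cond_true, Finset.sdiff_sdiff_eq_self hTS, ← g2, mul_assoc u v v, hvv, mul_one, hδa, hδf,
      hδe]

/-- the kernel -/
abbrev KerX (v : OO) (x y : ZMod 2) (S : Finset OO) : Type := LinearMap.ker (NB v x y S).mulVecLin

/-- the corank of the bordered matrix of symbols -/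
noncomputable def crkX (x y : ZMod 2) (S : Finset OO) : ℕ := S.card + 1 - (NX x y S).rank

lemma card_kerX (v : OO) (x y : ZMod 2) (S : Finset OO) :
    Nat.card (KerX v x y S) = 2 ^ crkX x y S := by
  have h1 : Module.finrank (ZMod 2) (LinearMap.range (NB v x y S).mulVecLin) +
      Module.finrank (ZMod 2) (KerX v x y S) = S.card + 1 := by
    rw [(NB v x y S).mulVecLin.finrank_range_add_finrank_ker,
      Module.finrank_fintype_fun_eq_card, Fintype.card_option, Fintype.card_coe]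
  have h2 : Module.finrank (ZMod 2) (LinearMap.range (NB v x y S).mulVecLin) =
      (NX x y S).rank := by
    rw [← rank_NB v x y S]
    rfl
  have h3 : Module.finrank (ZMod 2) (KerX v x y S) = crkX x y S := by
    unfold crkX
    rw [h2] at h1
    omega
  have h4 := Module.natCard_eq_pow_finrank (K := ZMod 2) (V := KerX v x y S)
  rw [h4, h3, Nat.card_zmod]

end Pool.Agent.H848.BKD
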