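import Mathlib

/-!
# Bounded functions with values in `ℚ_2`: integral bases which stay independent modulo `2`
-/

set_option autoImplicit false

namespace Pool.Agent.H848.BKD

open Matrix

/-- linearly independent functions are separated by finitely many points -/
theorem exists_points {k X : Type*} [Field k] : ∀ {n : ℕ} (f : Fin n → X → k),
    LinearIndependent k f → ∃ x : Fin n → X, (Matrix.of fun i j => f i (x j)).det ≠ 0 := by
  intro n
  induction n with
  | zero => intro f _; exact ⟨Fin.elim0, by simp⟩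
  | succ n ih =>
    intro f hf
    obtain ⟨x, hx⟩ := ih (fun i => f i.castSucc) (hf.comp _ (Fin.castSucc_injective n))
    by_contra hcon
    push Not at hcon
    -- the expansion along the last column
    have key : ∀ y : X, ∑ i : Fin (n + 1), ((-1 : k) ^ ((i : ℕ) + n) *
        (Matrix.of fun (a b : Fin n) => f (i.succAbove a) (x b)).det) * f i y = 0 := by
      intro y
      have h1 := hcon (Fin.snoc x y)
      rw [Matrix.det_succ_column _ (Fin.last n)] at h1
      rw [← h1]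
      refine Finset.sum_congr rfl fun i _ => ?_
      have e1 : (Matrix.of fun i j => f i ((Fin.snoc x y : Fin (n + 1) → X) j)) i (Fin.last n) =
          f i y := by simp
      have e2 : ((Matrix.of fun i j => f i ((Fin.snoc x y : Fin (n + 1) → X) j)).submatrix
          i.succAbove (Fin.last n).succAbove) =
          (Matrix.of fun (a b : Fin n) => f (i.succAbove a) (x b)) := by
        ext a b
        simp
      rw [e1, e2]
      simp only [Fin.val_last]
      ring
    have h2 := (Fintype.linearIndependent_iff.1 hf) _ (by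
      funext y
      rw [Finset.sum_apply]
      have := key y
      simpa [Pi.smul_apply, smul_eq_mul] using this) (Fin.last n)
    have h3 : ((-1 : k) ^ ((Fin.last n : ℕ) + n)) ≠ 0 := pow_ne_zero _ (by simp)
    rcases mul_eq_zero.1 h2 with h4 | h4
    · exact h3 h4
    · apply hx
      have e : (Matrix.of fun (a b : Fin n) => f ((Fin.last n).succAbove a) (x b)) =
          Matrix.of fun i j => f (Fin.castSucc i) (x j) := by
        ext a b
        simp
      rw [← e]
      exact h4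

lemma norm_two2 : ‖(2 : ℚ_[2])‖ = 1 / 2 := by
  have := Padic.norm_p (p := 2)
  simpa using this

lemma le_half {z : ℚ_[2]} (h : ‖z‖ < 1) : ‖z‖ ≤ 1 / 2 := by
  by_cases hz : z = 0
  · rw [hz, norm_zero]; norm_num
  obtain ⟨n, hn⟩ : ∃ n : ℤ, ‖z‖ = ((2 : ℕ) : ℝ) ^ (-n) :=
    ⟨z.valuation, Padic.norm_eq_zpow_neg_valuation hz⟩
  rw [hn] at h ⊢
  have h2 : (0 : ℤ) < n := by
    by_contra hcon
    have : (1 : ℝ) ≤ ((2 : ℕ) : ℝ) ^ (-n) := one_le_zpow₀ (by norm_num) (by omega)
    linarith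
  calc ((2 : ℕ) : ℝ) ^ (-n) ≤ ((2 : ℕ) : ℝ) ^ (-1 : ℤ) :=
        zpow_le_zpow_right₀ (by norm_num) (by omega)
    _ = 1 / 2 := by norm_num

/-- the determinant of an integral matrix is integral -/
lemma norm_det_le {n : ℕ} (A : Matrix (Fin n) (Fin n) ℚ_[2]) (h : ∀ i j, ‖A i j‖ ≤ 1) :
    ‖A.det‖ ≤ 1 := by
  let B : Matrix (Fin n) (Fin n) ℤ_[2] := fun i j => ⟨A i j, h i j⟩
  have e : A = B.map (algebraMap ℤ_[2] ℚ_[2]) := by
    ext i j
    rfl
  rw [e, ← RingHom.mapMatrix_apply, ← RingHom.map_det]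
  exact (B.det).2

/-- **An integral family which stays independent modulo `2`.** -/
theorem exists_integral {X : Type*} {n : ℕ} (f : Fin n → X → ℚ_[2])
    (hf : LinearIndependent ℚ_[2] f) (hb : ∀ i, ∃ C : ℝ, ∀ x, ‖f i x‖ ≤ C) :
    ∃ g : Fin n → X → ℚ_[2], (∀ i, g i ∈ Submodule.span ℚ_[2] (Set.range f)) ∧
      (∀ i x, ‖g i x‖ ≤ 1) ∧
      ∀ I : Finset (Fin n), I.Nonempty → ∃ x, ¬ ‖∑ i ∈ I, g i x‖ < 1 := by
  classical
  obtain ⟨x, hx⟩ := exists_points f hf
  -- a first integral family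
  have hN : ∀ i, ∃ N : ℕ, ∀ y, ‖(2 : ℚ_[2]) ^ N * f i y‖ ≤ 1 := by
    intro i
    obtain ⟨C, hC⟩ := hb i
    obtain ⟨N, hN⟩ := exists_nat_gt C
    refine ⟨N, fun y => ?_⟩
    rw [norm_mul, norm_pow, norm_two2]
    have h1 : (N : ℝ) ≤ 2 ^ N := by exact_mod_cast (Nat.lt_two_pow_self).le
    have h2 : ‖f i y‖ ≤ 2 ^ N := (hC y).trans (hN.le.trans h1)
    have h3 : (0 : ℝ) < 2 ^ N := by positivity
    rw [one_div, inv_pow, inv_mul_le_iff₀ h3, mul_one]
    exact h2
  choose N hN using hN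
  let P : ℕ → Prop := fun k => ∃ g : Fin n → X → ℚ_[2],
    (∀ i, g i ∈ Submodule.span ℚ_[2] (Set.range f)) ∧ (∀ i x, ‖g i x‖ ≤ 1) ∧
    ‖(Matrix.of fun i j => g i (x j)).det‖ = ((2 : ℝ)⁻¹) ^ k
  have hpow : ∀ z : ℚ_[2], z ≠ 0 → ‖z‖ ≤ 1 → ∃ k : ℕ, ‖z‖ = ((2 : ℝ)⁻¹) ^ k := by
    intro z hz h1
    obtain ⟨m, hm⟩ : ∃ m : ℤ, ‖z‖ = ((2 : ℕ) : ℝ) ^ (-m) :=
      ⟨z.valuation, Padic.norm_eq_zpow_neg_valuation hz⟩
    rw [hm] at h1 ⊢
    have h2 : (0 : ℤ) ≤ m := by
      by_contra hcon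
      have : (1 : ℝ) < ((2 : ℕ) : ℝ) ^ (-m) := one_lt_zpow₀ (by norm_num) (by omega)
      linarith
    obtain ⟨k, rfl⟩ := Int.eq_ofNat_of_zero_le h2
    refine ⟨k, ?_⟩
    simp
  have hP : ∃ k, P k := by
    have hdet : (Matrix.of fun i j => ((2 : ℚ_[2]) ^ (N i) • f i) (x j)).det ≠ 0 := by
      have e : (Matrix.of fun i j => ((2 : ℚ_[2]) ^ (N i) • f i) (x j)) =
          Matrix.diagonal (fun i => (2 : ℚ_[2]) ^ (N i)) * (Matrix.of fun i j => f i (x j)) := by
        ext i j
        rw [Matrix.diagonal_mul]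
        rfl
      rw [e, Matrix.det_mul, Matrix.det_diagonal]
      exact mul_ne_zero (Finset.prod_ne_zero_iff.2 fun i _ => pow_ne_zero _ two_ne_zero) hx
    have hint : ∀ i y, ‖((2 : ℚ_[2]) ^ (N i) • f i) y‖ ≤ 1 := fun i y => hN i y
    obtain ⟨k, hk⟩ := hpow _ hdet (norm_det_le _ fun i j => hint i (x j))
    exact ⟨k, fun i => (2 : ℚ_[2]) ^ (N i) • f i,
      fun i => Submodule.smul_mem _ _ (Submodule.subset_span ⟨i, rfl⟩), hint, hk⟩
  obtain ⟨g, hg1, hg2, hg3⟩ := Nat.find_spec hP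
  refine ⟨g, hg1, hg2, fun I ⟨i₀, hi₀⟩ => ?_⟩
  by_contra hcon
  push Not at hcon
  set h : X → ℚ_[2] := fun y => (1 / 2 : ℚ_[2]) * ∑ i ∈ I, g i y with hh
  have hh1 : ∀ y, ‖h y‖ ≤ 1 := by
    intro y
    have h1 := le_half (hcon y)
    rw [hh]
    simp only [norm_mul, norm_div, norm_one, norm_two2]
    linarith
  have hsum : h = (1 / 2 : ℚ_[2]) • ∑ i ∈ I, g i := by
    funext y
    rw [Pi.smul_apply, Finset.sum_apply, smul_eq_mul]
  set g' : Fin n → X → ℚ_[2] := Function.update g i₀ h with hg'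
  have g1 : ∀ i, g' i ∈ Submodule.span ℚ_[2] (Set.range f) := by
    intro i
    by_cases hi : i = i₀
    · rw [hi, hg', Function.update_self, hsum]
      exact Submodule.smul_mem _ _ (Submodule.sum_mem _ fun j _ => hg1 j)
    · rw [hg', Function.update_of_ne hi]
      exact hg1 i
  have g2 : ∀ i y, ‖g' i y‖ ≤ 1 := by
    intro i y
    by_cases hi : i = i₀
    · rw [hi, hg', Function.update_self]
      exact hh1 y
    · rw [hg', Function.update_of_ne hi]
      exact hg2 i y
  have hdet : (Matrix.of fun i j => g' i (x j)).det =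
      (1 / 2 : ℚ_[2]) * (Matrix.of fun i j => g i (x j)).det := by
    have e : (Matrix.of fun i j => g' i (x j)) =
        (Matrix.of fun i j => g i (x j)).updateRow i₀
          (∑ k, (if k ∈ I then (1 / 2 : ℚ_[2]) else 0) • (Matrix.of fun i j => g i (x j)) k) := by
      ext i j
      by_cases hi : i = i₀
      · rw [hi, Matrix.updateRow_self]
        simp only [Matrix.of_apply, hg', Function.update_self, hh]
        rw [Finset.mul_sum, Finset.sum_apply]
        simp [Finset.sum_ite_mem]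
      · rw [Matrix.updateRow_ne hi]
        simp only [Matrix.of_apply, hg', Function.update_of_ne hi]
    rw [e, Matrix.det_updateRow_sum, if_pos hi₀, smul_eq_mul]
  have hn : ‖(Matrix.of fun i j => g' i (x j)).det‖ =
      2 * ((2 : ℝ)⁻¹) ^ (Nat.find hP) := by
    rw [hdet, norm_mul, norm_div, norm_one, norm_two2, hg3]
    norm_num
  rcases Nat.eq_zero_or_pos (Nat.find hP) with h0 | h0
  · rw [h0, pow_zero, mul_one] at hn
    have := norm_det_le (Matrix.of fun i j => g' i (x j)) fun i j => g2 i (x j)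
    rw [hn] at this
    norm_num at this
  · obtain ⟨k, hk⟩ : ∃ k, Nat.find hP = k + 1 := ⟨Nat.find hP - 1, by omega⟩
    apply Nat.find_min hP (m := k) (by omega)
    refine ⟨g', g1, g2, ?_⟩
    rw [hn, hk, pow_succ]
    ring

end Pool.Agent.H848.BKD
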