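import Pool.Graph.R_seed8.R384.X.Mq7
import Pool.Agent.H848.BKD.Lat

/-!
# Dimensions of Selmer groups of characters
-/

set_option autoImplicit false
set_option linter.unusedSectionVars false

namespace Pool.Agent.H848.BKD

open Pool.Agent.R384
open Pool.Agent.Y715.Red Pool.Agent.Y715.Nr Pool.Agent.W237.RK
open Pool.Agent.Y715.Gi (QB KK GK i₀_mem gk_fix)

/-! ### Linear algebra -/

section la

variable {k V W W' : Type*} [Field k] [AddCommGroup V] [Module k V] [FiniteDimensional k V]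
  [AddCommGroup W] [Module k W] [AddCommGroup W'] [Module k W']

lemma rank_le (F : V →ₗ[k] W) {r : ℕ}
    (h : ∀ v : Fin (r + 1) → V, ∃ a : Fin (r + 1) → k, a ≠ 0 ∧ F (∑ i, a i • v i) = 0) :
    Module.finrank k (LinearMap.range F) ≤ r := by
  by_contra hcon
  push Not at hcon
  obtain ⟨f, hf⟩ := exists_linearIndependent_of_le_finrank (R := k)
    (M := LinearMap.range F) (n := r + 1) hcon
  choose v hv using fun i => (f i).2
  obtain ⟨a, ha, h0⟩ := h v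
  apply ha
  have h1 : ∑ i, a i • f i = 0 := by
    apply Subtype.ext
    rw [map_sum] at h0
    rw [Submodule.coe_sum]
    rw [Submodule.coe_zero, ← h0]
    refine Finset.sum_congr rfl fun i _ => ?_
    rw [map_smul, hv]
    rfl
  funext i
  exact (Fintype.linearIndependent_iff.1 hf) a h1 i

lemma exists_common (F : V →ₗ[k] W) (F' : V →ₗ[k] W') {r r' : ℕ}
    (hV : Module.finrank k V = r + r' + 1)
    (h : ∀ v : Fin (r + 1) → V, ∃ a : Fin (r + 1) → k, a ≠ 0 ∧ F (∑ i, a i • v i) = 0)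
    (h' : ∀ v : Fin (r' + 1) → V, ∃ a : Fin (r' + 1) → k, a ≠ 0 ∧ F' (∑ i, a i • v i) = 0) :
    ∃ b : V, b ≠ 0 ∧ F b = 0 ∧ F' b = 0 := by
  have h1 := rank_le F h
  have h2 := rank_le F' h'
  have h3 := F.finrank_range_add_finrank_ker
  have h4 := F'.finrank_range_add_finrank_ker
  have h5 := Submodule.finrank_sup_add_finrank_inf_eq (LinearMap.ker F) (LinearMap.ker F')
  have h6 := Submodule.finrank_le (LinearMap.ker F ⊔ LinearMap.ker F')
  have h8 : 0 < Module.finrank k (LinearMap.ker F ⊓ LinearMap.ker F' : Submodule k V) := by omega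
  obtain ⟨⟨b, hb⟩, hb0⟩ := (Module.finrank_pos_iff_exists_ne_zero).1 h8
  exact ⟨b, fun h => hb0 (Subtype.ext h), hb.1, hb.2⟩

end la

/-! ### The Selmer groups as vector spaces -/

variable {i₀ : QB} (hi : i₀ ^ 2 = i₀ - 2)

/-- the coboundaries -/
def Cob (χ : GK i₀ →* ℤ_[2]ˣ) (H : Subgroup (GK i₀)) : Submodule ℚ_[2] (GK i₀ → ℚ_[2]) where
  carrier := {c | ∃ y : ℚ_[2], ∀ σ ∈ H, c σ = (vl χ σ - 1) * y}
  add_mem' := by
    rintro a b ⟨y, hy⟩ ⟨z, hz⟩
    refine ⟨y + z, fun σ hσ => ?_⟩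
    rw [Pi.add_apply, hy σ hσ, hz σ hσ]
    ring
  zero_mem' := ⟨0, fun σ _ => by rw [mul_zero]; rfl⟩
  smul_mem' := by
    rintro a b ⟨y, hy⟩
    refine ⟨a * y, fun σ hσ => ?_⟩
    rw [Pi.smul_apply, hy σ hσ, smul_eq_mul]
    ring

/-- the Selmer cocycles over the field fixed by `H` -/
def Sel (ϖ : OO) (χ : GK i₀ →* ℤ_[2]ˣ) (H : Subgroup (GK i₀)) :
    Submodule ℚ_[2] (GK i₀ → ℚ_[2]) where
  carrier := {c | CocOn χ H c ∧
    (∀ (p : ℕ) [Fact p.Prime] (ι : QB →ₐ[ℚ] PadicAlgCl p), p ≠ 2 →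
      ∃ y : ℚ_[2], ∀ σ ∈ II ι, σ ∈ H → c σ = (vl χ σ - 1) * y) ∧
    (∀ ι : QB →ₐ[ℚ] PadicAlgCl 2, ‖ι (em hi ϖ)‖ < 1 →
      ∃ y : ℚ_[2], ∀ σ ∈ DD ι, σ ∈ H → c σ = (vl χ σ - 1) * y)}
  add_mem' := by
    rintro a b ⟨⟨a1, a2⟩, a3, a4⟩ ⟨⟨b1, b2⟩, b3, b4⟩
    refine ⟨⟨a1.add b1, fun σ hσ τ hτ => ?_⟩, fun p _ ι hp => ?_, fun ι hι => ?_⟩
    · rw [Pi.add_apply, Pi.add_apply, Pi.add_apply, a2 σ hσ τ hτ, b2 σ hσ τ hτ]
      ring
    · obtain ⟨y, hy⟩ := a3 p ι hp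
      obtain ⟨z, hz⟩ := b3 p ι hp
      refine ⟨y + z, fun σ h1 h2 => ?_⟩
      rw [Pi.add_apply, hy σ h1 h2, hz σ h1 h2]
      ring
    · obtain ⟨y, hy⟩ := a4 ι hι
      obtain ⟨z, hz⟩ := b4 ι hι
      refine ⟨y + z, fun σ h1 h2 => ?_⟩
      rw [Pi.add_apply, hy σ h1 h2, hz σ h1 h2]
      ring
  zero_mem' := ⟨⟨continuousOn_const, fun σ _ τ _ => by simp⟩,
    fun p _ ι hp => ⟨0, fun σ _ _ => by rw [mul_zero]; rfl⟩,
    fun ι hι => ⟨0, fun σ _ _ => by rw [mul_zero]; rfl⟩⟩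
  smul_mem' := by
    rintro a b ⟨⟨b1, b2⟩, b3, b4⟩
    refine ⟨⟨b1.const_smul a, fun σ hσ τ hτ => ?_⟩, fun p _ ι hp => ?_, fun ι hι => ?_⟩
    · rw [Pi.smul_apply, Pi.smul_apply, Pi.smul_apply, b2 σ hσ τ hτ, smul_eq_mul, smul_eq_mul,
        smul_eq_mul]
      ring
    · obtain ⟨z, hz⟩ := b3 p ι hp
      refine ⟨a * z, fun σ h1 h2 => ?_⟩
      rw [Pi.smul_apply, hz σ h1 h2, smul_eq_mul]
      ring
    · obtain ⟨z, hz⟩ := b4 ι hι
      refine ⟨a * z, fun σ h1 h2 => ?_⟩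
      rw [Pi.smul_apply, hz σ h1 h2, smul_eq_mul]
      ring

/-- any `r + 1` classes of the Selmer group are linearly dependent -/
def DimLe (ϖ : OO) (χ : GK i₀ →* ℤ_[2]ˣ) (H : Subgroup (GK i₀)) (r : ℕ) : Prop :=
  ∀ c : Fin (r + 1) → GK i₀ → ℚ_[2], (∀ i, c i ∈ Sel hi ϖ χ H) →
    ∃ a : Fin (r + 1) → ℚ_[2], a ≠ 0 ∧ ∑ i, a i • c i ∈ Cob χ H

lemma DimLe.van {ϖ : OO} {χ : GK i₀ →* ℤ_[2]ˣ} {H : Subgroup (GK i₀)}
    (h : DimLe hi ϖ χ H 0) : VanOn hi ϖ χ H := by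
  intro c h1 h2 h3
  obtain ⟨a, ha, y, hy⟩ := h (fun _ => c) (fun _ => ⟨h1, h2, h3⟩)
  have ha0 : a 0 ≠ 0 := by
    intro h0
    apply ha
    funext i
    have hi0 : i = 0 := Fin.fin_one_eq_zero i
    rw [hi0, h0]
    rfl
  refine ⟨(a 0)⁻¹ * y, fun σ hσ => ?_⟩
  have h4 := hy σ hσ
  rw [Finset.sum_apply, Fin.sum_univ_one, Pi.smul_apply, smul_eq_mul] at h4
  field_simp
  linear_combination h4

lemma VanOn.dim {ϖ : OO} {χ : GK i₀ →* ℤ_[2]ˣ} {H : Subgroup (GK i₀)}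
    (h : VanOn hi ϖ χ H) : DimLe hi ϖ χ H 0 := by
  intro c hc
  refine ⟨fun _ => 1, fun h0 => one_ne_zero (congrFun h0 0), ?_⟩
  rw [Fin.sum_univ_one, one_smul]
  obtain ⟨h1, h2, h3⟩ := hc 0
  exact h _ h1 h2 h3

lemma DimLe.succ {ϖ : OO} {χ : GK i₀ →* ℤ_[2]ˣ} {H : Subgroup (GK i₀)} {r : ℕ}
    (h : DimLe hi ϖ χ H r) : DimLe hi ϖ χ H (r + 1) := by
  intro c hc
  obtain ⟨a, ha, hs⟩ := h (fun i => c i.castSucc) (fun i => hc _)
  refine ⟨Fin.snoc a 0, ?_, ?_⟩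
  · intro h0
    apply ha
    funext i
    have := congrFun h0 i.castSucc
    rwa [Fin.snoc_castSucc] at this
  · rw [Fin.sum_univ_castSucc]
    simp only [Fin.snoc_castSucc, Fin.snoc_last, zero_smul, add_zero]
    exact hs

lemma DimLe.mono {ϖ : OO} {χ : GK i₀ →* ℤ_[2]ˣ} {H : Subgroup (GK i₀)} {r s : ℕ}
    (h : DimLe hi ϖ χ H r) (hrs : r ≤ s) : DimLe hi ϖ χ H s := by
  induction s, hrs using Nat.le_induction with
  | base => exact h
  | succ n hn ih => exact ih.succ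

/-! ### Extensions of degree two -/

open Classical in
/-- the corestriction as a linear map -/
noncomputable def corL (χ : GK i₀ →* ℤ_[2]ˣ) (ε : GK i₀ →* ℤˣ) (t : GK i₀) :
    (GK i₀ → ℚ_[2]) →ₗ[ℚ_[2]] (GK i₀ → ℚ_[2]) where
  toFun c := cor χ ε t c
  map_add' c d := by
    funext g
    rw [Pi.add_apply]
    unfold cor
    split_ifs
    · rw [Pi.add_apply, Pi.add_apply]; ring
    · rw [Pi.add_apply, Pi.add_apply]; ring
  map_smul' a c := by
    funext g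
    rw [Pi.smul_apply, RingHom.id_apply]
    unfold cor
    split_ifs
    · rw [Pi.smul_apply, Pi.smul_apply, smul_eq_mul, smul_eq_mul, smul_eq_mul]; ring
    · rw [Pi.smul_apply, Pi.smul_apply, smul_eq_mul, smul_eq_mul, smul_eq_mul]; ring

section step

variable {ϖ : OO} {χ : GK i₀ →* ℤ_[2]ˣ} {ε : GK i₀ →* ℤˣ} {G' : Subgroup (GK i₀)} {t : GK i₀}

lemma cor_sel (hop : ∀ u : ℤˣ, IsOpen {g | ε g = u}) (ht : t ∈ G') (hε : ε t = -1)
    {χ' : GK i₀ →* ℤ_[2]ˣ} (hχ : ∀ σ, ε σ = 1 → vl χ' σ = vl χ σ)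
    {c : GK i₀ → ℚ_[2]} (hc : c ∈ Sel hi ϖ χ (kr ε G')) :
    cor χ' ε t c ∈ Sel hi ϖ χ' G' := by
  obtain ⟨hc, hodd, hstr⟩ := hc
  have hc' : ∀ σ ∈ kr ε G', ∀ τ ∈ kr ε G', c (σ * τ) = c σ + vl χ' σ * c τ := by
    intro σ hσ τ hτ
    rw [hχ σ (mem_kr.1 hσ).2]
    exact hc.mul σ hσ τ hτ
  have hem : ∀ {p : ℕ} [Fact p.Prime] (ι : QB →ₐ[ℚ] PadicAlgCl p),
      cι ι t (em hi ϖ) = ι (em hi ϖ) := by
    intro p _ ι
    rw [cι_apply, gk_em]
  refine ⟨⟨cor_cont ht hε hop hc.cont, fun σ hσ τ hτ => cor_mul ht hε hc' hσ hτ⟩, ?_, ?_⟩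
  · intro p _ ι hp
    obtain ⟨y, hy⟩ := hodd p ι hp
    obtain ⟨y', hy'⟩ := hodd p (cι ι t) hp
    exact cor_loc (I := IIs ι) ht hε hc' (fun σ h3 h4 => by
      rw [hχ σ (mem_kr.1 h4).2]
      exact hy σ h3 h4) (fun σ h3 h4 => by
      rw [hχ σ (mem_kr.1 h4).2, hy' _ (II_conj h3) (conj_kr ht hε h4), vl_conj])
  · intro ι hι
    obtain ⟨y, hy⟩ := hstr ι hι
    obtain ⟨y', hy'⟩ := hstr (cι ι t) (by rwa [hem])
    exact cor_loc (I := DDs ι) ht hε hc' (fun σ h3 h4 => by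
      rw [hχ σ (mem_kr.1 h4).2]
      exact hy σ h3 h4) (fun σ h3 h4 => by
      rw [hχ σ (mem_kr.1 h4).2, hy' _ (DD_conj h3) (conj_kr ht hε h4), vl_conj])

/-- **The step.** -/
theorem DimLe.step (hop : ∀ u : ℤˣ, IsOpen {g | ε g = u}) {r r' : ℕ}
    (h1 : DimLe hi ϖ χ G' r) (h2 : DimLe hi ϖ (χ * sgc ε) G' r') :
    DimLe hi ϖ χ (kr ε G') (r + r') := by
  by_cases hG : ∃ t ∈ G', ε t = -1
  · obtain ⟨t, ht, hε⟩ := hG
    intro c hc
    let L : (Fin (r + r' + 1) → ℚ_[2]) →ₗ[ℚ_[2]] (GK i₀ → ℚ_[2]) :=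
      Fintype.linearCombination ℚ_[2] c
    have hL : ∀ a, L a = ∑ i, a i • c i := fun a => Fintype.linearCombination_apply _ _ _
    have hLs : ∀ a, L a ∈ Sel hi ϖ χ (kr ε G') := by
      intro a
      rw [hL]
      exact Submodule.sum_mem _ fun i _ => Submodule.smul_mem _ _ (hc i)
    let F := (Cob χ G').mkQ ∘ₗ corL χ ε t ∘ₗ L
    let F' := (Cob (χ * sgc ε) G').mkQ ∘ₗ corL (χ * sgc ε) ε t ∘ₗ L
    obtain ⟨b, hb, e1, e2⟩ := exists_common F F' (r := r) (r' := r') (by simp) (fun v => by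
      obtain ⟨a, ha, h3⟩ := h1 (fun i => cor χ ε t (L (v i))) (fun i =>
        cor_sel hi hop ht hε (fun _ _ => rfl) (hLs _))
      refine ⟨a, ha, ?_⟩
      have e : F (∑ i, a i • v i) = (Cob χ G').mkQ (∑ i, a i • cor χ ε t (L (v i))) := by
        rw [map_sum, map_sum]
        refine Finset.sum_congr rfl fun i _ => ?_
        rw [map_smul, map_smul]
        rfl
      rw [e, Submodule.mkQ_apply, Submodule.Quotient.mk_eq_zero]
      exact h3) (fun v => by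
      obtain ⟨a, ha, h3⟩ := h2 (fun i => cor (χ * sgc ε) ε t (L (v i))) (fun i =>
        cor_sel hi hop ht hε (fun _ hσ => vl_sgc_pos hσ) (hLs _))
      refine ⟨a, ha, ?_⟩
      have e : F' (∑ i, a i • v i) = (Cob (χ * sgc ε) G').mkQ
          (∑ i, a i • cor (χ * sgc ε) ε t (L (v i))) := by
        rw [map_sum, map_sum]
        refine Finset.sum_congr rfl fun i _ => ?_
        rw [map_smul, map_smul]
        rfl
      rw [e, Submodule.mkQ_apply, Submodule.Quotient.mk_eq_zero]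
      exact h3)
    refine ⟨b, hb, ?_⟩
    rw [← hL]
    have k1 : cor χ ε t (L b) ∈ Cob χ G' := (Submodule.Quotient.mk_eq_zero _).1 e1
    have k2 : cor (χ * sgc ε) ε t (L b) ∈ Cob (χ * sgc ε) G' :=
      (Submodule.Quotient.mk_eq_zero _).1 e2
    obtain ⟨y₁, hy₁⟩ := k1
    obtain ⟨y₂, hy₂⟩ := k2
    refine ⟨(y₁ + y₂) / 2, fun σ hσ => ?_⟩
    obtain ⟨g1, g2⟩ := mem_kr.1 hσ
    have e1 := hy₁ σ g1
    have e2 := hy₂ σ g1
    unfold cor at e1 e2
    rw [if_pos g2] at e1 e2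
    rw [vl_sgc_neg hε, vl_sgc_pos g2] at e2
    have h2 : (2 : ℚ_[2]) ≠ 0 := two_ne_zero
    field_simp
    linear_combination e1 + e2
  · push Not at hG
    have e : kr ε G' = G' := by
      ext σ
      constructor
      · exact fun h => (mem_kr.1 h).1
      · intro h
        refine mem_kr.2 ⟨h, ?_⟩
        rcases Int.units_eq_one_or (ε σ) with h3 | h3
        · exact h3
        · exact absurd h3 (hG σ h)
    rw [e]
    exact h1.mono hi (by omega)

end step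

/-! ### Multiquadratic fields -/

section mq

variable {n : ℕ} {s : Fin n → QB} (hs0 : ∀ i, s i ≠ 0)
  (hs : ∀ (i) (σ : GK i₀), σ (s i) = s i ∨ σ (s i) = -s i)

open scoped Classical in
include hs0 hs in
theorem dim_all (ϖ : OO) : ∀ (A : Finset (Fin n)) (χ : GK i₀ →* ℤ_[2]ˣ)
    (r : Finset (Fin n) → ℕ),
    (∀ T ⊆ A, DimLe hi ϖ (χ * ∏ i ∈ T, sgc (es (hs0 i) (hs i))) ⊤ (r T)) →
      DimLe hi ϖ χ (fixs s A) (∑ T ∈ A.powerset, r T) := by
  intro A
  induction A using Finset.induction_on with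
  | empty =>
    intro χ r h
    have h1 := h ∅ (Finset.Subset.refl _)
    rw [Finset.prod_empty, mul_one] at h1
    have e : (fixs s ∅ : Subgroup (GK i₀)) = ⊤ := by
      ext σ
      exact ⟨fun _ => trivial, fun _ i hi' => absurd hi' (Finset.notMem_empty i)⟩
    rw [Finset.powerset_empty, Finset.sum_singleton]
    rwa [e]
  | insert i A hiA ih =>
    intro χ r h
    have e : (fixs s (insert i A) : Subgroup (GK i₀)) = kr (es (hs0 i) (hs i)) (fixs s A) := by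
      ext σ
      constructor
      · intro h1
        exact mem_kr.2 ⟨fun j hj => h1 j (Finset.mem_insert_of_mem hj),
          (es_one (hs0 i) (hs i)).2 (h1 i (Finset.mem_insert_self _ _))⟩
      · intro h1 j hj
        obtain ⟨h2, h3⟩ := mem_kr.1 h1
        rcases Finset.mem_insert.1 hj with rfl | hj
        · exact (es_one (hs0 j) (hs j)).1 h3
        · exact h2 j hj
    rw [e, Finset.sum_powerset_insert hiA]
    refine DimLe.step hi (es_open (hs0 i) (hs i)) (ih χ r fun T hT =>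
      h T (hT.trans (Finset.subset_insert _ _))) (ih _ (fun T => r (insert i T)) fun T hT => ?_)
    have h1 := h (insert i T) (Finset.insert_subset_insert _ hT)
    rw [Finset.prod_insert (fun h => hiA (hT h)), ← mul_assoc] at h1
    exact h1

end mq

/-! ### Counting -/

lemma md_add {c d : GK i₀ → ℚ_[2]} (hc : ∀ σ, ‖c σ‖ ≤ 1) (hd : ∀ σ, ‖d σ‖ ≤ 1)
    (h : md c = md d) (σ : GK i₀) : ‖c σ - d σ‖ < 1 := by
  have h1 := congrFun h σ
  by_cases h2 : md c σ = 0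
  · have h3 : md d σ = 0 := by rw [← h1]; exact h2
    rw [sub_eq_add_neg]
    exact add_lt' (md_zero.1 h2) (by rw [norm_neg]; exact md_zero.1 h3)
  · have h3 : ¬ md d σ = 0 := by rw [← h1]; exact h2
    have k2 := (md_eq (hc σ)).1 (fun h => h2 (md_zero.2 h))
    have k3 := (md_eq (hd σ)).1 (fun h => h3 (md_zero.2 h))
    have e : c σ - d σ = (c σ - 1) + -(d σ - 1) := by ring
    rw [e]
    exact add_lt' k2 (by rwa [norm_neg])

/-- **The dimension and the number of the classes modulo two.** -/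
theorem dim_of_class {ϖ : OO} {χ : GK i₀ →* ℤ_[2]ˣ} (hχ : Continuous χ)
    (hne : ∃ σ₀ : GK i₀, vl χ σ₀ ≠ 1) {K : Type*} [Fintype K] {r : ℕ}
    (hK : Fintype.card K ≤ 2 ^ (r + 1)) (R : (GK i₀ → ℚ_[2]) → K → Prop)
    (hex : ∀ c ∈ Sel hi ϖ χ ⊤, (∀ σ, ‖c σ‖ ≤ 1) → ∃ k, R c k)
    (huniq : ∀ c c' k, R c k → R c' k → md c = md c') : DimLe hi ϖ χ ⊤ r := by
  classical
  intro c hc
  by_contra hcon
  push Not at hcon
  set b : GK i₀ → ℚ_[2] := fun σ => vl χ σ - 1 with hb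
  have hbS : b ∈ Sel hi ϖ χ ⊤ := by
    refine ⟨⟨?_, fun σ _ τ _ => ?_⟩, fun p _ ι hp => ⟨1, fun σ _ _ => ?_⟩,
      fun ι hι => ⟨1, fun σ _ _ => ?_⟩⟩
    · have := cont_vl hχ
      exact (by fun_prop : Continuous b).continuousOn
    · simp only [hb, vl_mul]
      ring
    · rw [mul_one]
    · rw [mul_one]
  -- the family with the coboundary
  set f : Fin (r + 2) → GK i₀ → ℚ_[2] := Fin.snoc c b with hf
  have hlin : LinearIndependent ℚ_[2] f := by
    rw [Fintype.linearIndependent_iff]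
    intro a ha
    rw [Fin.sum_univ_castSucc] at ha
    simp only [hf, Fin.snoc_castSucc, Fin.snoc_last] at ha
    have h1 : (fun i : Fin (r + 1) => a i.castSucc) = 0 := by
      by_contra h0
      apply hcon _ h0
      refine ⟨-a (Fin.last _), fun σ _ => ?_⟩
      have h2 := congrFun ha σ
      rw [Pi.add_apply, Pi.smul_apply, smul_eq_mul, Pi.zero_apply] at h2
      simp only [hb] at h2
      linear_combination h2
    have h3 : a (Fin.last (r + 1)) = 0 := by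
      have h4 : ∑ i : Fin (r + 1), a i.castSucc • c i = 0 := by
        refine Finset.sum_eq_zero fun i _ => ?_
        have := congrFun h1 i
        simp only [Pi.zero_apply] at this
        rw [this, zero_smul]
      rw [h4, zero_add] at ha
      obtain ⟨σ₀, hσ₀⟩ := hne
      have h5 := congrFun ha σ₀
      rw [Pi.smul_apply, smul_eq_mul, Pi.zero_apply] at h5
      rcases mul_eq_zero.1 h5 with h6 | h6
      · exact h6
      · exact absurd (sub_eq_zero.1 h6) hσ₀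
    intro i
    refine Fin.lastCases h3 (fun i => ?_) i
    exact congrFun h1 i
  have hfS : ∀ i, f i ∈ Sel hi ϖ χ ⊤ := by
    intro i
    refine Fin.lastCases ?_ (fun i => ?_) i
    · rw [hf, Fin.snoc_last]; exact hbS
    · rw [hf, Fin.snoc_castSucc]; exact hc i
  have hbd : ∀ i, ∃ C : ℝ, ∀ x, ‖f i x‖ ≤ C := by
    intro i
    have h1 : Continuous (f i) := by
      have := (hfS i).1.cont
      rwa [Subgroup.coe_top, continuousOn_univ] at this
    obtain ⟨C, hC⟩ := (isCompact_range h1).isBounded.exists_norm_le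
    exact ⟨C, fun x => hC _ (Set.mem_range_self x)⟩
  obtain ⟨g, hg1, hg2, hg3⟩ := exists_integral f hlin hbd
  have hgS : ∀ i, g i ∈ Sel hi ϖ χ ⊤ := by
    intro i
    have h1 : Submodule.span ℚ_[2] (Set.range f) ≤ Sel hi ϖ χ ⊤ := by
      rw [Submodule.span_le]
      rintro _ ⟨j, rfl⟩
      exact hfS j
    exact h1 (hg1 i)
  -- the sums
  let S : Finset (Fin (r + 2)) → GK i₀ → ℚ_[2] := fun I => ∑ i ∈ I, g i
  have hS1 : ∀ I, S I ∈ Sel hi ϖ χ ⊤ := fun I => Submodule.sum_mem _ fun i _ => hgS i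
  have hint : ∀ (I : Finset (Fin (r + 2))) (σ : GK i₀), ‖∑ i ∈ I, g i σ‖ ≤ 1 := by
    intro I σ
    induction I using Finset.induction_on with
    | empty => rw [Finset.sum_empty, norm_zero]; norm_num
    | insert i I hiI ih =>
      rw [Finset.sum_insert hiI]
      exact add_le' (hg2 i σ) ih
  have hS2 : ∀ I σ, ‖S I σ‖ ≤ 1 := by
    intro I σ
    simp only [S, Finset.sum_apply]
    exact hint I σ
  choose k hk using fun I => hex (S I) (hS1 I) (hS2 I)
  have hinj : Function.Injective k := by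
    intro I J hIJ
    have h1 := huniq _ _ _ (hk I) (hIJ ▸ hk J)
    by_contra hne'
    have h2 : (symmDiff I J).Nonempty := by
      rw [Finset.nonempty_iff_ne_empty]
      intro h0
      exact hne' (symmDiff_eq_bot.1 h0)
    obtain ⟨x, hx⟩ := hg3 _ h2
    apply hx
    have h3 := md_add (hS2 I) (hS2 J) h1 x
    have e : ∑ i ∈ symmDiff I J, g i x = (S I x - S J x) + 2 * ∑ i ∈ J \ I, g i x := by
      have e1 : ∑ i ∈ symmDiff I J, g i x = ∑ i ∈ I \ J, g i x + ∑ i ∈ J \ I, g i x := by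
        rw [symmDiff_def, Finset.sup_eq_union, Finset.sum_union]
        exact disjoint_sdiff_sdiff
      have e2 : S I x = ∑ i ∈ I \ J, g i x + ∑ i ∈ I ∩ J, g i x := by
        simp only [S, Finset.sum_apply]
        rw [← Finset.sum_inter_add_sum_sdiff I J (fun i => g i x)]
        ring
      have e3 : S J x = ∑ i ∈ J \ I, g i x + ∑ i ∈ I ∩ J, g i x := by
        simp only [S, Finset.sum_apply]
        rw [← Finset.sum_inter_add_sum_sdiff J I (fun i => g i x), Finset.inter_comm]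
        ring
      rw [e1, e2, e3]
      ring
    rw [e]
    refine add_lt' h3 ?_
    rw [norm_mul, norm_two']
    have := hint (J \ I) x
    linarith
  have hcard := Fintype.card_le_of_injective k hinj
  rw [Fintype.card_finset, Fintype.card_fin] at hcard
  have h2 : 2 ^ (r + 2) ≤ 2 ^ (r + 1) := hcard.trans hK
  rw [Nat.pow_le_pow_iff_right (by norm_num)] at h2
  omega

end Pool.Agent.H848.BKD
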