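import Pool.Graph.R_pool_sql_team_seeded_3dad9d7b.NH57.BK.Main
import Pool.Agent.H848.BKD.Dim
import Pool.Agent.H848.BKD.AlgD

/-!
# The dimensions of the Selmer groups over `K`
-/

set_option autoImplicit false
set_option linter.unusedSectionVars false
set_option linter.unusedVariables false

namespace Pool.Agent.H848.BKD

open Pool.Agent.R384
open Pool.Agent.NH57.BK
open Pool.Agent.NH57.BK.Mn
open Pool.Agent.Y676.IS (Cu)
open Pool.Agent.Y715.Red Pool.Agent.Y715.Nr Pool.Agent.W237.RK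
open Pool.Agent.Y715.Gi (QB KK GK)
open Pool.Agent.Y715.Df (Cmp)

open scoped Classical

variable {i₀ : QB} (hi : i₀ ^ 2 = i₀ - 2) {χ : GK i₀ →* ℤ_[2]ˣ} {m : OO} {r : QB}

/-- the local conditions at all prime divisors of `m` -/
lemma loc_all' (cd : ChiD hi χ m r) {S : Finset OO} (hS : PS S) {v : OO} (hv : v = 1 ∨ v = -1)
    (hm : m = v * (s7 * ∏ q ∈ S, q)) {c : GK i₀ → ℚ_[2]} (hc : Coc χ c) (hc1 : ∀ σ, ‖c σ‖ ≤ 1)
    (hodd : ∀ (p : ℕ) [Fact p.Prime] (ι : QB →ₐ[ℚ] PadicAlgCl p), p ≠ 2 → CobOn χ (II ι) c)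
    {δ : OO} (hδ : Squarefree δ) {s : QB}
    (hs : s ^ 2 = em hi δ) (hk : ∀ σ : GK i₀, σ s = s ↔ md c σ = 0) (q : OO) (hq : Prime q)
    (hqm : q ∣ m) :
    (¬ q ∣ δ ∧ Sqm q δ) ∨ ∃ δ1 m1, δ = q * δ1 ∧ m = q * m1 ∧ Sqm q (δ1 * m1) := by
  have hv' : ∀ {π : OO}, Prime π → ¬ π ∣ v := by
    intro π hπ h
    rcases hv with h1 | h1
    · rw [h1] at h
      exact hπ.not_isUnit (isUnit_of_dvd_one h)
    · rw [h1, dvd_neg] at h
      exact hπ.not_isUnit (isUnit_of_dvd_one h)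
  have hloc7 : (¬ s7 ∣ δ ∧ Sqm s7 δ) ∨
      ∃ δ1 m1, δ = s7 * δ1 ∧ m = s7 * m1 ∧ Sqm s7 (δ1 * m1) := by
    obtain ⟨l, hl, κ, hκ⟩ := exists_emb hi prime_s7
    rw [ι_em] at hκ
    have hl7 := p_seven (iw hi κ) hκ
    have hl2 : l ≠ 2 := by rw [hl7]; norm_num
    refine loc_7 hi cd hc hc1 (m1 := v * ∏ q ∈ S, q) (by rw [hm]; ring) (fun h => ?_) hκ
      (hodd l κ hl2) hδ hs hk
    rcases prime_s7.dvd_or_dvd h with h1 | h1
    · exact hv' prime_s7 h1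
    · obtain ⟨j, hj, h2⟩ := (prime_s7.dvd_finsetProd_iff _).1 h1
      exact (hS.pp j hj).sev h2
  rw [hm] at hqm
  rcases hq.dvd_or_dvd hqm with h1 | h1
  · exact absurd h1 (hv' hq)
  by_cases h7 : q ∣ s7
  · rcases assoc_of_dvd hq prime_s7 h7 with h3 | h3
    · rw [← h3]
      exact hloc7
    · have hq' : q = -s7 := by rw [h3, neg_neg]
      rw [hq']
      rcases hloc7 with ⟨h4, h5⟩ | ⟨δ1, m1, h4, h5, h6⟩
      · exact Or.inl ⟨fun h => h4 (neg_dvd.1 h), sqm_neg h5⟩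
      · refine Or.inr ⟨-δ1, -m1, by rw [h4]; ring, by rw [h5]; ring, ?_⟩
        rw [neg_mul_neg]
        exact sqm_neg h6
  · rcases hq.dvd_or_dvd h1 with h3 | h3
    · exact absurd h3 h7
    obtain ⟨ρ, hρ, h4⟩ := (hq.dvd_finsetProd_iff _).1 h3
    have hρp := hS.pp ρ hρ
    have hqt : ¬ q ∣ 2 := by
      intro h
      rcases assoc_of_dvd hq hρp.prime h4 with h5 | h5
      · exact pp_two hρp (h5 ▸ h)
      · exact pp_two hρp (h5 ▸ neg_dvd.2 h)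
    obtain ⟨u, hu⟩ := h4
    have huu : IsUnit u := by
      rcases hρp.prime.irreducible.isUnit_or_isUnit hu with h5 | h5
      · exact absurd h5 hq.not_isUnit
      · exact h5
    have hqρ : ρ = q ∨ ρ = -q := assoc_of_dvd hq hρp.prime ⟨u, hu⟩
    have hρq : ρ ∣ q := by
      rcases hqρ with h5 | h5
      · rw [h5]
      · rw [h5]
        exact neg_dvd.2 dvd_rfl
    have e1 := Finset.mul_prod_erase S (fun q => q) hρ
    have hm1 : m = q * (v * (s7 * (u * ∏ x ∈ S.erase ρ, x))) := by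
      rw [hm, ← e1]
      rw [show (v * (s7 * (ρ * ∏ x ∈ S.erase ρ, x)) : OO) =
        ρ * (v * (s7 * ∏ x ∈ S.erase ρ, x)) by ring]
      rw [hu]
      ring
    have hm2 : ¬ q ∣ v * (s7 * (u * ∏ x ∈ S.erase ρ, x)) := by
      intro h
      rcases hq.dvd_or_dvd h with h5 | h5
      · exact hv' hq h5
      rcases hq.dvd_or_dvd h5 with h6 | h6
      · exact h7 h6
      rcases hq.dvd_or_dvd h6 with h8 | h8
      · exact hq.not_isUnit (isUnit_of_dvd_unit h8 huu)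
      obtain ⟨ρ', hρ', h9⟩ := (hq.dvd_finsetProd_iff _).1 h8
      have h10 : ρ' = ρ := pp_eq hρp (hS.pp ρ' (Finset.mem_of_mem_erase hρ')) (hρq.trans h9)
      exact (Finset.ne_of_mem_erase hρ') h10
    obtain ⟨l, hl, κ, hκ⟩ := exists_emb hi hq
    rw [ι_em] at hκ
    have hl2 : l ≠ 2 := fun h => hqt ((two_of_dvd hq (iw hi κ) hκ).1 h)
    exact loc_q' hi cd hc hc1 hq hqt h7 hm1 hm2 hκ (hodd l κ hl2) hδ hs hk

/-- an element that moves `r` -/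
lemma exists_mv (cd : ChiD hi χ m r) {S : Finset OO} (hS : PS S) {v : OO} (hv : v = 1 ∨ v = -1)
    (hm : m = v * (s7 * ∏ q ∈ S, q)) : ∃ σ₀ : GK i₀, σ₀ r = -r := by
  have hv' : ∀ {π : OO}, Prime π → ¬ π ∣ v := by
    intro π hπ h
    rcases hv with h1 | h1
    · rw [h1] at h
      exact hπ.not_isUnit (isUnit_of_dvd_one h)
    · rw [h1, dvd_neg] at h
      exact hπ.not_isUnit (isUnit_of_dvd_one h)
  obtain ⟨l, hl, κ, hκ⟩ := exists_emb hi prime_s7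
  rw [ι_em] at hκ
  have hns : ¬ s7 ∣ v * ∏ q ∈ S, q := by
    intro h
    rcases prime_s7.dvd_or_dvd h with h1 | h1
    · exact hv' prime_s7 h1
    · obtain ⟨j, hj, h2⟩ := (prime_s7.dvd_finsetProd_iff _).1 h1
      exact (hS.pp j hj).sev h2
  obtain ⟨σ₀, -, h⟩ := exists_ram hi cd prime_s7 (m1 := v * ∏ q ∈ S, q) (by rw [hm]; ring)
    hns hκ
  exact ⟨σ₀, h⟩

/-- the local conditions for the elements that belong to the Selmer classes modulo two -/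
theorem core_lc (hSTR : S_STR) (hFRE : S_FRE) {S : Finset OO}
    (hS : PS S) {v ϖ ϖ' : OO} (c8 : C8 hi χ m r ϖ') {w4 : ZMod 4} (hw4 : w4 ^ 2 = w4 - 2)
    (hm : m = v * (s7 * ∏ q ∈ S, q))
    (hcase : (v = -1 ∧ ϖ = om ∧ ϖ' = 1 - om ∧ w4 = 2) ∨
      (v = 1 ∧ ϖ = 1 - om ∧ ϖ' = om ∧ w4 = 3))
    (hm5 : ∀ ι : QB →ₐ[ℚ] PadicAlgCl 2, ‖em (iw hi ι) ϖ‖ < 1 → M15 (em (iw hi ι) m))
    (hm6 : ∀ ι : QB →ₐ[ℚ] PadicAlgCl 2, ‖em (iw hi ι) ϖ'‖ < 1 → M15 (em (iw hi ι) (-m)))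
    {c : GK i₀ → ℚ_[2]} (hcc : Coc χ c) (hint : ∀ σ, ‖c σ‖ ≤ 1)
    (hodd : ∀ (p : ℕ) [Fact p.Prime] (ι : QB →ₐ[ℚ] PadicAlgCl p), p ≠ 2 → CobOn χ (II ι) c)
    (hstr : ∀ ι : QB →ₐ[ℚ] PadicAlgCl 2, ‖ι (em hi ϖ)‖ < 1 → CobOn χ (DD ι) c) :
    ∃ δ : OO, LC m ϖ ϖ' hw4 δ ∧
      ∀ s : QB, s ^ 2 = em hi δ → ∀ σ : GK i₀, σ s = s ↔ md c σ = 0 := by
  have cd := c8.cd
  have hPl : Pl ϖ ϖ' := by
    rcases hcase with ⟨-, h1, h2, -⟩ | ⟨-, h1, h2, -⟩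
    · exact Or.inl ⟨h1, h2⟩
    · exact Or.inr ⟨h1, h2⟩
  have hϖp : Prime ϖ := by
    rcases hPl with ⟨rfl, -⟩ | ⟨rfl, -⟩
    · exact prime_om
    · exact prime_om'
  have hϖp' : Prime ϖ' := by
    rcases hPl with ⟨-, rfl⟩ | ⟨-, rfl⟩
    · exact prime_om'
    · exact prime_om
  have hϖ2 : ϖ * ϖ' = 2 := by
    rcases hPl with ⟨rfl, rfl⟩ | ⟨rfl, rfl⟩
    · exact om_mul
    · rw [mul_comm]; exact om_mul
  have hv : v = 1 ∨ v = -1 := by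
    rcases hcase with ⟨h1, -, -, -⟩ | ⟨h1, -, -, -⟩
    · exact Or.inr h1
    · exact Or.inl h1
  -- the strict place
  obtain ⟨p, hpf, ι, hι⟩ := exists_emb hi hϖp
  have hp2 : p = 2 := by
    rw [ι_em] at hι
    exact (two_of_dvd hϖp (iw hi ι) hι).2 ⟨_, hϖ2.symm⟩
  subst hp2
  have hι' : ‖em (iw hi ι) ϖ‖ < 1 := by rwa [ι_em] at hι
  -- the free place
  obtain ⟨p, hpf', ι₁, hι₁⟩ := exists_emb hi hϖp'
  have hp2 : p = 2 := by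
    rw [ι_em] at hι₁
    exact (two_of_dvd hϖp' (iw hi ι₁) hι₁).2 ⟨_, by rw [mul_comm]; exact hϖ2.symm⟩
  subst hp2
  have hι₁' : ‖em (iw hi ι₁) ϖ'‖ < 1 := by rwa [ι_em] at hι₁
  have hstr' : CobOn χ (DD ι) c := hstr ι hι
  -- Kummer theory
  obtain ⟨δ, hδ, hkum⟩ := kum hi (md c) (md_cont hcc) (md_mul hcc hint)
  obtain ⟨s, hs⟩ : ∃ s : QB, s ^ 2 = em hi δ := IsAlgClosed.exists_pow_nat_eq _ (by norm_num)
  have hk : ∀ σ : GK i₀, σ s = s ↔ md c σ = 0 := hkum s hs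
  obtain ⟨hst1, hst2⟩ := hSTR hi hPl c8 ι hι' (hm5 ι hι') c hint hstr' δ s hδ hs hk
  have hfr : ¬ ϖ' ∣ δ := hFRE hi hPl c8 ι₁ hι₁' (hm6 ι₁ hι₁') c hcc hint δ s hδ hs hk
  -- the prime divisors of `δ`
  have hsup : ∀ π : OO, Prime π → π ∣ δ → ¬ π ∣ 2 → π ∣ m := by
    intro π hπ hπδ hπ2
    by_contra hπm
    obtain ⟨l, hl, κ, hκ⟩ := exists_emb hi hπ
    rw [ι_em] at hκ
    have hl2 : l ≠ 2 := fun h => hπ2 ((two_of_dvd hπ (iw hi κ) hκ).1 h)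
    have h1 := unram hi cd hl2 (hodd l κ hl2) ((dvd_iff (iw hi κ) hπ hκ m).not.1 hπm)
    refine not_dvd_of_fix (iw hi κ) hπ hκ hδ (s := κ s) ?_ ?_ hπδ
    · rw [← map_pow, hs, ι_em]
    · intro τ hin hτ
      exact fix_I (fun σ hσ => (hk σ).2 (h1 σ hσ)) τ hin hτ
  -- the prime divisors of `m`
  have hloc := loc_all' hi cd hS hv hm hcc hint hodd hδ hs hk
  -- modulo four
  have h4a : (ϖ = om ∧ w4 = 2) ∨ (ϖ = 1 - om ∧ w4 = 3) := by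
    rcases hcase with ⟨-, h1, -, h2⟩ | ⟨-, h1, -, h2⟩
    · exact Or.inl ⟨h1, h2⟩
    · exact Or.inr ⟨h1, h2⟩
  have hδ4 : em hw4 δ = 1 := em_four_one (iw hi ι) hw4 h4a hι' hst2
  exact ⟨δ, ⟨hδ, hst1, hfr, hδ4, hsup, hloc⟩, hkum⟩

/-- the element which belongs to a class -/
noncomputable def dl (v : OO) (S : Finset OO) (f : Bool) (T : Finset OO) : OO :=
  bif f then s7 * (uu v T * v * ∏ q ∈ S \ T, q) else uu v T * ∏ q ∈ T, q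

/-- **The dimension over `K`.** -/
theorem core_dim (hSTR : S_STR) (hFRE : S_FRE) (hREC : S_REC) {S : Finset OO}
    (hS : PS S) {v ϖ ϖ' : OO} (c8 : C8 hi χ m r ϖ') {w4 : ZMod 4} (hw4 : w4 ^ 2 = w4 - 2)
    (hm : m = v * (s7 * ∏ q ∈ S, q))
    (hcase : (v = -1 ∧ ϖ = om ∧ ϖ' = 1 - om ∧ w4 = 2) ∨
      (v = 1 ∧ ϖ = 1 - om ∧ ϖ' = om ∧ w4 = 3))
    (hm5 : ∀ ι : QB →ₐ[ℚ] PadicAlgCl 2, ‖em (iw hi ι) ϖ‖ < 1 → M15 (em (iw hi ι) m))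
    (hm6 : ∀ ι : QB →ₐ[ℚ] PadicAlgCl 2, ‖em (iw hi ι) ϖ'‖ < 1 → M15 (em (iw hi ι) (-m))) :
    DimLe hi ϖ χ ⊤ (crk S) := by
  have cd := c8.cd
  have hv : v = 1 ∨ v = -1 := by
    rcases hcase with ⟨h1, -, -, -⟩ | ⟨h1, -, -, -⟩
    · exact Or.inr h1
    · exact Or.inl h1
  have hfin : Fintype (Ker v S) := Fintype.ofFinite _
  refine dim_of_class hi (K := Bool × Ker v S) cd.cont ?_ ?_
    (fun c k => ∃ T ⊆ S, ix S T = k.2.1 ∧ ∀ s : QB, s ^ 2 = em hi (dl v S k.1 T) →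
      ∀ σ : GK i₀, σ s = s ↔ md c σ = 0) ?_ ?_
  · obtain ⟨σ₀, hσ₀⟩ := exists_mv hi cd hS hv hm
    refine ⟨σ₀, fun h => ?_⟩
    have h1 := cd.big hi hσ₀
    rw [h, sub_self, norm_zero] at h1
    norm_num at h1
  · rw [Fintype.card_prod, Fintype.card_bool, ← Nat.card_eq_fintype_card, card_ker, pow_succ]
    omega
  · rintro c ⟨h1, h2, h3⟩ hint
    have hcc : Coc χ c := ⟨by
      have := h1.cont
      rwa [Subgroup.coe_top, continuousOn_univ] at this, fun σ τ => h1.mul σ trivial τ trivial⟩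
    obtain ⟨δ, hLC, hkum⟩ := core_lc hi hSTR hFRE hS c8 hw4 hm hcase hm5 hm6 hcc hint
      (fun p _ ι hp => by
        obtain ⟨y, hy⟩ := h2 p ι hp
        exact ⟨y, fun σ hσ => hy σ hσ trivial⟩)
      (fun ι hι => by
        obtain ⟨y, hy⟩ := h3 ι hι
        exact ⟨y, fun σ hσ => hy σ hσ trivial⟩)
    obtain ⟨f, T, hT, hk, he⟩ := algD hREC hS hw4 hm hcase hLC
    refine ⟨⟨f, ⟨ix S T, hk⟩⟩, T, hT, rfl, fun s hs => hkum s ?_⟩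
    rw [he]
    exact hs
  · rintro c c' ⟨f, x⟩ ⟨T, hT, h1, h2⟩ ⟨T', hT', h1', h2'⟩
    have hTT : T = T' := ix_inj hT hT' (h1.trans h1'.symm)
    subst hTT
    obtain ⟨s, hs⟩ : ∃ s : QB, s ^ 2 = em hi (dl v S f T) :=
      IsAlgClosed.exists_pow_nat_eq _ (by norm_num)
    funext σ
    have h3 := (h2 s hs σ).symm.trans (h2' s hs σ)
    have h01 : ∀ a b : ZMod 2, (a = 0 ↔ b = 0) → a = b := by decide
    exact h01 _ _ h3

/-- **The dimensions over `K`** for the curve -/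
theorem dimK (hC8 : S_C8) (hMOD : S_MOD) (hSTR : S_STR) (hFRE : S_FRE) (hREC : S_REC)
    {κ κ' : GK i₀ →* ℤ_[2]ˣ} {S : Finset OO} {r I : QB} (hS : PS S)
    (kd : KD hi κ κ' (-(s7 * ∏ q ∈ S, q)) r I) (k8 : K8 κ κ')
    (j : ℤ) {ϖ : OO} (hϖ : (Even j ∧ ϖ = om) ∨ (Odd j ∧ ϖ = 1 - om)) :
    DimLe hi ϖ (κ ^ j * κ' ^ (1 - j)) ⊤ (crk S) := by
  obtain ⟨he, ho⟩ := hC8 hi kd k8 j
  rcases hϖ with ⟨hj, rfl⟩ | ⟨hj, rfl⟩
  · obtain ⟨s, c8⟩ := he hj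
    refine core_dim hi hSTR hFRE hREC hS c8 (v := -1) (w4 := 2) (by decide) (by ring)
      (Or.inl ⟨rfl, rfl, rfl, rfl⟩) (fun ι hι => (hMOD hi ι _ hS.one).1 hι) (fun ι hι => ?_)
    rw [neg_neg]
    exact (hMOD hi ι _ hS.one).2 hι
  · obtain ⟨s, c8⟩ := ho hj
    rw [neg_neg] at c8
    exact core_dim hi hSTR hFRE hREC hS c8 (v := 1) (w4 := 3) (by decide) (by ring)
      (Or.inr ⟨rfl, rfl, rfl, rfl⟩) (fun ι hι => (hMOD hi ι _ hS.one).2 hι)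
      (fun ι hι => (hMOD hi ι _ hS.one).1 hι)

end Pool.Agent.H848.BKD
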