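import Pool.Graph.R_pool_sql_team_seeded_3dad9d7b.NH57.BL.MainG
import Pool.Agent.H848.BKD.MainD
import Pool.Agent.H848.BKD.AlgGD

/-!
# The dimensions of the Selmer groups over `K`: the remaining weights
-/

set_option autoImplicit false
set_option linter.unusedSectionVars false
set_option linter.unusedVariables false

namespace Pool.Agent.H848.BKD

open Pool.Agent.R384
open Pool.Agent.NH57.BK
open Pool.Agent.NH57.BK.Mn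
open Pool.Agent.NH57.BG (e6 e3 S_SUPO S_RED8 S_VAL8 Fre8 S_FRE8)
open Pool.Agent.NH57.BH
open Pool.Agent.Y676.IS (Cu)
open Pool.Agent.Y715.Red Pool.Agent.Y715.Nr Pool.Agent.W237.RK
open Pool.Agent.Y715.Gi (QB KK GK)
open Pool.Agent.Y715.Df (Cmp)

open scoped Classical

variable {i₀ : QB} (hi : i₀ ^ 2 = i₀ - 2) {χ : GK i₀ →* ℤ_[2]ˣ} {m : OO} {r : QB}

/-- the local conditions for the elements that belong to the Selmer classes modulo two -/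
theorem core_lg (hRED : S_RED8) (hSTR : S_STRG) (hFR8 : S_FRE8) (hFRE : S_FREG)
    {x₀ y₀ z : ZMod 2} {S : Finset OO} (hT : PX x₀ y₀ S)
    {ϖ ϖ' v : OO} (cd : ChiD hi χ m r)
    {w4 : ZMod 4} (hw4 : w4 ^ 2 = w4 - 2) {w8 : ZMod 8} (hw8 : w8 ^ 2 = w8 - 2)
    (hcase : (m = -(s7 * ∏ q ∈ S, q) ∧ ϖ = om ∧ ϖ' = 1 - om ∧ w4 = 2 ∧ w8 = 3 ∧ z = x₀ ∧ v = -1) ∨
      (m = s7 * ∏ q ∈ S, q ∧ ϖ = 1 - om ∧ ϖ' = om ∧ w4 = 3 ∧ w8 = 6 ∧ z = y₀ ∧ v = 1))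
    (hm5 : ∀ ι : QB →ₐ[ℚ] PadicAlgCl 2, ‖em (iw hi ι) ϖ‖ < 1 → Mz z (em (iw hi ι) m))
    (hm6 : ∀ ι : QB →ₐ[ℚ] PadicAlgCl 2, ‖em (iw hi ι) ϖ'‖ < 1 → M15 (em (iw hi ι) (-m)))
    {c : GK i₀ → ℚ_[2]} (hcc : Coc χ c) (hint : ∀ σ, ‖c σ‖ ≤ 1)
    (hodd : ∀ (p : ℕ) [Fact p.Prime] (ι : QB →ₐ[ℚ] PadicAlgCl p), p ≠ 2 → CobOn χ (II ι) c)
    (hstr : ∀ ι : QB →ₐ[ℚ] PadicAlgCl 2, ‖ι (em hi ϖ')‖ < 1 → CobOn χ (DD ι) c) :
    ∃ δ : OO, LG m ϖ z hw4 hw8 δ ∧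
      ∀ s : QB, s ^ 2 = em hi δ → ∀ σ : GK i₀, σ s = s ↔ md c σ = 0 := by
  have hS : PS S := hT.ps
  have hPl : Pl ϖ ϖ' := by
    rcases hcase with ⟨-, h1, h2, -, -, -⟩ | ⟨-, h1, h2, -, -, -⟩
    · exact Or.inl ⟨h1, h2⟩
    · exact Or.inr ⟨h1, h2⟩
  have hϖp : Prime ϖ := by
    rcases hPl with ⟨rfl, -⟩ | ⟨rfl, -⟩
    · exact prime_om
    · exact prime_om'
  have hϖp' : Prime ϖ' := by
    rcases hPl with ⟨-, rfl⟩ | ⟨-, rfl⟩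
    · exact prime_om'
    · exact prime_om
  have hϖ2 : ϖ * ϖ' = 2 := by
    rcases hPl with ⟨rfl, rfl⟩ | ⟨rfl, rfl⟩
    · exact om_mul
    · rw [mul_comm]; exact om_mul
  obtain ⟨hv, hm⟩ : (v = 1 ∨ v = -1) ∧ m = v * (s7 * ∏ q ∈ S, q) := by
    rcases hcase with ⟨h1, -, -, -, -, -, h2⟩ | ⟨h1, -, -, -, -, -, h2⟩
    · exact ⟨Or.inr h2, by rw [h1, h2]; ring⟩
    · exact ⟨Or.inl h2, by rw [h1, h2]; ring⟩
  -- the free place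
  obtain ⟨p, hpf, ι, hι⟩ := exists_emb hi hϖp
  have hp2 : p = 2 := by
    rw [ι_em] at hι
    exact (two_of_dvd hϖp (iw hi ι) hι).2 ⟨_, hϖ2.symm⟩
  subst hp2
  have hι' : ‖em (iw hi ι) ϖ‖ < 1 := by rwa [ι_em] at hι
  -- the strict place
  obtain ⟨p, hpf', ι₁, hι₁⟩ := exists_emb hi hϖp'
  have hp2 : p = 2 := by
    rw [ι_em] at hι₁
    exact (two_of_dvd hϖp' (iw hi ι₁) hι₁).2 ⟨_, by rw [mul_comm]; exact hϖ2.symm⟩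
  subst hp2
  have hι₁' : ‖em (iw hi ι₁) ϖ'‖ < 1 := by rwa [ι_em] at hι₁
  have hstr' : CobOn χ (DD ι₁) c := hstr ι₁ hι₁
  -- Kummer theory
  obtain ⟨δ, hδ, hkum⟩ := kum hi (md c) (md_cont hcc) (md_mul hcc hint)
  obtain ⟨s, hs⟩ : ∃ s : QB, s ^ 2 = em hi δ := IsAlgClosed.exists_pow_nat_eq _ (by norm_num)
  have hk : ∀ σ : GK i₀, σ s = s ↔ md c σ = 0 := hkum s hs
  have hst := hSTR hi hPl cd ι₁ hι₁' (hm6 ι₁ hι₁') c hint hstr' δ s hδ hs hk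
  have hfr : ‖em (iw hi ι) δ - 1‖ ≤ 1 / 4 ∨
      ∃ δ' : OO, δ = (if z = 1 then -ϖ else ϖ) * δ' ∧ ‖em (iw hi ι) δ' - 1‖ ≤ 1 / 4 := by
    rcases hm5 ι hι' with ⟨hz, h⟩ | ⟨hz, h⟩
    · rw [if_pos hz]
      exact hFR8 hi hPl cd ι hι' h c hcc hint δ s hδ hs hk
    · rw [if_neg (by rw [hz]; exact zero_ne_one)]
      exact hFRE hi hPl cd ι hι' h c hcc hint δ s hδ hs hk
  -- the prime divisors of `δ`
  have hsup : ∀ π : OO, Prime π → π ∣ δ → ¬ π ∣ 2 → π ∣ m := by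
    intro π hπ hπδ hπ2
    by_contra hπm
    obtain ⟨l, hl, κ, hκ⟩ := exists_emb hi hπ
    rw [ι_em] at hκ
    have hl2 : l ≠ 2 := fun h => hπ2 ((two_of_dvd hπ (iw hi κ) hκ).1 h)
    have h1 := unram hi cd hl2 (hodd l κ hl2) ((dvd_iff (iw hi κ) hπ hκ m).not.1 hπm)
    refine not_dvd_of_fix (iw hi κ) hπ hκ hδ (s := κ s) ?_ ?_ hπδ
    · rw [← map_pow, hs, ι_em]
    · intro τ hin hτ
      exact fix_I (fun σ hσ => (hk σ).2 (h1 σ hσ)) τ hin hτ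
  -- the prime divisors of `m`
  have hloc := loc_all' hi cd hS hv hm hcc hint hodd hδ hs hk
  -- modulo eight at the strict place
  have h8 : em hw8 δ = 1 ∨ em hw8 (δ * m) = 1 := by
    have hred : ∀ x : OO, ‖em (iw hi ι₁) x‖ ≤ 1 / 8 → em hw8 x = 0 := by
      intro x hx
      rcases hcase with ⟨-, -, h1, -, h2, -⟩ | ⟨-, -, h1, -, h2, -⟩
      · exact (hRED hi ι₁ ϖ' w8 hw8 3 (by decide) (Or.inr ⟨h1, h2, rfl⟩) hι₁' x).1 hx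
      · exact (hRED hi ι₁ ϖ' w8 hw8 2 (by decide) (Or.inl ⟨h1, h2, rfl⟩) hι₁' x).1 hx
    rcases hst with h | h
    · left
      have h3 := hred (δ - 1) (by rwa [map_sub, map_one])
      rw [map_sub, map_one, sub_eq_zero] at h3
      exact h3
    · right
      have h3 := hred (δ * m - 1) (by rwa [map_sub, map_one])
      rw [map_sub, map_one, sub_eq_zero] at h3
      exact h3
  -- modulo four at the free place
  have h4 : em hw4 δ = 1 ∨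
      ∃ δ' : OO, δ = (if z = 1 then -ϖ else ϖ) * δ' ∧ em hw4 δ' = 1 := by
    have hred : ∀ x : OO, ‖em (iw hi ι) x - 1‖ ≤ 1 / 4 → em hw4 x = 1 := by
      intro x hx
      have hx' : ‖em (iw hi ι) (x - 1)‖ ≤ 1 / 4 := by rwa [map_sub, map_one]
      have h3 : em hw4 (x - 1) = 0 := by
        rcases hcase with ⟨-, h1, -, h2, -, -⟩ | ⟨-, h1, -, h2, -, -⟩
        · exact (hRED hi ι ϖ 6 e6 w4 hw4 (Or.inl ⟨h1, rfl, h2⟩) hι' (x - 1)).2 hx'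
        · exact (hRED hi ι ϖ 3 e3 w4 hw4 (Or.inr ⟨h1, rfl, h2⟩) hι' (x - 1)).2 hx'
      rw [map_sub, map_one, sub_eq_zero] at h3
      exact h3
    rcases hfr with h | ⟨δ', h1, h2⟩
    · exact Or.inl (hred δ h)
    · exact Or.inr ⟨δ', h1, hred δ' h2⟩
  exact ⟨δ, ⟨hδ, h8, h4, hsup, hloc⟩, hkum⟩

/-- the element which belongs to a class -/
noncomputable def dg (v ϖ : OO) (z : ZMod 2) (S : Finset OO) (f : Bool) (a : ZMod 2)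
    (T : Finset OO) : OO :=
  (if z = 1 then -ϖ else ϖ) ^ (if a = 0 then 0 else 1) *
    (bif f then s7 * (uu v T * v * ∏ q ∈ S \ T, q) else uu v T * ∏ q ∈ T, q)

/-- **The dimension over `K`.** -/
theorem core_dimG (hRED : S_RED8) (hSTR : S_STRG) (hFR8 : S_FRE8) (hFRE : S_FREG)
    (hREC : S_REC) (hSUP : S_SUPO)
    {x₀ y₀ z : ZMod 2} {S : Finset OO} (hT : PX x₀ y₀ S)
    {ϖ ϖ' v : OO} (cd : ChiD hi χ m r)
    {w4 : ZMod 4} (hw4 : w4 ^ 2 = w4 - 2) {w8 : ZMod 8} (hw8 : w8 ^ 2 = w8 - 2)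
    (hcase : (m = -(s7 * ∏ q ∈ S, q) ∧ ϖ = om ∧ ϖ' = 1 - om ∧ w4 = 2 ∧ w8 = 3 ∧ z = x₀ ∧ v = -1) ∨
      (m = s7 * ∏ q ∈ S, q ∧ ϖ = 1 - om ∧ ϖ' = om ∧ w4 = 3 ∧ w8 = 6 ∧ z = y₀ ∧ v = 1))
    (hm5 : ∀ ι : QB →ₐ[ℚ] PadicAlgCl 2, ‖em (iw hi ι) ϖ‖ < 1 → Mz z (em (iw hi ι) m))
    (hm6 : ∀ ι : QB →ₐ[ℚ] PadicAlgCl 2, ‖em (iw hi ι) ϖ'‖ < 1 → M15 (em (iw hi ι) (-m))) :
    DimLe hi ϖ' χ ⊤ (crkX x₀ y₀ S) := by
  obtain ⟨hv, hm⟩ : (v = 1 ∨ v = -1) ∧ m = v * (s7 * ∏ q ∈ S, q) := by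
    rcases hcase with ⟨h1, -, -, -, -, -, h2⟩ | ⟨h1, -, -, -, -, -, h2⟩
    · exact ⟨Or.inr h2, by rw [h1, h2]; ring⟩
    · exact ⟨Or.inl h2, by rw [h1, h2]; ring⟩
  have hfin : Fintype (KerX v x₀ y₀ S) := Fintype.ofFinite _
  refine dim_of_class hi (K := Bool × KerX v x₀ y₀ S) cd.cont ?_ ?_
    (fun c k => ∃ (T : Finset OO) (a : ZMod 2), T ⊆ S ∧ iy S T a = k.2.1 ∧
      ∀ s : QB, s ^ 2 = em hi (dg v ϖ z S k.1 a T) →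
      ∀ σ : GK i₀, σ s = s ↔ md c σ = 0) ?_ ?_
  · obtain ⟨σ₀, hσ₀⟩ := exists_mv hi cd hT.ps hv hm
    refine ⟨σ₀, fun h => ?_⟩
    have h1 := cd.big hi hσ₀
    rw [h, sub_self, norm_zero] at h1
    norm_num at h1
  · rw [Fintype.card_prod, Fintype.card_bool, ← Nat.card_eq_fintype_card, card_kerX, pow_succ]
    omega
  · rintro c ⟨h1, h2, h3⟩ hint
    have hcc : Coc χ c := ⟨by
      have := h1.cont
      rwa [Subgroup.coe_top, continuousOn_univ] at this, fun σ τ => h1.mul σ trivial τ trivial⟩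
    obtain ⟨δ, hLC, hkum⟩ := core_lg hi hRED hSTR hFR8 hFRE hT cd hw4 hw8 hcase hm5 hm6 hcc hint
      (fun p _ ι hp => by
        obtain ⟨y, hy⟩ := h2 p ι hp
        exact ⟨y, fun σ hσ => hy σ hσ trivial⟩)
      (fun ι hι => by
        obtain ⟨y, hy⟩ := h3 ι hι
        exact ⟨y, fun σ hσ => hy σ hσ trivial⟩)
    obtain ⟨f, a, T, ha, hT, hk, he⟩ := algGD hREC hSUP hT hw4 hw8 hcase hLC
    refine ⟨⟨f, ⟨iy S T a, hk⟩⟩, T, (a : ZMod 2), hT, rfl, fun s hs => hkum s ?_⟩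
    rw [he]
    rw [hs]
    unfold dg
    rcases ha with rfl | rfl
    · simp
    · simp
  · rintro c c' ⟨f, x⟩ ⟨T, a, hT, h1, h2⟩ ⟨T', a', hT', h1', h2'⟩
    obtain ⟨hTT, haa⟩ := iy_inj hT hT' (h1.trans h1'.symm)
    subst hTT
    subst haa
    obtain ⟨s, hs⟩ : ∃ s : QB, s ^ 2 = em hi (dg v ϖ z S f a T) :=
      IsAlgClosed.exists_pow_nat_eq _ (by norm_num)
    funext σ
    have h3 := (h2 s hs σ).symm.trans (h2' s hs σ)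
    have h01 : ∀ a b : ZMod 2, (a = 0 ↔ b = 0) → a = b := by decide
    exact h01 _ _ h3

/-- **The dimensions over `K`** for the curve, the remaining weights -/
theorem dimKG (hC8 : S_C8) (hMOD : S_MODG) (hRED : S_RED8) (hSTR : S_STRG) (hFR8 : S_FRE8)
    (hFRE : S_FREG) (hREC : S_REC) (hSUP : S_SUPO)
    {κ κ' : GK i₀ →* ℤ_[2]ˣ} {x y : ZMod 2} {S : Finset OO} {r I : QB} (hT : PX x y S)
    (kd : KD hi κ κ' (-(s7 * ∏ q ∈ S, q)) r I) (k8 : K8 κ κ')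
    (j : ℤ) {ϖ' : OO} (hϖ : (Even j ∧ ϖ' = 1 - om) ∨ (Odd j ∧ ϖ' = om)) :
    DimLe hi ϖ' (κ ^ j * κ' ^ (1 - j)) ⊤ (crkX x y S) := by
  obtain ⟨he, ho⟩ := hC8 hi kd k8 j
  have hM := fun ι : QB →ₐ[ℚ] PadicAlgCl 2 => hMOD hi ι _ x y hT.ps.one hT.six hT.three
  rcases hϖ with ⟨hj, rfl⟩ | ⟨hj, rfl⟩
  · obtain ⟨s, c8⟩ := he hj
    refine core_dimG hi hRED hSTR hFR8 hFRE hREC hSUP hT c8.cd (w4 := 2) (by decide) (w8 := 3)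
      e3 (Or.inl ⟨rfl, rfl, rfl, rfl, rfl, rfl, rfl⟩) (fun ι hι => (hM ι).1 hι) (fun ι hι => ?_)
    rw [neg_neg]
    exact MnG.m15_of ((hM ι).2 hι)
  · obtain ⟨s, c8⟩ := ho hj
    rw [neg_neg] at c8
    exact core_dimG hi hRED hSTR hFR8 hFRE hREC hSUP hT c8.cd (w4 := 3) (by decide) (w8 := 6)
      e6 (Or.inr ⟨rfl, rfl, rfl, rfl, rfl, rfl, rfl⟩) (fun ι hι => (hM ι).2 hι)
      (fun ι hι => MnG.m15_of ((hM ι).1 hι))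

end Pool.Agent.H848.BKD
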