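import Pool.Graph.R_pool_sql_team_seeded_3dad9d7b.NH57.BK.Mq
import Pool.Agent.H848.BKD.Dim

/-!
# The dimensions of the Selmer groups over multiquadratic fields
-/

set_option autoImplicit false
set_option linter.unusedSectionVars false
set_option linter.unusedVariables false

namespace Pool.Agent.H848.BKD

open Pool.Agent.R384
open Pool.Agent.NH57.BK
open Pool.Agent.NH57.BK.Mq78
open Pool.Agent.Y715.Red Pool.Agent.Y715.Nr Pool.Agent.W237.RK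
open Pool.Agent.Y715.Gi (QB KK GK)
open Pool.Agent.Y715.Df (Cmp)

open scoped Classical

variable {i₀ : QB} (hi : i₀ ^ 2 = i₀ - 2)

/-- **The dimensions over multiquadratic fields.** -/
theorem dim_mq {P : Finset OO → ℕ → Prop} {ϖ : OO} {j : ℤ}
    (hV : ∀ (κ κ' : GK i₀ →* ℤ_[2]ˣ) (S : Finset OO) (r I : QB) (n : ℕ), P S n →
      KD hi κ κ' (-(s7 * ∏ q ∈ S, q)) r I → K8 κ κ' → DimLe hi ϖ (κ ^ j * κ' ^ (1 - j)) ⊤ n)
    {κ κ' : GK i₀ →* ℤ_[2]ˣ} {D : OO} {r I : QB} {n : ℕ} {s : Fin n → QB} {E : Fin n → OO}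
    (hE : ∀ i, s i ^ 2 = em hi (E i)) (kd : KD hi κ κ' D r I) (k8 : K8 κ κ') (hD : D ≠ 0)
    (hE0 : ∀ i, E i ≠ 0) {d : Finset (Fin n) → ℕ}
    (hgood : ∀ T : Finset (Fin n), ∃ (S : Finset OO) (z : OO), P S (d T) ∧ z ≠ 0 ∧
      D * ∏ i ∈ T, E i = -(s7 * ∏ q ∈ S, q) * z ^ 2) :
    DimLe hi ϖ (κ ^ j * κ' ^ (1 - j)) (fixs s Finset.univ) (∑ T, d T) := by
  have hs0 : ∀ i, s i ≠ 0 := by
    intro i h
    have h1 := hE i
    rw [h, zero_pow two_ne_zero] at h1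
    exact hE0 i (em_inj hi h1.symm)
  have hs : ∀ (i) (σ : GK i₀), σ (s i) = s i ∨ σ (s i) = -s i := fun i σ => rt_or hi (hE i) σ
  have key := dim_all hi hs0 hs ϖ Finset.univ (κ ^ j * κ' ^ (1 - j)) d fun T _ => ?_
  · rwa [Finset.powerset_univ] at key
  obtain ⟨S', z, hgS, hz, hprod⟩ := hgood T
  have kd1 := KD.twists hi hs0 hs hE kd hD hE0 T
  have hz0 : em hi z ≠ 0 := em_ne hi hz
  have kd2 := KD.resc hi kd1 (D' := -(s7 * ∏ q ∈ S', q)) (u := (em hi z)⁻¹) (inv_ne_zero hz0)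
    (fun σ => by rw [map_inv₀, gk_em]) (by
      rw [mul_pow, kd1.hr, hprod, map_mul, map_pow]
      field_simp)
  have k82 : K8 (κ * ∏ i ∈ T, sgc (es (hs0 i) (hs i))) (κ' * ∏ i ∈ T, sgc (es (hs0 i) (hs i))) :=
    k8_tw k8 (prod_pm (fun i => es (hs0 i) (hs i)) T)
  set S := ∏ i ∈ T, sgc (es (hs0 i) (hs i)) with hS
  have e : κ ^ j * κ' ^ (1 - j) * S = (κ * S) ^ j * (κ' * S) ^ (1 - j) := by
    refine MonoidHom.ext fun σ => ?_
    have key : ∀ a b c : ℤ_[2]ˣ, a ^ j * b ^ (1 - j) * c = (a * c) ^ j * (b * c) ^ (1 - j) :=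
      fun a b c => by
        rw [mul_zpow, mul_zpow, mul_mul_mul_comm, ← zpow_add, add_sub_cancel, zpow_one]
    exact key _ _ _
  rw [e]
  exact hV _ _ S' _ _ _ hgS kd2 k82

end Pool.Agent.H848.BKD
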