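import Pool.Graph.R_seed8.R426.QD.Tr
import Pool.Graph.R_pool_sql_team_seeded_3dad9d7b.NH57.BL.Gal2
import Pool.Agent.H848.BKD.AlgD

/-!
# Quadratic reciprocity in `ℤ[ω]`

Transfer of the laws of `Pool/Agent/R426/QD/Rec.lean`, `Pool/Agent/R426/QD/Tr.lean` (for the subring
`ℤ[α]` of `ℂ`) to `ℤ[ω]`.
-/

set_option autoImplicit false
set_option linter.unusedSectionVars false
set_option linter.unusedVariables false

namespace Pool.Agent.H848.BKD

open Pool.Agent.R384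
open Pool.Agent.NH57.BK Pool.Agent.NH57.BK.AlgP
open Pool.Agent.NH57.BG (e6 e3 S_SUPO)
open Pool.Agent.Y698 (RR aR fR cX cY nR aR_sq ev ev_apply ev_aR RR_ext)
open Pool.Agent.Y698.SG (sy lg lg_one lg_neg_one lg_mul sy_sgn)
open Pool.Agent.Y698.SG
open Pool.Agent.R426.QD (Pn P3 recG tp et r4 r4_eq)
open Pool.Agent.W192.HK (sp)
open QuadraticAlgebra

lemma om_sq' : om ^ 2 = om - 2 := by
  ext <;> simp [om, pow_two]

lemma cem (z : OO) : cX (em aR_sq z) = z.re ∧ cY (em aR_sq z) = z.im := by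
  apply Pool.Agent.Y698.cXY_of
  rw [em_apply]
  push_cast
  rfl

/-- the isomorphism of the two models of the ring -/
noncomputable def phi : OO ≃+* RR :=
  RingEquiv.ofRingHom (em aR_sq) (ev om om_sq')
    (by
      refine RingHom.ext fun x => ?_
      rw [RingHom.comp_apply, RingHom.id_apply]
      apply RR_ext
      · rw [(cem _).1, ev_apply]
        simp [om]
      · rw [(cem _).2, ev_apply]
        simp [om])
    (by
      refine RingHom.ext fun x => ?_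
      rw [RingHom.comp_apply, RingHom.id_apply, ev_apply, (cem _).1, (cem _).2]
      ext
      · simp [om]
      · simp [om])

lemma phi_apply (z : OO) : phi z = em aR_sq z := rfl

lemma phi_s7 : phi s7 = fR := by
  apply RR_ext
  · rw [phi_apply, (cem _).1, Pool.Agent.Y698.cXY_fR.1]; rfl
  · rw [phi_apply, (cem _).2, Pool.Agent.Y698.cXY_fR.2]; rfl

lemma phi_om : phi om = aR := by
  apply RR_ext
  · rw [phi_apply, (cem _).1, Pool.Agent.Y698.cXY_aR.1]; rfl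
  · rw [phi_apply, (cem _).2, Pool.Agent.Y698.cXY_aR.2]; rfl

lemma phi_dvd {x y : OO} : phi x ∣ phi y ↔ x ∣ y := map_dvd_iff phi

lemma phi_prime {q : OO} : Prime (phi q) ↔ Prime q := MulEquiv.prime_iff phi.toMulEquiv

lemma mem_sp {q x : OO} : phi x ∈ sp (phi q) ↔ q ∣ x := by
  rw [Ideal.mem_span_singleton, phi_dvd]

/-- the symbols -/
lemma qs_sy {q x : OO} (h : ¬ q ∣ x) : qs q x = lg (sy (phi q) (phi x)) := by
  have h1 : phi x ∉ sp (phi q) := fun h' => h (mem_sp.1 h')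
  have h2 : Sqm q x ↔ IsSquare (Ideal.Quotient.mk (sp (phi q)) (phi x)) := by
    constructor
    · rintro ⟨y, hy⟩
      refine ⟨Ideal.Quotient.mk _ (phi y), ?_⟩
      rw [← map_mul, Ideal.Quotient.eq, ← map_mul, ← map_sub, mem_sp, ← pow_two]
      exact hy
    · rintro ⟨y', hy'⟩
      obtain ⟨y'', rfl⟩ := Ideal.Quotient.mk_surjective y'
      obtain ⟨y, rfl⟩ := phi.surjective y''
      rw [← map_mul, Ideal.Quotient.eq, ← map_mul, ← map_sub, mem_sp, ← pow_two] at hy'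
      exact ⟨y, hy'⟩
  unfold sy
  rw [if_neg h1]
  by_cases h3 : Sqm q x
  · rw [if_pos (h2.1 h3), lg_one, qs_zero]
    exact h3
  · rw [if_neg (fun h' => h3 (h2.2 h')), lg_neg_one]
    have h4 : ¬ qs q x = 0 := fun h' => h3 (qs_zero.1 h')
    revert h4
    generalize qs q x = t
    revert t
    decide

lemma r4_phi (q : OO) : r4 (phi q) = em h2 q := by
  rw [r4_eq, phi_apply, (cem _).1, (cem _).2, em_apply]
  push_cast
  ring

lemma nR_phi (q : OO) : nR (phi q) = nn q := by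
  unfold nR nn
  rw [phi_apply, (cem _).1, (cem _).2]

lemma pn_phi {q : OO} (h : Pp q) : Pn (phi q) := by
  refine ⟨phi_prime.2 h.prime, fun h' => not_two h ?_, ?_⟩
  · rw [← phi_dvd, map_ofNat]
    exact h'
  · rw [r4_phi]
    exact h.one

/-- the coordinates of primary primes -/
lemma pp_co {q : OO} (h : Pp q) : ∃ k D : ℤ, q.re = 1 + 4 * k ∧ q.im = 2 * D := by
  have h1 : ((q.re : ℤ) : ZMod 4) + ((q.im : ℤ) : ZMod 4) * 2 = 1 := h.one
  have h4 : ¬ (2 : ℤ) ∣ q.re + q.im := fun hd => h.odd (odd_dvd.2 hd)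
  have h5 : ((q.re + q.im * 2 - 1 : ℤ) : ZMod 4) = 0 := by
    push_cast
    rw [h1, sub_self]
  obtain ⟨k, hk⟩ := (ZMod.intCast_zmod_eq_zero_iff_dvd _ 4).1 h5
  push_cast at hk
  exact ⟨(q.re - 1) / 4, q.im / 2, by omega, by omega⟩

lemma tO_co {q : OO} {k D : ℤ} (h1 : q.re = 1 + 4 * k) (h2 : q.im = 2 * D) :
    tO q = ((D : ℤ) : ZMod 2) := by
  have hn : nn q = 4 * (2 * k + 4 * k ^ 2 + 2 * k * D + 2 * D ^ 2) + (1 + 2 * D) := by
    rw [nn, h1, h2]; ring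
  unfold tO
  rcases Int.even_or_odd' D with ⟨c, rfl | rfl⟩
  · rw [if_neg (by omega)]
    push_cast
    have : (2 : ZMod 2) = 0 := by decide
    rw [this, zero_mul]
  · rw [if_pos (by omega)]
    push_cast
    have : (2 : ZMod 2) = 0 := by decide
    rw [this, zero_mul, zero_add]

lemma et_tp {ϖ : RR} (h : Pn ϖ) : et ϖ = tp ϖ := by
  rcases h.cases with h1 | ⟨p, A, B, h1, hn⟩
  · rw [Pool.Agent.R426.QD.et_m4 h1.m4, Pool.Agent.R426.QD.tp_pm h1]
  · rw [Pool.Agent.R426.QD.et_p3 h1, if_pos hn, h1.tp]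

lemma tp_tO {q : OO} (h : Pp q) : tp (phi q) = tO q := by
  obtain ⟨k, D, hk, hD⟩ := pp_co h
  have hn : nn q = 4 * (2 * k + 4 * k ^ 2 + 2 * k * D + 2 * D ^ 2) + (1 + 2 * D) := by
    rw [nn, hk, hD]; ring
  rcases (pn_phi h).cases with h1 | ⟨p, A, B, h1, hnn⟩
  · rw [Pool.Agent.R426.QD.tp_pm h1]
    obtain ⟨u, hu⟩ := h1.m4
    obtain ⟨w, rfl⟩ := phi.surjective u
    have h5 : q = 1 + 4 * w := by
      apply phi.injective
      rw [hu, map_add, map_mul, map_one, map_ofNat]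
    have h6 : q.im = 4 * w.im := by
      rw [h5, im_add, im_one, zero_add]
      have : (4 : OO) = ((4 : ℤ) : OO) := by norm_num
      rw [this, im_mul, im_intCast, re_intCast]
      ring
    unfold tO
    rw [if_neg (by omega)]
  · rw [h1.tp]
    have h5 := h1.nR
    rw [nR_phi] at h5
    have h6 := h1.m4
    unfold tO
    rw [if_pos (by omega)]

/-- **quadratic reciprocity** -/
theorem t_REC : Pool.Agent.NH57.BK.S_REC := by
  refine ⟨fun π ρ hπ hρ hne => ?_, fun π hπ => ⟨?_, ?_⟩⟩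
  · have n1 : ¬ π ∣ ρ := nd hπ hρ hne
    have n2 : ¬ ρ ∣ π := nd hρ hπ (Ne.symm hne)
    have h1 := recG (pn_phi hπ) (pn_phi hρ).pr (pn_phi hρ).od (fun h => n2 (mem_sp.1 h))
      (fun h => n1 (mem_sp.1 h))
    rw [← qs_sy n1, ← qs_sy n2, et_tp (pn_phi hρ), tp_tO hπ, tp_tO hρ] at h1
    have h5 : ∀ y : ZMod 2, y + y = 0 := by decide
    linear_combination h1 + h5 (qs ρ π)
  · have n1 : ¬ π ∣ s7 := not_s7 hπ
    have n2 : ¬ s7 ∣ π := hπ.sev
    have h1 := (pn_phi hπ).seven (fun h => n2 (by rw [← phi_s7] at h; exact mem_sp.1 h))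
      (fun h => n1 (by rw [← phi_s7] at h; exact mem_sp.1 h))
    rw [← Pool.Agent.R426.QD.sy_fR, ← phi_s7, ← qs_sy n1, ← qs_sy n2] at h1
    exact h1
  · have n1 : ¬ π ∣ (-1 : OO) := not_unit hπ (Or.inr rfl)
    rw [qs_sy n1, map_neg, map_one]
    exact tp_tO hπ

lemma lg_chi8 : ∀ a : ZMod 8, Pool.Agent.Y698.SG.lg (((ZMod.χ₈ a : ℤ)) : ℂ) = if ZMod.χ₈ a = 1 then 0 else 1 := by
  intro a
  by_cases h : ZMod.χ₈ a = 1
  · rw [if_pos h, h, Int.cast_one, lg_one]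
  · rw [if_neg h]
    unfold Pool.Agent.Y698.SG.lg
    rw [if_neg]
    intro h1
    exact h (by exact_mod_cast h1)

/-- **the supplementary laws** -/
theorem t_SUPO : S_SUPO := by
  intro q hq
  obtain ⟨k, D, hk, hD⟩ := pp_co hq
  have ht := tO_co hk hD
  have nom : ¬ q ∣ om := fun h => not_two hq (h.trans ⟨1 - om, om_mul.symm⟩)
  have nom' : ¬ q ∣ (1 - om) := fun h => not_two hq (h.trans ⟨om, by rw [mul_comm, om_mul]⟩)
  have n1 : ¬ q ∣ (-1 : OO) := not_unit hq (Or.inr rfl)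
  have hn1 := (t_REC.2 q hq).2
  have a1 : qs q om = if ZMod.χ₈ ((q.re : ℤ) : ZMod 8) = 1 then 0 else 1 := by
    rw [qs_sy nom, phi_om, Pool.Agent.R426.QD.sy_aO (pn_phi hq).pr (pn_phi hq).od, lg_chi8,
      phi_apply, (cem _).1]
  have a2 : qs q (1 - om) = if ZMod.χ₈ ((q.re + q.im : ℤ) : ZMod 8) = 1 then 0 else 1 := by
    rw [qs_sy nom', map_sub, map_one, phi_om, ← Pool.Agent.R426.QC.cj_aR,
      Pool.Agent.R426.QD.sy_bO (pn_phi hq).pr (pn_phi hq).od, lg_chi8,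
      (Pool.Agent.Y279.SG.cXY_cj _).1, phi_apply, (cem _).1, (cem _).2]
  have b1 : qs q (-om) = qs q om + tO q := by
    rw [← hn1, add_comm, ← qs_mul hq.prime (not_two hq) n1 nom, neg_one_mul]
  have b2 : qs q (-(1 - om)) = qs q (1 - om) + tO q := by
    rw [← hn1, add_comm, ← qs_mul hq.prime (not_two hq) n1 nom', neg_one_mul]
  have key : ∀ κ y : ZMod 8,
      ((1 + 4 * κ + 6 * (2 * y) = 1 ∧ (if ZMod.χ₈ (1 + 4 * κ) = 1 then (0 : ZMod 2) else 1) +
          ZMod.castHom (show 2 ∣ 8 by norm_num) (ZMod 2) y = 0) ∨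
        (1 + 4 * κ + 6 * (2 * y) = 5 ∧ (if ZMod.χ₈ (1 + 4 * κ) = 1 then (0 : ZMod 2) else 1) +
          ZMod.castHom (show 2 ∣ 8 by norm_num) (ZMod 2) y = 1)) ∧
      (((1 + 4 * κ + 3 * (2 * y) = 1 ∨ 1 + 4 * κ + 3 * (2 * y) = 7) ∧
          (if ZMod.χ₈ (1 + 4 * κ + 2 * y) = 1 then (0 : ZMod 2) else 1) +
          ZMod.castHom (show 2 ∣ 8 by norm_num) (ZMod 2) y = 0) ∨
        ((1 + 4 * κ + 3 * (2 * y) = 3 ∨ 1 + 4 * κ + 3 * (2 * y) = 5) ∧
          (if ZMod.χ₈ (1 + 4 * κ + 2 * y) = 1 then (0 : ZMod 2) else 1) +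
          ZMod.castHom (show 2 ∣ 8 by norm_num) (ZMod 2) y = 1)) := by decide
  have h1 := key ((k : ℤ) : ZMod 8) ((D : ℤ) : ZMod 8)
  have c0 : ZMod.castHom (show 2 ∣ 8 by norm_num) (ZMod 2) ((D : ℤ) : ZMod 8) =
      ((D : ℤ) : ZMod 2) := by rw [map_intCast]
  have c1 : R384.em e6 q = 1 + 4 * ((k : ℤ) : ZMod 8) + 6 * (2 * ((D : ℤ) : ZMod 8)) := by
    rw [em_apply, hk, hD]; push_cast; ring
  have c2 : R384.em e3 q = 1 + 4 * ((k : ℤ) : ZMod 8) + 3 * (2 * ((D : ℤ) : ZMod 8)) := by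
    rw [em_apply, hk, hD]; push_cast; ring
  have c3 : ((q.re : ℤ) : ZMod 8) = 1 + 4 * ((k : ℤ) : ZMod 8) := by
    rw [hk]; push_cast; ring
  have c4 : ((q.re + q.im : ℤ) : ZMod 8) = 1 + 4 * ((k : ℤ) : ZMod 8) + 2 * ((D : ℤ) : ZMod 8) := by
    rw [hk, hD]; push_cast; ring
  rw [b1, b2, a1, a2, ht, c1, c2, c3, c4]
  rw [c0] at h1
  exact h1

end Pool.Agent.H848.BKD
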