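import Pool.Graph.R_pool_sql_team_seeded_3dad9d7b.NH57.BK.K8
import Pool.Graph.R_pool_sql_team_seeded_3dad9d7b.NH57.BK.C8
import Pool.Graph.R_pool_sql_team_seeded_3dad9d7b.NH57.BK.Mod
import Pool.Graph.R_pool_sql_team_seeded_3dad9d7b.NH57.BK.Str
import Pool.Graph.R_pool_sql_team_seeded_3dad9d7b.NH57.BK.H90
import Pool.Graph.R_pool_sql_team_seeded_3dad9d7b.NH57.BK.Val
import Pool.Graph.R_pool_sql_team_seeded_3dad9d7b.NH57.BK.FreA
import Pool.Graph.R_pool_sql_team_seeded_3dad9d7b.NH57.BK.FreB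
import Pool.Graph.R_pool_sql_team_seeded_3dad9d7b.NH57.BL.Mod8
import Pool.Graph.R_pool_sql_team_seeded_3dad9d7b.NH57.BL.ModG
import Pool.Graph.R_pool_sql_team_seeded_3dad9d7b.NH57.BL.StrG
import Pool.Graph.R_pool_sql_team_seeded_3dad9d7b.NH57.BL.Val8
import Pool.Graph.R_pool_sql_team_seeded_3dad9d7b.NH57.BL.ValG
import Pool.Graph.R_pool_sql_team_seeded_3dad9d7b.NH57.BL.FreA8
import Pool.Graph.R_pool_sql_team_seeded_3dad9d7b.NH57.BL.FreAG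
import Pool.Graph.R_pool_sql_team_seeded_3dad9d7b.NH57.BL.FreB8
import Pool.Graph.R_pool_sql_team_seeded_3dad9d7b.NH57.BL.FreBG
import Pool.Agent.H848.BKD.MainGD
import Pool.Agent.H848.BKD.MqD
import Pool.Agent.H848.BKD.Rec

/-!
# The dimensions of the Selmer groups: the theorems without hypotheses
-/

set_option autoImplicit false
set_option linter.unusedSectionVars false
set_option linter.unusedVariables false

namespace Pool.Agent.H848.BKD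

open Pool.Agent.R384
open Pool.Agent.NH57.BK
open Pool.Agent.NH57.BG Pool.Agent.NH57.BH
open Pool.Agent.Y715.Gi (QB KK GK)

variable {i₀ : QB} (hi : i₀ ^ 2 = i₀ - 2)

/-- the first half of the weights -/
theorem dim_one {κ κ' : GK i₀ →* ℤ_[2]ˣ} {S : Finset OO} {r I : QB} (hS : PS S)
    (kd : KD hi κ κ' (-(s7 * ∏ q ∈ S, q)) r I) (k8 : K8 κ κ')
    (j : ℤ) {ϖ : OO} (hϖ : (Even j ∧ ϖ = om) ∨ (Odd j ∧ ϖ = 1 - om)) :
    DimLe hi ϖ (κ ^ j * κ' ^ (1 - j)) ⊤ (crk S) :=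
  dimK hi t_C8 t_MOD t_STR (t_FREB (t_FREA t_H90 t_VAL)) t_REC hS kd k8 j hϖ

/-- the second half of the weights -/
theorem dim_two {κ κ' : GK i₀ →* ℤ_[2]ˣ} {x y : ZMod 2} {S : Finset OO} {r I : QB}
    (hT : PX x y S) (kd : KD hi κ κ' (-(s7 * ∏ q ∈ S, q)) r I) (k8 : K8 κ κ')
    (j : ℤ) {ϖ' : OO} (hϖ : (Even j ∧ ϖ' = 1 - om) ∨ (Odd j ∧ ϖ' = om)) :
    DimLe hi ϖ' (κ ^ j * κ' ^ (1 - j)) ⊤ (crkX x y S) :=
  dimKG hi t_C8 t_MODG t_RED8 t_STRG (t_FREB8 (t_FREA8 t_H90 t_VAL8))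
    (t_FREBG (t_FREAG t_H90 t_VALG)) t_REC t_SUPO hT kd k8 j hϖ

end Pool.Agent.H848.BKD
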