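import Pool.Agent.H848.BKD.Mat

/-!
# Bordered matrices
-/

set_option autoImplicit false
set_option linter.unusedSectionVars false
set_option linter.unusedVariables false

namespace Pool.Agent.H848.BKD

open Pool.Agent.R384
open QuadraticAlgebra

open scoped Classical

/-- the bordered matrix of the symbols -/
noncomputable def BMX (P : Finset OO) (g d u : OO → ZMod 2) (c : ZMod 2) :
    Matrix (Option P) (Option P) (ZMod 2) :=
  fun i k => match i, k with
    | none, none => c
    | none, some q => d q
    | some p, none => g p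
    | some p, some q => if (p : OO) = q then u p + ∑ r ∈ P.erase (p : OO), qs r (p : OO) else
        qs (q : OO) (p : OO)

/-- the system -/
def SolU (P : Finset OO) (g d u : OO → ZMod 2) (c : ZMod 2) (W : OO → ZMod 2) (e : ZMod 2) : Prop :=
  (∀ p ∈ P, u p * W p + ∑ r ∈ P, qs r p * (W p + W r) + e * g p = 0) ∧
    c * e + ∑ q ∈ P, d q * W q = 0

/-- extension by zero -/
noncomputable def exo (P : Finset OO) (w : Option P → ZMod 2) (x : OO) : ZMod 2 :=
  if h : x ∈ P then w (some ⟨x, h⟩) else 0

lemma exo_coe (P : Finset OO) (w : Option P → ZMod 2) (p : P) : exo P w p = w (some p) := by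
  unfold exo
  rw [dif_pos p.2]

lemma exo_mem {P : Finset OO} (w : Option P → ZMod 2) {x : OO} (h : x ∈ P) :
    exo P w x = w (some ⟨x, h⟩) := by
  unfold exo
  rw [dif_pos h]

lemma bmx_some (P : Finset OO) (g d u : OO → ZMod 2) (c : ZMod 2) (w : Option P → ZMod 2) (p : P) :
    (BMX P g d u c).mulVec w (some p) =
      u p * exo P w p + ∑ r ∈ P, qs r (p : OO) * (exo P w p + exo P w r) + w none * g p := by
  have h5 : ∀ y : ZMod 2, y + y = 0 := by decide
  rw [Matrix.mulVec, dotProduct, Fintype.sum_option]
  have e1 : ∀ q : P, BMX P g d u c (some p) (some q) * w (some q) =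
      (if (p : OO) = q then u p + ∑ r ∈ P.erase (p : OO), qs r (p : OO) else
        qs (q : OO) (p : OO)) * exo P w q := by
    intro q
    rw [exo_coe]
    rfl
  rw [Finset.sum_congr rfl fun q _ => e1 q, Finset.sum_coe_sort P (fun q : OO =>
    (if (p : OO) = q then u p + ∑ r ∈ P.erase (p : OO), qs r (p : OO) else
        qs (q : OO) (p : OO)) * exo P w q), ← Finset.add_sum_erase P _ p.2, if_pos rfl,
    ← Finset.add_sum_erase P (fun r => qs r (p : OO) * (exo P w p + exo P w r)) p.2, h5, mul_zero,
    zero_add]
  have e2 : ∑ q ∈ P.erase (p : OO), (if (p : OO) = q then u p + ∑ r ∈ P.erase (p : OO),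
      qs r (p : OO) else qs (q : OO) (p : OO)) * exo P w q =
      ∑ q ∈ P.erase (p : OO), qs q (p : OO) * exo P w q := by
    refine Finset.sum_congr rfl fun q hq => ?_
    rw [if_neg (Finset.ne_of_mem_erase hq).symm]
  rw [e2]
  simp only [mul_add, Finset.sum_add_distrib, ← Finset.sum_mul]
  show g p * w none + _ = _
  ring

lemma bmx_none (P : Finset OO) (g d u : OO → ZMod 2) (c : ZMod 2) (w : Option P → ZMod 2) :
    (BMX P g d u c).mulVec w none = c * w none + ∑ q ∈ P, d q * exo P w q := by
  rw [Matrix.mulVec, dotProduct, Fintype.sum_option]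
  have e1 : ∀ q : P, BMX P g d u c none (some q) * w (some q) = d q * exo P w q := by
    intro q
    rw [exo_coe]
    rfl
  rw [Finset.sum_congr rfl fun q _ => e1 q, Finset.sum_coe_sort P (fun q : OO => d q * exo P w q)]
  rfl

lemma bmx_iff (P : Finset OO) (g d u : OO → ZMod 2) (c : ZMod 2) (w : Option P → ZMod 2) :
    (BMX P g d u c).mulVec w = 0 ↔ SolU P g d u c (exo P w) (w none) := by
  constructor
  · intro h
    refine ⟨fun p hp => ?_, ?_⟩
    · rw [← bmx_some P g d u c w ⟨p, hp⟩, h]
      rfl
    · rw [← bmx_none P g d u c w, h]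
      rfl
  · rintro ⟨h1, h2⟩
    funext i
    rcases i with _ | p
    · rw [bmx_none]
      exact h2
    · rw [bmx_some]
      exact h1 p p.2

lemma card_bmx (P : Finset OO) (g d u : OO → ZMod 2) (c : ZMod 2) :
    Nat.card {w : Option P → ZMod 2 // SolU P g d u c (exo P w) (w none)} =
      2 ^ (P.card + 1 - (BMX P g d u c).rank) := by
  have h1 := card_kerT (BMX P g d u c).transpose
  rw [Matrix.transpose_transpose, Matrix.rank_transpose, Fintype.card_option, Fintype.card_coe] at h1
  rw [← h1]
  exact Nat.card_congr (Equiv.subtypeEquivRight fun w => (bmx_iff P g d u c w).symm)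

section key

variable {P P' : Finset OO} {s : OO} (hs : s ∉ P) (hP : P' = insert s P) {g d : OO → ZMod 2}
  {c : ZMod 2} (hcol : ∀ q ∈ P', ∑ p ∈ P', (qs q p + qs p q) = 0) (hg : ∑ p ∈ P', g p = 0)
  (hd : ∑ p ∈ P', d p = 0)

include hcol hg in
lemma sum_rows (W : OO → ZMod 2) (e : ZMod 2) :
    ∑ p ∈ P', (∑ r ∈ P', qs r p * (W p + W r) + e * g p) = 0 := by
  rw [Finset.sum_add_distrib, ← Finset.mul_sum, hg, mul_zero, add_zero]
  have e1 : ∑ p ∈ P', ∑ r ∈ P', qs r p * (W p + W r) =
      ∑ p ∈ P', (∑ r ∈ P', (qs p r + qs r p)) * W p := by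
    simp only [mul_add, Finset.sum_add_distrib]
    rw [Finset.sum_comm (f := fun p r => qs r p * W r)]
    rw [← Finset.sum_add_distrib]
    refine Finset.sum_congr rfl fun p _ => ?_
    rw [← Finset.sum_mul, ← Finset.sum_mul]
    ring
  rw [e1]
  refine Finset.sum_eq_zero fun p hp => ?_
  rw [hcol p hp, zero_mul]

include hs hP hcol hg hd in
lemma sol_iff (W : OO → ZMod 2) (hW : W s = 0) (t e : ZMod 2) :
    SolU P' g d (fun _ => 0) c (fun x => W x + t) e ↔ SolU P g d (fun p => qs s p) c W e := by
  have h5 : ∀ y : ZMod 2, y + y = 0 := by decide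
  have e1 : ∀ p, ∑ r ∈ P', qs r p * (W p + t + (W r + t)) =
      ∑ r ∈ P', qs r p * (W p + W r) := by
    intro p
    refine Finset.sum_congr rfl fun r _ => ?_
    linear_combination qs r p * h5 t
  have e2 : ∀ p, ∑ r ∈ P', qs r p * (W p + W r) =
      qs s p * W p + ∑ r ∈ P, qs r p * (W p + W r) := by
    intro p
    rw [hP, Finset.sum_insert hs, hW, add_zero]
  have e3 : c * e + ∑ q ∈ P', d q * (W q + t) = c * e + ∑ q ∈ P, d q * W q := by
    simp only [mul_add, Finset.sum_add_distrib, ← Finset.sum_mul]
    rw [hd, zero_mul, add_zero]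
    congr 1
    rw [hP, Finset.sum_insert hs, hW, mul_zero, zero_add]
  unfold SolU
  rw [e3]
  refine and_congr_left fun _ => ?_
  simp only [zero_mul, zero_add, e1]
  constructor
  · intro h p hp
    have := h p (by rw [hP]; exact Finset.mem_insert_of_mem hp)
    rw [e2] at this
    exact this
  · intro h p hp
    rw [hP] at hp
    rcases Finset.mem_insert.1 hp with rfl | hp'
    · have h1 := sum_rows hcol hg W e
      rw [hP, Finset.sum_insert hs] at h1
      rw [← hP] at h1
      rw [Finset.sum_eq_zero (s := P), add_zero] at h1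
      · exact h1
      · intro q hq
        rw [e2]
        exact h q hq
    · rw [e2]
      exact h p hp'

include hs hP hcol hg hd in
/-- **deleting a prime** -/
theorem rank_bmx : (BMX P' g d (fun _ => 0) c).rank = (BMX P g d (fun p => qs s p) c).rank := by
  have h5 : ∀ y : ZMod 2, y + y = 0 := by decide
  have c1 := card_bmx P' g d (fun _ => 0) c
  have c2 := card_bmx P g d (fun p => qs s p) c
  have hs' : s ∈ P' := by rw [hP]; exact Finset.mem_insert_self _ _
  have hm : ∀ p ∈ P, p ∈ P' := fun p hp => by rw [hP]; exact Finset.mem_insert_of_mem hp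
  have hmP : ∀ p ∈ P', p = s ∨ p ∈ P := fun p hp => by rw [hP] at hp; exact Finset.mem_insert.1 hp
  have key : Nat.card {w : Option P' → ZMod 2 // SolU P' g d (fun _ => 0) c (exo P' w) (w none)} =
      Nat.card ({w : Option P → ZMod 2 // SolU P g d (fun p => qs s p) c (exo P w) (w none)} ×
        ZMod 2) := by
    have hcongr : ∀ (W W' : OO → ZMod 2) (e : ZMod 2), (∀ x ∈ P', W x = W' x) →
        (SolU P' g d (fun _ => 0) c W e ↔ SolU P' g d (fun _ => 0) c W' e) := by
      intro W W' e h
      unfold SolU
      have e1 : ∑ q ∈ P', d q * W q = ∑ q ∈ P', d q * W' q :=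
        Finset.sum_congr rfl fun q hq => by rw [h q hq]
      have e2 : ∀ p ∈ P', ∑ r ∈ P', qs r p * (W p + W r) = ∑ r ∈ P', qs r p * (W' p + W' r) :=
        fun p hp => Finset.sum_congr rfl fun r hr => by rw [h r hr, h p hp]
      rw [e1]
      refine and_congr_left fun _ => forall₂_congr fun p hp => ?_
      rw [e2 p hp, h p hp]
    refine Nat.card_congr
      { toFun := fun w => (⟨fun o => match o with
            | none => w.1 none
            | some p => w.1 (some ⟨p, hm _ p.2⟩) + w.1 (some ⟨s, hs'⟩), ?_⟩, w.1 (some ⟨s, hs'⟩))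
        invFun := fun w => ⟨fun o => match o with
            | none => w.1.1 none
            | some p => exo P w.1.1 p + w.2, ?_⟩
        left_inv := ?_
        right_inv := ?_ }
    · have h1 := w.2
      set t := w.1 (some ⟨s, hs'⟩) with ht
      set w' : Option P → ZMod 2 := fun o => match o with
            | none => w.1 none
            | some p => w.1 (some ⟨p, hm _ p.2⟩) + t with hw'
      have h2 : exo P w' s = 0 := by
        unfold exo
        rw [dif_neg hs]
      rw [← sol_iff hs hP hcol hg hd (exo P w') h2 t]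
      refine (hcongr _ _ _ fun x hx => ?_).1 h1
      rw [exo_mem _ hx]
      rcases hmP x hx with rfl | hxP
      · rw [h2, zero_add]
      · rw [exo_mem _ hxP]
        show _ = w.1 (some ⟨x, _⟩) + t + t
        rw [add_assoc, h5, add_zero]
    · have h1 := w.1.2
      have h2 : exo P w.1.1 s = 0 := by
        unfold exo
        rw [dif_neg hs]
      rw [← sol_iff hs hP hcol hg hd (exo P w.1.1) h2 w.2] at h1
      refine (hcongr _ _ _ fun x hx => ?_).1 h1
      rw [exo_mem _ hx]
    · intro w
      apply Subtype.ext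
      funext o
      rcases o with _ | p
      · rfl
      · show exo P _ (p : OO) + w.1 (some ⟨s, hs'⟩) = w.1 (some p)
        rcases hmP _ p.2 with h | h
        · have e1 : p = ⟨s, hs'⟩ := Subtype.ext h
          unfold exo
          rw [dif_neg (by rw [h]; exact hs), zero_add, e1]
        · rw [exo_mem _ h]
          show w.1 (some ⟨p, _⟩) + w.1 (some ⟨s, hs'⟩) + w.1 (some ⟨s, hs'⟩) = w.1 (some p)
          rw [add_assoc, h5, add_zero]
    · intro w
      have h2 : exo P w.1.1 s = 0 := by
        unfold exo
        rw [dif_neg hs]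
      refine Prod.ext (Subtype.ext ?_) ?_
      · funext o
        rcases o with _ | p
        · rfl
        · show exo P w.1.1 (p : OO) + w.2 + (exo P w.1.1 s + w.2) = w.1.1 (some p)
          rw [h2, exo_coe, zero_add, add_assoc, h5, add_zero]
      · show exo P w.1.1 s + w.2 = w.2
        rw [h2, zero_add]
  rw [Nat.card_prod, c1, c2, Nat.card_zmod, ← pow_succ] at key
  have h6 := Nat.pow_right_injective (le_refl 2) key
  have h7 : (BMX P' g d (fun _ => 0) c).rank ≤ P'.card + 1 := by
    have := Matrix.rank_le_card_width (BMX P' g d (fun _ => 0) c)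
    rwa [Fintype.card_option, Fintype.card_coe] at this
  have h8 : (BMX P g d (fun p => qs s p) c).rank ≤ P.card + 1 := by
    have := Matrix.rank_le_card_width (BMX P g d (fun p => qs s p) c)
    rwa [Fintype.card_option, Fintype.card_coe] at this
  have h9 : P'.card = P.card + 1 := by rw [hP, Finset.card_insert_of_notMem hs]
  omega

end key

end Pool.Agent.H848.BKD
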