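import Pool.Agent.H848.BKD.Evn

/-!
# The even weights: the twists by primes
-/

set_option autoImplicit false
set_option linter.unusedSectionVars false
set_option linter.unusedVariables false

attribute [-instance] DivisionRing.toRatAlgebra

open NumberField IsDedekindDomain Filter Topology

namespace Pool.Agent.H848.BKD

open Pool.Agent.R384
open Pool.Agent.NH57.BK Pool.Agent.NH57.BK.AlgP
open Pool.Agent.H463.QE (ns MP IsP Fs)
open Pool.Agent.H463.PT (Sys)
open QuadraticAlgebra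

open scoped Classical

/-- the corank of the matrix of the even weights -/
def Ek (D : OO) (r : ℕ) : Prop := ∃ P : Finset OO, IsP om D P ∧ (EM P).rank + r = P.card

/-- the primes of `D` -/
lemma prm {D : OO} (hD : Ad D) {P : Finset OO} (hP : IsP om D P) : ∃ S : Finset OO, PS S ∧
    ∏ q ∈ S, q = D ∧ P = insert (-s7) S := by
  obtain ⟨S, hS, hprod, hf, hDe⟩ := exists_ps hD
  exact ⟨S, hS, hprod, (isP_iff hS hf hDe P).1 hP⟩

lemma exists_P {D : OO} (hD : Ad D) : ∃ P : Finset OO, IsP om D P := by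
  obtain ⟨S, hS, hprod, hf, hDe⟩ := exists_ps hD
  exact ⟨_, (isP_iff hS hf hDe _).2 rfl⟩

lemma rank_EM_le {D : OO} (hD : Ad D) {P : Finset OO} (hP : IsP om D P) :
    (EM P).rank ≤ P.card := by
  obtain ⟨S, hS, -, rfl⟩ := prm hD hP
  rw [rank_EM (nS7 hS) rfl (sys_PS hS), Finset.card_insert_of_notMem (nS7 hS)]
  have h := Matrix.rank_le_card_width (TX S (fun p => qs (-s7) p) (qs (-s7) (-om))
    (qs (-s7) (om - 1)))
  rwa [Fintype.card_option, Fintype.card_coe] at h

lemma ek_iff {D : OO} (hD : Ad D) {P : Finset OO} (hP : IsP om D P) (r : ℕ) :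
    Ek D r ↔ (EM P).rank + r = P.card := by
  constructor
  · rintro ⟨P', hP', h⟩
    rwa [isP_unique hP' hP] at h
  · exact fun h => ⟨P, hP, h⟩

lemma ek_unique {D : OO} (hD : Ad D) : ∃! r, Ek D r := by
  obtain ⟨P, hP⟩ := exists_P hD
  have h := rank_EM_le hD hP
  refine ⟨P.card - (EM P).rank, (ek_iff hD hP _).2 (by omega), fun r hr => ?_⟩
  have := (ek_iff hD hP r).1 hr
  omega

/-- the corank of the theorem -/
lemma ek_crk {D : OO} {r : ℕ} (hD : Ad D) (h : Ek D r) : ∃ S : Finset OO,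
    PX (Xs S) (Ys S) S ∧ ∏ q ∈ S, q = D ∧ crkX (Xs S) (Ys S) S = r := by
  obtain ⟨P, hP⟩ := exists_P hD
  have h1 := (ek_iff hD hP r).1 h
  obtain ⟨S, hS, hprod, rfl⟩ := prm hD hP
  refine ⟨S, px_of hS, hprod, ?_⟩
  rw [crkX_eq hS]
  omega

/-! ### The comparison of the two coranks -/

lemma rank_sub {α β : Type} [Fintype α] [Fintype β] [DecidableEq α] [DecidableEq β]
    (M : Matrix β β (ZMod 2)) (f : α → β) : (M.submatrix f f).rank ≤ M.rank := by
  have h1 : M.submatrix f f = ((1 : Matrix β β (ZMod 2)).submatrix f id) * (M *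
      (1 : Matrix β β (ZMod 2)).submatrix id f) := by
    ext i j
    simp [Matrix.mul_apply, Matrix.one_apply]
  rw [h1]
  exact (Matrix.rank_mul_le_right _ _).trans (Matrix.rank_mul_le_left _ _)

/-- the corank of the even weights is at most one more than the corank -/
theorem ek_le {D : OO} (hD : Ad D) {r r' : ℕ} (hr : Ck D r) (hr' : Ek D r') : r' ≤ r + 1 := by
  obtain ⟨P, hP⟩ := exists_P hD
  have h1 := (ek_iff hD hP r').1 hr'
  have h2 := (ck_iff hP r).1 hr
  obtain ⟨S, hS, hprod, rfl⟩ := prm hD hP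
  have h3 := crkX_eq hS
  have h4 := cork_eq hS
  rw [h4] at h2
  unfold crk at h2
  unfold crkX at h3
  have h5 : (AA S).rank ≤ (NX (Xs S) (Ys S) S).rank := by
    have h6 : AA S = (NX (Xs S) (Ys S) S).submatrix some some := by
      ext p q
      unfold AA
      rw [Matrix.submatrix_apply]
      show _ = (if (p : OO) = q then qs s7 p + ∑ τ ∈ S, qs τ (p : OO) else 0) + qs (q : OO) (p : OO)
      by_cases h : p = q
      · rw [if_pos h, if_pos (congrArg Subtype.val h)]
      · rw [if_neg h, if_neg fun h' => h (Subtype.ext h')]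
    rw [h6]
    exact rank_sub _ _
  have h6 : (AA S).rank ≤ S.card := by
    have := Matrix.rank_le_card_width (AA S)
    rwa [Fintype.card_coe] at this
  have h7 := Finset.card_insert_of_notMem (nS7 hS)
  omega

/-! ### The twists -/

lemma om_ne : (om : OO) ≠ 1 - om := by
  intro h
  have := congrArg QuadraticAlgebra.re h
  simp [om] at this

lemma prime_two_of {q : OO} (hq : Pp q) : q ≠ om ∧ q ≠ 1 - om := by
  constructor
  · rintro rfl
    exact not_two hq ⟨1 - om, om_mul.symm⟩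
  · rintro rfl
    exact not_two hq ⟨om, by rw [mul_comm]; exact om_mul.symm⟩

lemma notin_P {S : Finset OO} (hS : PS S) : om ∉ insert (-s7) S ∧ 1 - om ∉ insert (-s7) S := by
  have h1 : (om : OO) ≠ -s7 := by
    intro h
    have := congrArg QuadraticAlgebra.re h
    simp [om, s7] at this
  have h2 : (1 - om : OO) ≠ -s7 := by
    intro h
    have := congrArg QuadraticAlgebra.im h
    simp [om, s7] at this
  constructor
  · intro h
    rcases Finset.mem_insert.1 h with h | h
    · exact h1 h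
    · exact (prime_two_of (hS.pp _ h)).1 rfl
  · intro h
    rcases Finset.mem_insert.1 h with h | h
    · exact h2 h
    · exact (prime_two_of (hS.pp _ h)).2 rfl

/-- the primes of the table -/
noncomputable def Tb (P : Finset OO) : Finset OO := insert om (insert (1 - om) P)

lemma om_Tb (P : Finset OO) : om ∈ Tb P := Finset.mem_insert_self _ _

lemma om'_Tb (P : Finset OO) : 1 - om ∈ Tb P :=
  Finset.mem_insert_of_mem (Finset.mem_insert_self _ _)

lemma P_Tb {P : Finset OO} {p : OO} (hp : p ∈ P) : p ∈ Tb P :=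
  Finset.mem_insert_of_mem (Finset.mem_insert_of_mem hp)

lemma card_Tb {D : OO} (hD : Ad D) {P : Finset OO} (hP : IsP om D P) :
    (Tb P).card = P.card + 2 := by
  obtain ⟨S, hS, -, rfl⟩ := prm hD hP
  unfold Tb
  rw [Finset.card_insert_of_notMem, Finset.card_insert_of_notMem (notin_P hS).2]
  rw [Finset.mem_insert]
  rintro (h | h)
  · exact om_ne h
  · exact (notin_P hS).1 h

lemma Tb_prime {D : OO} {P : Finset OO} (hP : IsP om D P) : ∀ p ∈ Tb P, Prime p := by
  intro p hp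
  unfold Tb at hp
  rcases Finset.mem_insert.1 hp with rfl | hp
  · exact prime_om
  · rcases Finset.mem_insert.1 hp with rfl | hp
    · exact prime_om'
    · exact ((hP p).1 hp).1

lemma Tb_sqf {D : OO} (hD : Ad D) {P : Finset OO} (hP : IsP om D P) :
    Squarefree (∏ p ∈ Tb P, p) := by
  obtain ⟨S, hS, hprod, rfl⟩ := prm hD hP
  have h1 : ∏ p ∈ Tb (insert (-s7) S), p = om * ((1 - om) * (-(s7 * D))) := by
    unfold Tb
    rw [Finset.prod_insert, Finset.prod_insert (notin_P hS).2, Finset.prod_insert (nS7 hS), hprod,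
      neg_mul]
    rw [Finset.mem_insert]
    rintro (h | h)
    · exact om_ne h
    · exact (notin_P hS).1 h
  obtain ⟨J, hJ⟩ := hD.2
  have hs : s7 = 2 * om - 1 := rfl
  have hc : ∀ z : OO, z ∣ 2 → IsCoprime z (-(s7 * D)) := by
    rintro z ⟨t, ht⟩
    -- `s7 D = -1 + 2 (...)`
    refine ⟨t * (om + 2 * (2 * om - 1) * J), 1, ?_⟩
    have h2 : D = 1 + 4 * J := by linear_combination hJ
    rw [h2, hs]
    linear_combination (-(om + 2 * (2 * om - 1) * J)) * ht
  rw [h1, squarefree_mul_iff]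
  refine ⟨IsCoprime.isRelPrime (IsCoprime.mul_right ⟨1, 1, by ring⟩ (hc om ⟨1 - om, om_mul.symm⟩)),
    prime_om.squarefree, ?_⟩
  rw [squarefree_mul_iff]
  refine ⟨IsCoprime.isRelPrime (hc _ ⟨om, by rw [mul_comm]; exact om_mul.symm⟩),
    prime_om'.squarefree, ?_⟩
  exact fun y hy => hD.1 y ((dvd_neg).1 hy)

/-- the symbols of a prime `1 + 4 x` -/
lemma sym14 {D : OO} (hD : Ad D) {P : Finset OO} (hP : IsP om D P) {x : OO}
    (hx : Prime (1 + 4 * x)) (hxP : 1 + 4 * x ∉ P) :
    qs (1 + 4 * x) (-om) = qs (1 + 4 * x) om ∧ qs (1 + 4 * x) (om - 1) = qs (1 + 4 * x) (1 - om) := by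
  obtain ⟨h1, h2, h3⟩ := ad_twist hD hP hx hxP
  obtain ⟨S, hS, hprod, rfl⟩ := prm hD hP
  have h4 := h3.sum
  have h5 := (sys_PS hS).sum
  rw [Finset.sum_insert hxP, h5] at h4
  have h6 : qs (1 + 4 * x) (-1) = 0 := by
    rw [← ns_qs]
    linear_combination h4
  have hn2 : ¬ (1 + 4 * x) ∣ 2 := by
    rintro ⟨c, hc⟩
    apply hx.not_isUnit
    refine IsUnit.of_mul_eq_one (1 - 2 * c * x) ?_
    have h7 : (1 : OO) = (1 + 4 * x) - 2 * (2 * x) := by ring
    have h8 : (1 + 4 * x) * (1 - 2 * c * x) = 1 := by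
      linear_combination (-2 * x) * hc.symm
    exact h8
  have n1 : ¬ (1 + 4 * x) ∣ (-1 : OO) := fun h =>
    hx.not_isUnit (isUnit_of_dvd_unit h isUnit_one.neg)
  have n2 : ¬ (1 + 4 * x) ∣ om := fun h => hn2 (h.trans ⟨1 - om, om_mul.symm⟩)
  have n3 : ¬ (1 + 4 * x) ∣ (1 - om) := fun h => hn2 (h.trans ⟨om, by
    rw [mul_comm]; exact om_mul.symm⟩)
  constructor
  · have e1 : (-om : OO) = -1 * om := by ring
    rw [e1, qs_mul hx hn2 n1 n2, h6, zero_add]
  · have e1 : (om - 1 : OO) = -1 * (1 - om) := by ring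
    rw [e1, qs_mul hx hn2 n1 n3, h6, zero_add]

/-- the extension of a table -/
noncomputable def ext1 (P : Finset OO) (u : P → ZMod 2) (x : OO) : ZMod 2 :=
  if h : x ∈ P then u ⟨x, h⟩ else 0

lemma ext1_mem {P : Finset OO} (u : P → ZMod 2) {x : OO} (h : x ∈ P) :
    ext1 P u x = u ⟨x, h⟩ := by
  unfold ext1
  rw [dif_pos h]

lemma TX_congr {P : Finset OO} {a a' : OO → ZMod 2} (h : ∀ p ∈ P, a p = a' p) (ξ η : ZMod 2) :
    TX P a ξ η = TX P a' ξ η := by
  unfold TX
  ext i k
  rcases i with _ | p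
  · rcases k with _ | q <;> rfl
  · rcases k with _ | q
    · rfl
    · show (if (p : OO) = q then a p + ∑ r ∈ P.erase (p : OO), qs r (p : OO) else
        qs (q : OO) (p : OO)) = if (p : OO) = q then a' p + ∑ r ∈ P.erase (p : OO), qs r (p : OO) else
        qs (q : OO) (p : OO)
      rw [h p p.2]

/-- the matrix of a table -/
noncomputable def TT (P : Finset OO) (u : Tb P → ZMod 2) : Matrix (Option P) (Option P) (ZMod 2) :=
  TX P (ext1 (Tb P) u) (u ⟨om, om_Tb P⟩) (u ⟨1 - om, om'_Tb P⟩)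

/-- the number of the tables with corank `r` -/
noncomputable def NE (P : Finset OO) (r : ℕ) : ℕ :=
  Nat.card {u : Tb P → ZMod 2 // (TT P u).rank + r = P.card + 1}

theorem ek_twist {D : OO} (hD : Ad D) {P : Finset OO} (hP : IsP om D P) {x : OO}
    (hx : Prime (1 + 4 * x)) (hxP : 1 + 4 * x ∉ P) (r : ℕ) :
    Ek (D * (1 + 4 * x)) r ↔
      (TT P fun p : Tb P => ns (1 + 4 * x) (p : OO)).rank + r = P.card + 1 := by
  obtain ⟨h1, h2, h3⟩ := ad_twist hD hP hx hxP
  obtain ⟨h4, h5⟩ := sym14 hD hP hx hxP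
  rw [ek_iff h1 h2, rank_EM hxP rfl h3, Finset.card_insert_of_notMem hxP, h4, h5]
  have h6 : TX P (fun p => qs (1 + 4 * x) p) (qs (1 + 4 * x) om) (qs (1 + 4 * x) (1 - om)) =
      TT P fun p : Tb P => ns (1 + 4 * x) (p : OO) := by
    unfold TT
    show _ = TX P (ext1 (Tb P) fun p : Tb P => ns (1 + 4 * x) (p : OO)) (ns (1 + 4 * x) om)
      (ns (1 + 4 * x) (1 - om))
    rw [ns_qs, ns_qs]
    refine TX_congr (fun p hp => ?_) _ _
    rw [ext1_mem _ (P_Tb hp), ns_qs]
  rw [h6]

/-- **the distribution** -/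
theorem dist_ek {D : OO} (hD : Ad D) {P : Finset OO} (hP : IsP om D P) (r : ℕ) :
    Tendsto (fun X : ℕ =>
      ({x : OO | (QuadraticAlgebra.norm (1 + 4 * x)).natAbs ≤ X ∧ Prime (1 + 4 * x) ∧
        Ek (D * (1 + 4 * x)) r}.ncard : ℝ) /
        ({x : OO | (QuadraticAlgebra.norm (1 + 4 * x)).natAbs ≤ X ∧ Prime (1 + 4 * x)}.ncard : ℝ))
      atTop (𝓝 ((NE P r : ℝ) / 2 ^ (P.card + 2))) := by
  have key := share_OO2 (Tb_prime hP) (Tb_sqf hD hP) (G := fun x => Ek (D * (1 + 4 * x)) r)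
    (Q := fun u => (TT P u).rank + r = P.card + 1)
    (fun x hx hxP => ek_twist hD hP hx (fun h => hxP (P_Tb h)) r)
  rw [card_Tb hD hP] at key
  exact key

end Pool.Agent.H848.BKD
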