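import Pool.Agent.H848.BKD.TwO

/-!
# The tables of the symbols of the primes `1 + 4 x`
-/

set_option autoImplicit false
set_option linter.unusedSectionVars false
set_option linter.unusedVariables false

attribute [-instance] DivisionRing.toRatAlgebra

open NumberField IsDedekindDomain Filter Topology

namespace Pool.Agent.H848.BKD

open scoped Classical

section den

open Pool.Agent.H463.PT Pool.Agent.H463.QE
open Pool.Agent.R426.QC Pool.Agent.R426.QD
open Pool.Agent.Y698 Pool.Agent.Y698.SG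
open Pool.Agent.W192.HK (sp)
open Pool.Agent.Q283.LQ (sb mon Lsq Dy)

variable {K : Type} [Field K] [NumberField K] {e : RR ≃+* 𝓞 K} {P : Finset (𝓞 K)}

lemma av_ne' (hp : ∀ p ∈ P, Prime p) (l : Fin (P.card + 1)) : av P l ≠ 0 := by
  refine Fin.cases ?_ (fun i => ?_) l
  · rw [av_zero]
    exact neg_ne_zero.2 one_ne_zero
  · rw [av_succ]
    intro h
    exact (hp _ (P.equivFin.symm i).2).ne_zero (RingOfIntegers.ext h)

include e in
/-- `-1` and the primes are independent modulo squares -/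
lemma indep' (hp : ∀ p ∈ P, Prime p) (hs : Squarefree (∏ p ∈ P, p)) (c : Fin (P.card + 1) → ZMod 2)
    (hc : IsSquare (mon (av P) c)) : c = 0 := by
  have hz2 : ∀ x : ZMod 2, x = 0 ∨ x = 1 := by decide
  obtain ⟨w, hw⟩ : ∃ w : 𝓞 K, w = ∏ i : Fin P.card,
      ((P.equivFin.symm i : P) : 𝓞 K) ^ (c i.succ).val := ⟨_, rfl⟩
  have hmon : mon (av P) c = (((-1) ^ (c 0).val * w : 𝓞 K) : K) := by
    unfold mon
    rw [Fin.prod_univ_succ, av_zero]
    show _ = algebraMap (𝓞 K) K ((-1) ^ (c 0).val * w)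
    rw [map_mul, map_pow, map_neg, map_one, hw, map_prod]
    rfl
  obtain ⟨k, hk⟩ := hc
  rw [hmon] at hk
  have hki : IsIntegral ℤ k := by
    apply IsIntegral.of_pow (n := 2) two_pos
    rw [pow_two, ← hk]
    exact RingOfIntegers.isIntegral_coe _
  obtain ⟨y, hy⟩ : ∃ y : 𝓞 K, (y : K) = k := ⟨⟨k, hki⟩, rfl⟩
  have hyy : (-1) ^ (c 0).val * w = y * y := by
    apply RingOfIntegers.ext
    rw [hk, ← hy]
    rfl
  have hwd : w ∣ ∏ p ∈ P, p := by
    have h1 : ∏ p ∈ P, p = ∏ i : Fin P.card, ((P.equivFin.symm i : P) : 𝓞 K) := by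
      rw [← Finset.prod_coe_sort P fun p => p, ← Equiv.prod_comp P.equivFin.symm]
    rw [h1, hw]
    refine Finset.prod_dvd_prod_of_dvd _ _ fun i _ => ?_
    rcases hz2 (c i.succ) with h | h
    · rw [h, ZMod.val_zero, pow_zero]
      exact one_dvd _
    · rw [h, ZMod.val_one, pow_one]
  have hwy : w = (-1) ^ (c 0).val * (y * y) := by
    rw [← hyy, ← mul_assoc, ← pow_add, ← two_mul, pow_mul]
    norm_num
  have hyw : y * y ∣ w := by
    rw [hwy]
    exact Dvd.intro_left _ rfl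
  have hyu : IsUnit y := hs y (hyw.trans hwd)
  have hwu : IsUnit w := by
    rw [hwy]
    exact (isUnit_one.neg.pow _).mul (hyu.mul hyu)
  have hci : ∀ i : Fin P.card, c i.succ = 0 := by
    intro i
    rcases hz2 (c i.succ) with h | h
    · exact h
    · exfalso
      apply (hp _ (P.equivFin.symm i).2).not_isUnit
      refine isUnit_of_dvd_unit ?_ hwu
      rw [hw]
      refine dvd_trans ?_ (Finset.dvd_prod_of_mem _ (Finset.mem_univ i))
      rw [h, ZMod.val_one, pow_one]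
  have hw1 : w = 1 := by
    rw [hw]
    refine Finset.prod_eq_one fun i _ => ?_
    rw [hci i, ZMod.val_zero, pow_zero]
  have h0 : c 0 = 0 := by
    rcases hz2 (c 0) with h | h
    · exact h
    · exfalso
      rw [hw1, h, ZMod.val_one, pow_one, mul_one] at hyy
      obtain ⟨u, rfl⟩ := e.surjective y
      have hu : IsUnit u := (MulEquiv.isUnit_map e.toMulEquiv).1 hyu
      have h3 : e (-1) = e (u * u) := by rw [map_neg, map_one, map_mul]; exact hyy
      have h4 := e.injective h3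
      have h5 : (-1 : RR) = 1 := by
        rcases Pool.Agent.Y698.isUnit_iff.1 hu with h6 | h6
        · rw [h4, h6, one_mul]
        · rw [h4, h6]; ring
      have h6 := congrArg r4 h5
      rw [map_neg, map_one] at h6
      exact absurd h6 (by decide)
  funext l
  refine Fin.cases h0 (fun i => hci i) l

/-- all the primes `1 + 4 x` -/
lemma class_all' {v : HeightOneSpectrum (𝓞 K)} (hd : ¬ Dy v) (e : RR ≃+* 𝓞 K) :
    QG (fun _ => True) v ↔ sb v (av P 0) = 0 := by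
  obtain ⟨ϖ, hϖ, rfl⟩ := exists_pm e hd
  rw [av_zero, sb_neg_one hϖ]
  constructor
  · rintro ⟨x, h1, -, h3⟩
    obtain ⟨x, rfl⟩ := e.surjective x
    rw [← e14] at h1 h3
    have h4 : Prime (1 + 4 * x) := (MulEquiv.prime_iff e.toMulEquiv).1 h1
    have h5 : plc e hϖ.pr = plc e h4 := HeightOneSpectrum.ext h3
    rw [plc_eq] at h5
    obtain ⟨u, hu⟩ := h5
    have h6 : ϖ = 1 + 4 * x := by
      rcases Pool.Agent.Y698.isUnit_iff.1 u.isUnit with h6 | h6
      · rw [← hu, h6, mul_one]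
      · exfalso
        rw [h6, mul_neg_one] at hu
        have h7 := r4_m4 (ϖ := 1 + 4 * x) ⟨x, rfl⟩
        rw [← hu, map_neg, hϖ.r4] at h7
        exact absurd h7 (by decide)
    exact tp_pm ⟨hϖ.pr, x, h6⟩
  · intro h0
    have hpm : Pm ϖ := by
      rcases hϖ.cases with h1 | ⟨p, A, B, h1, -⟩
      · exact h1
      · rw [h1.tp] at h0
        exact absurd h0 one_ne_zero
    obtain ⟨x, hx⟩ := hpm.m4
    refine ⟨e x, ?_, trivial, ?_⟩
    · rw [← e14, ← hx]
      exact (MulEquiv.prime_iff e.toMulEquiv).2 hϖ.pr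
    · rw [← e14, ← hx]
      rfl

/-- the class -/
lemma class_iff2 (e : RR ≃+* 𝓞 K) {G : 𝓞 K → Prop} {Q : (P → ZMod 2) → Prop}
    (hG : ∀ x : 𝓞 K, Prime (1 + 4 * x) → 1 + 4 * x ∉ P →
      (G x ↔ Q fun p : P => ns (1 + 4 * x) (p : 𝓞 K)))
    {v : HeightOneSpectrum (𝓞 K)} (hd : ¬ Dy v) (hv : ∀ p ∈ P, p ∉ v.asIdeal) :
    QG G v ↔ sb v (av P 0) = 0 ∧ Q fun p : P => sb v (av P (P.equivFin p).succ) := by
  obtain ⟨ϖ, hϖ, rfl⟩ := exists_pm e hd
  rw [av_zero, sb_neg_one hϖ]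
  have hsym : ∀ p : P, sb (plc e hϖ.pr : HeightOneSpectrum (𝓞 K)) (av P (P.equivFin p).succ) =
      ns (e ϖ) (p : 𝓞 K) := by
    intro p
    rw [av_succ, Equiv.symm_apply_apply]
    obtain ⟨q, hq⟩ := e.surjective (p : 𝓞 K)
    have h1 := hv p p.2
    rw [← hq, plc_mem] at h1
    rw [← hq, ns_e]
    exact sb_plc hϖ h1
  have hfun : (fun p : P => sb (plc e hϖ.pr : HeightOneSpectrum (𝓞 K))
      (av P (P.equivFin p).succ)) = fun p : P => ns (e ϖ) (p : 𝓞 K) := funext hsym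
  rw [hfun]
  have hm4 : tp ϖ = 0 → Pm ϖ := by
    intro h0
    rcases hϖ.cases with h1 | ⟨p, A, B, h1, -⟩
    · exact h1
    · rw [h1.tp] at h0
      exact absurd h0 one_ne_zero
  have hnP : e ϖ ∉ P := by
    intro h1
    apply hv (e ϖ) h1
    rw [plc_mem]
  constructor
  · rintro ⟨x, h1, h2, h3⟩
    obtain ⟨x, rfl⟩ := e.surjective x
    rw [← e14] at h1 h3
    have h4 : Prime (1 + 4 * x) := (MulEquiv.prime_iff e.toMulEquiv).1 h1
    have h5 : plc e hϖ.pr = plc e h4 := HeightOneSpectrum.ext h3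
    rw [plc_eq] at h5
    obtain ⟨u, hu⟩ := h5
    have h6 : ϖ = 1 + 4 * x := by
      rcases Pool.Agent.Y698.isUnit_iff.1 u.isUnit with h6 | h6
      · rw [← hu, h6, mul_one]
      · exfalso
        rw [h6, mul_neg_one] at hu
        have h7 := r4_m4 (ϖ := 1 + 4 * x) ⟨x, rfl⟩
        rw [← hu, map_neg, hϖ.r4] at h7
        exact absurd h7 (by decide)
    have hpm : Pm ϖ := ⟨hϖ.pr, x, h6⟩
    refine ⟨tp_pm hpm, ?_⟩
    have h8 := (hG (e x) (by rw [← e14]; exact h1) (by rw [← e14, ← h6]; exact hnP)).1 h2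
    rw [← e14, ← h6] at h8
    exact h8
  · rintro ⟨h0, h1⟩
    have hpm := hm4 h0
    obtain ⟨x, hx⟩ := hpm.m4
    have h2 : Prime (1 + 4 * e x) := by
      rw [← e14, ← hx]
      exact (MulEquiv.prime_iff e.toMulEquiv).2 hϖ.pr
    refine ⟨e x, h2, ?_, ?_⟩
    · refine (hG (e x) h2 ?_).2 ?_
      · rw [← e14, ← hx]
        exact hnP
      · rw [← e14, ← hx]
        exact h1
    · rw [← e14, ← hx]
      rfl

/-- the finite set of the exceptional places -/
lemma fin_exc' (hp : ∀ p ∈ P, Prime p) :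
    {v : HeightOneSpectrum (𝓞 K) | Dy v ∨ ∃ p ∈ P, p ∈ v.asIdeal}.Finite := by
  have h1 : ∀ x : 𝓞 K, x ≠ 0 → {v : HeightOneSpectrum (𝓞 K) | x ∈ v.asIdeal}.Finite := by
    intro x hx
    refine (Ideal.finite_factors (I := Ideal.span {x})
      (fun h => hx (Ideal.span_singleton_eq_bot.1 h))).subset ?_
    intro v hv
    show v.asIdeal ∣ Ideal.span {x}
    rw [Ideal.dvd_span_singleton]
    exact hv
  have h2 : {v : HeightOneSpectrum (𝓞 K) | Dy v ∨ ∃ p ∈ P, p ∈ v.asIdeal} ⊆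
      {v : HeightOneSpectrum (𝓞 K) | (2 : 𝓞 K) ∈ v.asIdeal} ∪
        ⋃ p ∈ P, {v : HeightOneSpectrum (𝓞 K) | p ∈ v.asIdeal} := by
    rintro v (hv | ⟨p, hp, hv⟩)
    · exact Or.inl hv
    · right
      rw [Set.mem_iUnion₂]
      exact ⟨p, hp, hv⟩
  refine ((h1 2 two_ne_zero).union ?_).subset h2
  refine Set.Finite.biUnion P.finite_toSet fun p hpP => h1 p ?_
  exact (hp p hpP).ne_zero

/-- **the proportions** -/
theorem share2 (e : RR ≃+* 𝓞 K) (hp : ∀ p ∈ P, Prime p) (hs : Squarefree (∏ p ∈ P, p))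
    {G : 𝓞 K → Prop} {Q : (P → ZMod 2) → Prop}
    (hG : ∀ x : 𝓞 K, Prime (1 + 4 * x) → 1 + 4 * x ∉ P →
      (G x ↔ Q fun p : P => ns (1 + 4 * x) (p : 𝓞 K))) :
    Tendsto (fun X : ℕ =>
      ({x : 𝓞 K | (Algebra.norm ℤ (1 + 4 * x)).natAbs ≤ X ∧ Prime (1 + 4 * x) ∧ G x}.ncard : ℝ) /
        ({x : 𝓞 K | (Algebra.norm ℤ (1 + 4 * x)).natAbs ≤ X ∧ Prime (1 + 4 * x)}.ncard : ℝ)) atTop
      (𝓝 ((Nat.card {u : P → ZMod 2 // Q u} : ℝ) / 2 ^ P.card)) := by
  have hE := fin_exc' hp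
  have hc1 := Dn.congr (dn_class (av P) (av_ne' hp) (indep' (e := e) hp hs)
    (Finset.univ.filter fun t : Fin (P.card + 1) → ZMod 2 => t 0 = 0 ∧
      Q fun p : P => t (P.equivFin p).succ)) (Q' := QG G) _ hE (fun v hv => by
      have h1 : ¬ Dy v := fun h => hv (Or.inl h)
      have h2 : ∀ p ∈ P, p ∉ v.asIdeal := fun p hp h => hv (Or.inr ⟨p, hp, h⟩)
      rw [class_iff2 e hG h1 h2, Finset.mem_filter]
      exact and_iff_right (Finset.mem_univ _))
  have hc0 := Dn.congr (dn_class (av P) (av_ne' hp) (indep' (e := e) hp hs)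
    (Finset.univ.filter fun t : Fin (P.card + 1) → ZMod 2 => t 0 = 0))
    (Q' := QG fun _ => True) _ hE (fun v hv => by
      have h1 : ¬ Dy v := fun h => hv (Or.inl h)
      rw [class_all' (P := P) h1 e, Finset.mem_filter]
      exact and_iff_right (Finset.mem_univ _))
  rw [card_tables' P Q] at hc1
  rw [card_zero] at hc0
  have h1 := Dn.div hc1 hc0 (by positivity)
  have h2 : (Nat.card {u : P → ZMod 2 // Q u} : ℝ) /
      2 ^ (P.card + 1) / (((2 ^ P.card : ℕ) : ℝ) / 2 ^ (P.card + 1)) =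
      (Nat.card {u : P → ZMod 2 // Q u} : ℝ) / 2 ^ P.card := by
    push_cast
    field_simp
  rw [h2] at h1
  refine h1.congr fun X => ?_
  rw [← cnt e G X, ← cnt e (fun _ => True) X]
  simp only [and_true]

end den

/-! ### In `ℤ[ω]` -/

open Pool.Agent.R384
open Pool.Agent.H463.QE (ns)

/-- **the proportions** -/
theorem share_OO2 {P : Finset OO} (hp : ∀ p ∈ P, Prime p) (hs : Squarefree (∏ p ∈ P, p))
    {G : OO → Prop} {Q : (P → ZMod 2) → Prop} (hG : ∀ x : OO, Prime (1 + 4 * x) → 1 + 4 * x ∉ P →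
      (G x ↔ Q fun p : P => ns (1 + 4 * x) (p : OO))) :
    Tendsto (fun X : ℕ =>
      ({x : OO | (QuadraticAlgebra.norm (1 + 4 * x)).natAbs ≤ X ∧ Prime (1 + 4 * x) ∧
        G x}.ncard : ℝ) /
        ({x : OO | (QuadraticAlgebra.norm (1 + 4 * x)).natAbs ≤ X ∧ Prime (1 + 4 * x)}.ncard : ℝ))
      atTop (𝓝 ((Nat.card {u : P → ZMod 2 // Q u} : ℝ) / 2 ^ P.card)) := by
  obtain ⟨w, hw⟩ := exists_w
  have := nf_KK hw
  obtain ⟨e, -⟩ := exists_psi hw
  set ψ : OO ≃+* 𝓞 (Pool.Agent.Y715.Gi.KK w) := phi.trans e with hψ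
  have hp' : ∀ p ∈ P.image ψ, Prime p := by
    intro p hpp
    obtain ⟨q, hq, rfl⟩ := Finset.mem_image.1 hpp
    exact (MulEquiv.prime_iff ψ.toMulEquiv).2 (hp q hq)
  have hs' : Squarefree (∏ p ∈ P.image ψ, p) := by
    rw [Finset.prod_image (fun a _ b _ h => ψ.injective h), ← map_prod]
    intro x hx
    obtain ⟨x, rfl⟩ := ψ.surjective x
    rw [← map_mul, map_dvd_iff ψ] at hx
    exact (MulEquiv.isUnit_map ψ.toMulEquiv).2 (hs x hx)
  let ε : P ≃ ↥(P.image ψ) :=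
    Equiv.ofBijective (fun p => ⟨ψ p, Finset.mem_image_of_mem _ p.2⟩)
      ⟨fun p q h => Subtype.ext (ψ.injective (congrArg Subtype.val h)), fun ⟨p, hp⟩ => by
        obtain ⟨q, hq, rfl⟩ := Finset.mem_image.1 hp
        exact ⟨⟨q, hq⟩, rfl⟩⟩
  have key := share2 e hp' hs' (G := fun x => G (ψ.symm x)) (Q := fun u => Q (u ∘ ε)) ?_
  · have hcard : (Nat.card {u : ↥(P.image ψ) → ZMod 2 //
        Q (u ∘ ε)}) = Nat.card {u : P → ZMod 2 // Q u} := by
      refine Nat.card_congr ⟨fun u => ⟨u.1 ∘ ε, u.2⟩, fun u => ⟨u.1 ∘ ε.symm, ?_⟩, fun u => ?_,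
        fun u => ?_⟩
      · have : (u.1 ∘ ε.symm) ∘ ε = u.1 := by
          funext p
          simp
        rw [this]
        exact u.2
      · apply Subtype.ext
        funext p
        simp
      · apply Subtype.ext
        funext p
        simp
    rw [hcard, Finset.card_image_of_injective _ ψ.injective] at key
    refine key.congr fun X => ?_
    have himg : ∀ H : OO → Prop, {x : 𝓞 (Pool.Agent.Y715.Gi.KK w) |
        (Algebra.norm ℤ (1 + 4 * x)).natAbs ≤ X ∧ Prime (1 + 4 * x) ∧ H (ψ.symm x)}.ncard =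
        {x : OO | (QuadraticAlgebra.norm (1 + 4 * x)).natAbs ≤ X ∧ Prime (1 + 4 * x) ∧
          H x}.ncard := by
      intro H
      rw [← Set.ncard_image_of_injective _ ψ.injective]
      congr 1
      ext y
      obtain ⟨x, rfl⟩ := ψ.surjective y
      have h4 : Prime (ψ (1 + 4 * x)) ↔ Prime (1 + 4 * x) := MulEquiv.prime_iff ψ.toMulEquiv
      simp only [Set.mem_ofPred_eq, Set.mem_image]
      rw [← psi14 ψ, norm_psi, h4, ψ.symm_apply_apply]
      constructor
      · intro h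
        exact ⟨x, h, rfl⟩
      · rintro ⟨x', h, hx⟩
        rwa [← ψ.injective hx]
    have h1 := himg G
    have h2 := himg fun _ => True
    simp only [and_true] at h2
    rw [h1, h2]
  · intro x hx hxP
    obtain ⟨x, rfl⟩ := ψ.surjective x
    rw [ψ.symm_apply_apply]
    rw [← psi14 ψ] at hx hxP ⊢
    have h4 : Prime (ψ (1 + 4 * x)) ↔ Prime (1 + 4 * x) := MulEquiv.prime_iff ψ.toMulEquiv
    rw [hG x (h4.1 hx) (fun h => hxP (Finset.mem_image_of_mem _ h))]
    have h5 : (fun p : P => ns (1 + 4 * x) (p : OO)) =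
        (fun p : ↥(P.image ψ) =>
          ns (ψ (1 + 4 * x)) (p : 𝓞 (Pool.Agent.Y715.Gi.KK w))) ∘ ε := by
      funext p
      show _ = ns (ψ (1 + 4 * x)) (ψ p)
      rw [ns_psi]
    rw [h5]

end Pool.Agent.H848.BKD
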