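import Pool.Agent.H848.BKD.Bor
import Pool.Agent.H848.BKD.Tab
import Pool.Agent.H848.BKD.MainGD

/-!
# The matrix of the even weights
-/

set_option autoImplicit false
set_option linter.unusedSectionVars false
set_option linter.unusedVariables false

namespace Pool.Agent.H848.BKD

open Pool.Agent.R384
open Pool.Agent.NH57.BK Pool.Agent.NH57.BK.AlgP
open Pool.Agent.NH57.BG (e6 e3 S_SUPO)
open Pool.Agent.NH57.BH (dO gO aa)
open Pool.Agent.H463.QE (ns MP IsP Fs)
open Pool.Agent.H463.PT (Sys)
open QuadraticAlgebra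

open scoped Classical

/-- the class at `ω` -/
noncomputable def Xs (P : Finset OO) : ZMod 2 := ∑ p ∈ P, qs p (-om)

/-- the class at `1 - ω` -/
noncomputable def Ys (P : Finset OO) : ZMod 2 := ∑ p ∈ P, qs p (om - 1)

/-- the border row, with the class `X` -/
noncomputable def dlb (X : ZMod 2) (p : OO) : ZMod 2 := qs p (-om) + X * qs p (-1)

/-- the border column, with the class `Y` -/
noncomputable def glb (Y : ZMod 2) (p : OO) : ZMod 2 := qs p (om - 1) + Y * qs p (-1)

/-- the matrix of the even weights -/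
noncomputable def EM (P : Finset OO) : Matrix (Option P) (Option P) (ZMod 2) :=
  BMX P (glb (Ys P)) (dlb (Xs P)) (fun _ => 0) (1 + Xs P * Ys P)

section sys

variable {P : Finset OO} (h : Sys P)

include h in
lemma sys_sum : ∑ p ∈ P, qs p (-1) = 1 := by
  have := h.sum
  simp only [ns_qs] at this
  exact this

include h in
lemma sys_g : ∑ p ∈ P, glb (Ys P) p = 0 := by
  have h5 : ∀ y : ZMod 2, y + y = 0 := by decide
  unfold glb
  rw [Finset.sum_add_distrib, ← Finset.mul_sum, sys_sum h, mul_one]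
  exact h5 _

include h in
lemma sys_d : ∑ p ∈ P, dlb (Xs P) p = 0 := by
  have h5 : ∀ y : ZMod 2, y + y = 0 := by decide
  unfold dlb
  rw [Finset.sum_add_distrib, ← Finset.mul_sum, sys_sum h, mul_one]
  exact h5 _

include h in
lemma sys_col (q : OO) (hq : q ∈ P) : ∑ p ∈ P, (qs q p + qs p q) = 0 := by
  have h5 : ∀ y : ZMod 2, y + y = 0 := by decide
  have h6 : ∀ y : ZMod 2, y * (1 - y) = 0 := by decide
  rw [← Finset.add_sum_erase P _ hq, h5, zero_add]
  have h1 : ∑ p ∈ P.erase q, (qs q p + qs p q) = ∑ p ∈ P.erase q, qs q (-1) * qs p (-1) := by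
    refine Finset.sum_congr rfl fun p hp => ?_
    have h2 := h.rcp p (Finset.mem_of_mem_erase hp) q hq (Finset.ne_of_mem_erase hp)
    simp only [ns_qs] at h2
    rw [h2, mul_comm]
  have h3 := Finset.add_sum_erase P (fun p => qs p (-1)) hq
  rw [sys_sum h] at h3
  rw [h1, ← Finset.mul_sum]
  have h4 : ∑ x ∈ P.erase q, qs x (-1) = 1 - qs q (-1) := by linear_combination h3
  rw [h4]
  exact h6 _

end sys

/-- the twisted bordered matrix -/
noncomputable def TX (P : Finset OO) (a : OO → ZMod 2) (ξ η : ZMod 2) :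
    Matrix (Option P) (Option P) (ZMod 2) :=
  BMX P (glb (Ys P + η)) (dlb (Xs P + ξ)) a (1 + (Xs P + ξ) * (Ys P + η))

/-- **the rank of the twist** -/
theorem rank_EM {P P' : Finset OO} {s : OO} (hs : s ∉ P) (hP : P' = insert s P) (h : Sys P') :
    (EM P').rank = (TX P (fun p => qs s p) (qs s (-om)) (qs s (om - 1))).rank := by
  have hX : Xs P' = Xs P + qs s (-om) := by
    unfold Xs
    rw [hP, Finset.sum_insert hs, add_comm]
  have hY : Ys P' = Ys P + qs s (om - 1) := by
    unfold Ys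
    rw [hP, Finset.sum_insert hs, add_comm]
  have key := rank_bmx hs hP (c := 1 + Xs P' * Ys P') (sys_col h) (sys_g h) (sys_d h)
  unfold EM TX
  rw [key, hX, hY]

/-! ### The rank of the matrix of the theorem -/

section link

variable {S : Finset OO} (hS : PS S)

lemma om1 : (-(1 - om) : OO) = om - 1 := by ring

lemma qs_s7_om : qs s7 (-om) = 1 := by
  have h1 : ¬ qs s7 (-om) = 0 := by
    rw [qs_zero]
    rintro ⟨y, c, hc⟩
    have h7 : (4 : ZMod 7) ^ 2 = 4 - 2 := by decide
    have h2 := congrArg (em h7) hc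
    have h3 : em h7 s7 = 0 := by rw [em_apply]; simp only [s7]; decide
    have h4 : em h7 om = 4 := by rw [em_apply]; simp only [om]; decide
    rw [map_sub, map_neg, h4, map_pow, map_mul, h3, zero_mul] at h2
    revert h2
    generalize em h7 y = z
    revert z
    decide
  revert h1
  generalize qs s7 (-om) = t
  revert t
  decide

lemma qs_s7_om' : qs s7 (om - 1) = 1 := by
  have h1 : ¬ qs s7 (om - 1) = 0 := by
    rw [qs_zero]
    rintro ⟨y, c, hc⟩
    have h7 : (4 : ZMod 7) ^ 2 = 4 - 2 := by decide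
    have h2 := congrArg (em h7) hc
    have h3 : em h7 s7 = 0 := by rw [em_apply]; simp only [s7]; decide
    have h4 : em h7 om = 4 := by rw [em_apply]; simp only [om]; decide
    rw [map_sub, map_sub, h4, map_one, map_pow, map_mul, h3, zero_mul] at h2
    revert h2
    generalize em h7 y = z
    revert z
    decide
  revert h1
  generalize qs s7 (om - 1) = t
  revert t
  decide

include hS in
lemma Xs_P : Xs (insert (-s7) S) = 1 + Xs S := by
  unfold Xs
  rw [Finset.sum_insert (nS7 hS), qs_neg_mod, qs_s7_om]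

include hS in
lemma Ys_P : Ys (insert (-s7) S) = 1 + Ys S := by
  unfold Ys
  rw [Finset.sum_insert (nS7 hS), qs_neg_mod, qs_s7_om']

/-- the classes of products -/
lemma cls {T : Finset OO} (hT : ∀ q ∈ T, Pp q) :
    ((em e6 (∏ q ∈ T, q) = 1 ∧ ∑ q ∈ T, qs q (-om) = 0) ∨
      (em e6 (∏ q ∈ T, q) = 5 ∧ ∑ q ∈ T, qs q (-om) = 1)) ∧
    (((em e3 (∏ q ∈ T, q) = 1 ∨ em e3 (∏ q ∈ T, q) = 7) ∧ ∑ q ∈ T, qs q (om - 1) = 0) ∨
      ((em e3 (∏ q ∈ T, q) = 3 ∨ em e3 (∏ q ∈ T, q) = 5) ∧ ∑ q ∈ T, qs q (om - 1) = 1)) := by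
  induction T using Finset.induction_on with
  | empty =>
    refine ⟨Or.inl ⟨?_, ?_⟩, Or.inl ⟨Or.inl ?_, ?_⟩⟩ <;> simp
  | insert i T hi ih =>
    obtain ⟨h1, h2⟩ := ih fun q hq => hT q (Finset.mem_insert_of_mem hq)
    obtain ⟨h3, h4⟩ := t_SUPO i (hT i (Finset.mem_insert_self _ _))
    rw [om1] at h4
    rw [Finset.prod_insert hi, Finset.sum_insert hi, Finset.sum_insert hi, map_mul, map_mul]
    revert h1 h2 h3 h4
    generalize em e6 (∏ q ∈ T, q) = a
    generalize ∑ q ∈ T, qs q (-om) = b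
    generalize em e3 (∏ q ∈ T, q) = c
    generalize ∑ q ∈ T, qs q (om - 1) = d
    generalize em e6 i = a'
    generalize qs i (-om) = b'
    generalize em e3 i = c'
    generalize qs i (om - 1) = d'
    intro h1 h2 h3 h4
    constructor
    · clear h2 h4
      rcases h1 with ⟨rfl, rfl⟩ | ⟨rfl, rfl⟩ <;> rcases h3 with ⟨rfl, rfl⟩ | ⟨rfl, rfl⟩ <;> decide
    · clear h1 h3
      rcases h2 with ⟨rfl | rfl, rfl⟩ | ⟨rfl | rfl, rfl⟩ <;>
        rcases h4 with ⟨rfl | rfl, rfl⟩ | ⟨rfl | rfl, rfl⟩ <;> decide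

include hS in
lemma px_of : PX (Xs S) (Ys S) S := by
  obtain ⟨h1, h2⟩ := cls hS.pp
  refine ⟨hS, ?_, ?_⟩
  · unfold Xs
    rcases h1 with ⟨h, h'⟩ | ⟨h, h'⟩ <;> rw [h, h'] <;> decide
  · have h3 : em e3 (∏ q ∈ S, q) = 1 ∨ em e3 (∏ q ∈ S, q) = 5 := by
      obtain ⟨c, hc⟩ := hS.one
      have h4 := congrArg (em e3) hc
      rw [map_sub, map_one, map_mul, map_ofNat] at h4
      revert h4
      generalize em e3 (∏ q ∈ S, q) = a
      generalize em e3 c = b
      revert a b
      decide
    unfold Ys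
    rcases h2 with ⟨h, h'⟩ | ⟨h, h'⟩
    · rw [h']
      rcases h3 with h3 | h3
      · rw [h3]; decide
      · exfalso
        rw [h3] at h
        revert h
        decide
    · rw [h']
      rcases h3 with h3 | h3
      · exfalso
        rw [h3] at h
        revert h
        decide
      · rw [h3]; decide

include hS in
lemma sys_PS : Sys (insert (-s7) S) := by
  refine ⟨?_, fun p hp r hr hpr => ?_⟩
  · rw [Finset.sum_insert (nS7 hS), ns_qs, qs_neg_mod, qs_s7_neg]
    have h1 : ∑ q ∈ S, ns q (-1) = 0 := by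
      rw [← sum_t' hS]
      refine Finset.sum_congr rfl fun q hq => ?_
      rw [ns_qs, (t_REC.2 q (hS.pp q hq)).2]
    rw [h1, add_zero]
  · exact rec_P hS hp hr hpr

include hS in
/-- **the corank of the theorem** -/
theorem crkX_eq : crkX (Xs S) (Ys S) S = (insert (-s7) S).card - (EM (insert (-s7) S)).rank := by
  have h1 := rank_EM (nS7 hS) rfl (sys_PS hS)
  have h2 : TX S (fun p => qs (-s7) p) (qs (-s7) (-om)) (qs (-s7) (om - 1)) =
      NX (Xs S) (Ys S) S := by
    unfold TX
    rw [qs_neg_mod, qs_neg_mod, qs_s7_om, qs_s7_om']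
    ext i k
    have hd : ∀ q ∈ S, dlb (Xs S + 1) q = dO (Xs S) q := by
      intro q hq
      unfold dlb dO
      rw [(t_REC.2 q (hS.pp q hq)).2, add_comm (Xs S) 1]
    have hg : ∀ q ∈ S, glb (Ys S + 1) q = gO (Ys S) q := by
      intro q hq
      unfold glb gO
      rw [(t_REC.2 q (hS.pp q hq)).2, add_comm (Ys S) 1, om1]
    rcases i with _ | p
    · rcases k with _ | q
      · show 1 + (Xs S + 1) * (Ys S + 1) = aa (Xs S) (Ys S)
        generalize Xs S = x
        generalize Ys S = y
        revert x y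
        unfold aa
        decide
      · exact hd q q.2
    · rcases k with _ | q
      · exact hg p p.2
      · show (if (p : OO) = q then qs (-s7) p + ∑ r ∈ S.erase (p : OO), qs r (p : OO) else
          qs (q : OO) (p : OO)) = (if (p : OO) = q then qs s7 p + ∑ τ ∈ S, qs τ (p : OO) else 0) +
          qs (q : OO) (p : OO)
        by_cases h : (p : OO) = q
        · rw [if_pos h, if_pos h, qs_neg_mod, ← h, ← Finset.add_sum_erase S _ p.2, qs_self,
            zero_add, add_zero]
        · rw [if_neg h, if_neg h, zero_add]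
  rw [h2] at h1
  unfold crkX
  rw [h1, Finset.card_insert_of_notMem (nS7 hS)]

end link

end Pool.Agent.H848.BKD
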