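import Pool.Agent.H848.BKD.Tws

/-!
# The field `ℚ(√-7)`
-/

set_option autoImplicit false

open NumberField

namespace Pool.Agent.H848.BKD

/-! ### The field -/

section fld

open Polynomial Pool.Agent.Y715.Gi

lemma no_root (x : ℚ) : x ^ 2 - x + 2 ≠ 0 := by
  intro h
  nlinarith [sq_nonneg (2 * x - 1)]

variable {w : QB} (hw : w ^ 2 = w - 2)

include hw

lemma fr_KK : Module.finrank ℚ (KK w) = 2 := by
  have hp : (X ^ 2 - X + C 2 : ℚ[X]).Monic := by monicity!
  have hd : (X ^ 2 - X + C 2 : ℚ[X]).natDegree = 2 := by compute_degree!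
  have hirr : Irreducible (X ^ 2 - X + C 2 : ℚ[X]) := by
    refine (hp.irreducible_iff_roots_eq_zero_of_degree_le_three (by omega) (by omega)).2 ?_
    refine Multiset.eq_zero_of_forall_notMem fun x hx => ?_
    have h1 := (mem_roots'.1 hx).2
    rw [IsRoot.def, eval_add, eval_sub, eval_pow, eval_X, eval_C] at h1
    exact no_root x h1
  have h0 : aeval w (X ^ 2 - X + C 2 : ℚ[X]) = 0 := by
    rw [map_add, map_sub, map_pow, aeval_X, aeval_C, hw, map_ofNat]
    ring
  have hm := minpoly.eq_of_irreducible_of_monic hirr h0 hp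
  have hint : IsIntegral ℚ w := ⟨_, hp, by rw [← aeval_def]; exact h0⟩
  rw [IntermediateField.adjoin.finrank hint, ← hm, hd]

lemma nf_KK : NumberField (KK w) where
  to_charZero := inferInstance
  to_finiteDimensional := by
    apply FiniteDimensional.of_finrank_pos
    rw [fr_KK hw]
    norm_num

end fld

lemma exists_w : ∃ w : Pool.Agent.Y715.Gi.QB, w ^ 2 = w - 2 := by
  obtain ⟨s, hs⟩ : ∃ s : Pool.Agent.Y715.Gi.QB, s ^ 2 = -7 :=
    IsAlgClosed.exists_pow_nat_eq _ (by norm_num)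
  refine ⟨(1 + s) / 2, ?_⟩
  field_simp
  linear_combination hs

/-- the ring of integers of `ℚ(w)` -/
lemma exists_psi {w : Pool.Agent.Y715.Gi.QB} (hw : w ^ 2 = w - 2)
    [NumberField (Pool.Agent.Y715.Gi.KK w)] :
    ∃ e : Pool.Agent.Y698.RR ≃+* 𝓞 (Pool.Agent.Y715.Gi.KK w),
      ∀ z : Pool.Agent.R384.OO, (((e (phi z) : 𝓞 (Pool.Agent.Y715.Gi.KK w)) :
        Pool.Agent.Y715.Gi.KK w) : Pool.Agent.Y715.Gi.QB) = Pool.Agent.R384.em hw z := by
  have hg : (⟨w, IntermediateField.mem_adjoin_simple_self ℚ w⟩ : Pool.Agent.Y715.Gi.KK w) ^ 2 =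
      (⟨w, IntermediateField.mem_adjoin_simple_self ℚ w⟩ : Pool.Agent.Y715.Gi.KK w) - 2 :=
    Subtype.ext hw
  have hint : IsIntegral ℤ (⟨w, IntermediateField.mem_adjoin_simple_self ℚ w⟩ :
      Pool.Agent.Y715.Gi.KK w) := by
    refine ⟨Polynomial.X ^ 2 - Polynomial.X + Polynomial.C 2, by monicity!, ?_⟩
    rw [← Polynomial.aeval_def, map_add, map_sub, map_pow, Polynomial.aeval_X,
      Polynomial.aeval_C, hg, map_ofNat]
    ring
  obtain ⟨e, he, -⟩ := Pool.Agent.H463.QE.exists_e (K := Pool.Agent.Y715.Gi.KK w) (fr_KK hw)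
    (a := ⟨_, hint⟩) (RingOfIntegers.ext hg)
  refine ⟨e, fun z => ?_⟩
  have h1 : phi z = (z.re : Pool.Agent.Y698.RR) + z.im * Pool.Agent.Y698.aR := by
    rw [phi_apply, Pool.Agent.R384.em_apply]
  rw [h1, map_add, map_mul, map_intCast, map_intCast, he, Pool.Agent.R384.em_apply]
  push_cast
  rfl

end Pool.Agent.H848.BKD
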