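import Pool.Agent.H848.BKD.All

/-!
# The characters `κ^a κ'^b`, `a + b` odd: all weights and all Tate twists
-/

set_option autoImplicit false
set_option linter.unusedSectionVars false
set_option linter.unusedVariables false

namespace Pool.Agent.H848.BKD

open Pool.Agent.R384
open Pool.Agent.NH57.BK
open Pool.Agent.NH57.BK.Mq78
open Pool.Agent.NH57.BG Pool.Agent.NH57.BH
open Pool.Agent.Y715.Red Pool.Agent.Y715.Nr Pool.Agent.W237.RK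
open Pool.Agent.Y715.Gi (QB KK GK)
open Pool.Agent.Y715.Df (Cmp)

open scoped Classical

variable {i₀ : QB} (hi : i₀ ^ 2 = i₀ - 2)

lemma mul_sq_congr (u v : ℤ_[2]ˣ) : (8 : ℤ_[2]) ∣ ((u * v ^ 2 : ℤ_[2]ˣ) : ℤ_[2]) - u := by
  have h := dvd_mul_of_dvd_right (C8P.sq_unit v) (u : ℤ_[2])
  have e : ((u * v ^ 2 : ℤ_[2]ˣ) : ℤ_[2]) - u = (u : ℤ_[2]) * ((v : ℤ_[2]) ^ 2 - 1) := by
    rw [Units.val_mul, Units.val_pow_eq_pow_val]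
    ring
  rw [e]
  exact h

/-- the square of a character does not change the character modulo eight -/
theorem c8_sq {χ η : GK i₀ →* ℤ_[2]ˣ} {m : OO} {r : QB} {ϖ' : OO} (c8 : C8 hi χ m r ϖ')
    (hη : Continuous η)
    (hin : ∀ (p : ℕ) [Fact p.Prime] (ι : QB →ₐ[ℚ] PadicAlgCl p) (τ : Au p) (σ : GK i₀),
      p ≠ 2 → Cmp ι τ σ → Inert τ → (η σ) ^ 2 = 1) : C8 hi (χ * η ^ 2) m r ϖ' := by
  have hap : ∀ σ, (χ * η ^ 2) σ = χ σ * (η σ) ^ 2 := fun σ => rfl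
  have h48 : ∀ z : ℤ_[2], (8 : ℤ_[2]) ∣ z → (4 : ℤ_[2]) ∣ z := fun z hz =>
    dvd_trans ⟨2, by norm_num⟩ hz
  refine ⟨⟨?_, c8.cd.hr, ?_, ?_, ?_⟩, ?_, ?_⟩
  · have h1 : Continuous fun σ => χ σ * (η σ) ^ 2 := c8.cd.cont.mul (hη.pow 2)
    exact h1
  · intro σ h
    have h1 := dvd_add (h48 _ (mul_sq_congr (χ σ) (η σ))) (c8.cd.one σ h)
    have e : ((χ σ * η σ ^ 2 : ℤ_[2]ˣ) : ℤ_[2]) - χ σ + ((χ σ : ℤ_[2]) - 1) =
        ((χ σ * η σ ^ 2 : ℤ_[2]ˣ) : ℤ_[2]) - 1 := by ring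
    rw [e] at h1
    exact h1
  · intro σ h
    have h1 := dvd_add (h48 _ (mul_sq_congr (χ σ) (η σ))) (c8.cd.neg σ h)
    have e : ((χ σ * η σ ^ 2 : ℤ_[2]ˣ) : ℤ_[2]) - χ σ + ((χ σ : ℤ_[2]) + 1) =
        ((χ σ * η σ ^ 2 : ℤ_[2]ˣ) : ℤ_[2]) + 1 := by ring
    rw [e] at h1
    exact h1
  · intro p _ ι τ σ hp hc hi'
    rw [hap, hin p ι τ σ hp hc hi', mul_one]
    exact c8.cd.inert p ι τ σ hp hc hi'
  · intro s hs σ hσ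
    exact C8P.pm8_congr (mul_sq_congr (χ σ) (η σ)) (c8.fix s hs σ hσ)
  · intro s hs σ hσ
    exact C8P.pm8_congr (mul_sq_congr (χ σ) (η σ)) (c8.mov s hs σ hσ)

/-- the characters `κ^a κ'^b` -/
lemma chi_ab (κ κ' : GK i₀ →* ℤ_[2]ˣ) {a b v : ℤ} (h : a + b = 2 * v + 1) :
    κ ^ a * κ' ^ b = κ ^ a * κ' ^ (1 - a) * (κ' ^ v) ^ 2 := by
  refine MonoidHom.ext fun σ => ?_
  have key : ∀ x y : ℤ_[2]ˣ, x ^ a * y ^ b = x ^ a * y ^ (1 - a) * (y ^ v) ^ 2 := by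
    intro x y
    rw [mul_assoc, ← zpow_natCast, ← zpow_mul, ← zpow_add]
    congr 2
    push_cast
    omega
  exact key _ _

theorem c8_ab {κ κ' : GK i₀ →* ℤ_[2]ˣ} {D : OO} {r I : QB} (kd : KD hi κ κ' D r I) (k8 : K8 κ κ')
    {a b : ℤ} (hab : Odd (a + b)) :
    (Even a → ∃ s : QB, C8 hi (κ ^ a * κ' ^ b) D s (1 - om)) ∧
    (Odd a → ∃ s : QB, C8 hi (κ ^ a * κ' ^ b) (-D) s om) := by
  obtain ⟨v, hv⟩ := hab
  obtain ⟨he, ho⟩ := t_C8 hi kd k8 a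
  have hcont : Continuous (κ' ^ v : GK i₀ →* ℤ_[2]ˣ) := kd.cont'.zpow v
  have hin : ∀ (p : ℕ) [Fact p.Prime] (ι : QB →ₐ[ℚ] PadicAlgCl p) (τ : Au p) (σ : GK i₀),
      p ≠ 2 → Cmp ι τ σ → Inert τ → ((κ' ^ v : GK i₀ →* ℤ_[2]ˣ) σ) ^ 2 = 1 := by
    intro p _ ι τ σ hp hc hi'
    have a2 := kd.inert' p ι τ σ hc hi' (norm_w_odd hi hp ι).2
    have h1 : (κ' σ) ^ 2 = 1 := by
      rcases rt_or hi kd.hr σ with h | h
      · rw [a2.1 h, one_pow]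
      · rw [a2.2 h, neg_one_sq]
    have h2 : (κ' ^ v : GK i₀ →* ℤ_[2]ˣ) σ = (κ' σ) ^ v := rfl
    rw [h2, ← zpow_natCast, ← zpow_mul, mul_comm, zpow_mul, zpow_natCast, h1, one_zpow]
  rw [chi_ab κ κ' hv]
  constructor
  · intro h
    obtain ⟨s, c8⟩ := he h
    exact ⟨s, c8_sq hi c8 hcont hin⟩
  · intro h
    obtain ⟨s, c8⟩ := ho h
    exact ⟨s, c8_sq hi c8 hcont hin⟩

/-- the first half -/
theorem dim_oneAB {κ κ' : GK i₀ →* ℤ_[2]ˣ} {S : Finset OO} {r I : QB} (hS : PS S)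
    (kd : KD hi κ κ' (-(s7 * ∏ q ∈ S, q)) r I) (k8 : K8 κ κ')
    {a b : ℤ} (hab : Odd (a + b)) {ϖ : OO} (hϖ : (Even a ∧ ϖ = om) ∨ (Odd a ∧ ϖ = 1 - om)) :
    DimLe hi ϖ (κ ^ a * κ' ^ b) ⊤ (crk S) := by
  obtain ⟨he, ho⟩ := c8_ab hi kd k8 hab
  rcases hϖ with ⟨hj, rfl⟩ | ⟨hj, rfl⟩
  · obtain ⟨s, c8⟩ := he hj
    refine core_dim hi t_STR (t_FREB (t_FREA t_H90 t_VAL)) t_REC hS c8 (v := -1) (w4 := 2)
      (by decide) (by ring)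
      (Or.inl ⟨rfl, rfl, rfl, rfl⟩) (fun ι hι => (t_MOD hi ι _ hS.one).1 hι) (fun ι hι => ?_)
    rw [neg_neg]
    exact (t_MOD hi ι _ hS.one).2 hι
  · obtain ⟨s, c8⟩ := ho hj
    rw [neg_neg] at c8
    exact core_dim hi t_STR (t_FREB (t_FREA t_H90 t_VAL)) t_REC hS c8 (v := 1) (w4 := 3)
      (by decide) (by ring)
      (Or.inr ⟨rfl, rfl, rfl, rfl⟩) (fun ι hι => (t_MOD hi ι _ hS.one).2 hι)
      (fun ι hι => (t_MOD hi ι _ hS.one).1 hι)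

/-- the second half -/
theorem dim_twoAB {κ κ' : GK i₀ →* ℤ_[2]ˣ} {x y : ZMod 2} {S : Finset OO} {r I : QB}
    (hT : PX x y S) (kd : KD hi κ κ' (-(s7 * ∏ q ∈ S, q)) r I) (k8 : K8 κ κ')
    {a b : ℤ} (hab : Odd (a + b)) {ϖ' : OO}
    (hϖ : (Even a ∧ ϖ' = 1 - om) ∨ (Odd a ∧ ϖ' = om)) :
    DimLe hi ϖ' (κ ^ a * κ' ^ b) ⊤ (crkX x y S) := by
  obtain ⟨he, ho⟩ := c8_ab hi kd k8 hab
  have hM := fun ι : QB →ₐ[ℚ] PadicAlgCl 2 => t_MODG hi ι _ x y hT.ps.one hT.six hT.three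
  rcases hϖ with ⟨hj, rfl⟩ | ⟨hj, rfl⟩
  · obtain ⟨s, c8⟩ := he hj
    refine core_dimG hi t_RED8 t_STRG (t_FREB8 (t_FREA8 t_H90 t_VAL8))
      (t_FREBG (t_FREAG t_H90 t_VALG)) t_REC t_SUPO hT c8.cd (w4 := 2) (by decide) (w8 := 3)
      e3 (Or.inl ⟨rfl, rfl, rfl, rfl, rfl, rfl, rfl⟩) (fun ι hι => (hM ι).1 hι) (fun ι hι => ?_)
    rw [neg_neg]
    exact MnG.m15_of ((hM ι).2 hι)
  · obtain ⟨s, c8⟩ := ho hj
    rw [neg_neg] at c8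
    exact core_dimG hi t_RED8 t_STRG (t_FREB8 (t_FREA8 t_H90 t_VAL8))
      (t_FREBG (t_FREAG t_H90 t_VALG)) t_REC t_SUPO hT c8.cd (w4 := 3) (by decide) (w8 := 6)
      e6 (Or.inr ⟨rfl, rfl, rfl, rfl, rfl, rfl, rfl⟩) (fun ι hι => (hM ι).2 hι)
      (fun ι hι => MnG.m15_of ((hM ι).1 hι))

/-- **The dimensions over multiquadratic fields.** -/
theorem dim_mqAB {P : Finset OO → ℕ → Prop} {ϖ : OO} {a b : ℤ} (hab : Odd (a + b))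
    (hV : ∀ (κ κ' : GK i₀ →* ℤ_[2]ˣ) (S : Finset OO) (r I : QB) (n : ℕ), P S n →
      KD hi κ κ' (-(s7 * ∏ q ∈ S, q)) r I → K8 κ κ' → DimLe hi ϖ (κ ^ a * κ' ^ b) ⊤ n)
    {κ κ' : GK i₀ →* ℤ_[2]ˣ} {D : OO} {r I : QB} {n : ℕ} {s : Fin n → QB} {E : Fin n → OO}
    (hE : ∀ i, s i ^ 2 = em hi (E i)) (kd : KD hi κ κ' D r I) (k8 : K8 κ κ') (hD : D ≠ 0)
    (hE0 : ∀ i, E i ≠ 0) {d : Finset (Fin n) → ℕ}
    (hgood : ∀ T : Finset (Fin n), ∃ (S : Finset OO) (z : OO), P S (d T) ∧ z ≠ 0 ∧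
      D * ∏ i ∈ T, E i = -(s7 * ∏ q ∈ S, q) * z ^ 2) :
    DimLe hi ϖ (κ ^ a * κ' ^ b) (fixs s Finset.univ) (∑ T, d T) := by
  have hs0 : ∀ i, s i ≠ 0 := by
    intro i h
    have h1 := hE i
    rw [h, zero_pow two_ne_zero] at h1
    exact hE0 i (em_inj hi h1.symm)
  have hs : ∀ (i) (σ : GK i₀), σ (s i) = s i ∨ σ (s i) = -s i := fun i σ => rt_or hi (hE i) σ
  have key := dim_all hi hs0 hs ϖ Finset.univ (κ ^ a * κ' ^ b) d fun T _ => ?_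
  · rwa [Finset.powerset_univ] at key
  obtain ⟨S', z, hgS, hz, hprod⟩ := hgood T
  have kd1 := KD.twists hi hs0 hs hE kd hD hE0 T
  have hz0 : em hi z ≠ 0 := em_ne hi hz
  have kd2 := KD.resc hi kd1 (D' := -(s7 * ∏ q ∈ S', q)) (u := (em hi z)⁻¹) (inv_ne_zero hz0)
    (fun σ => by rw [map_inv₀, gk_em]) (by
      rw [mul_pow, kd1.hr, hprod, map_mul, map_pow]
      field_simp)
  have hpm := prod_pm (fun i => es (hs0 i) (hs i)) T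
  have k82 : K8 (κ * ∏ i ∈ T, sgc (es (hs0 i) (hs i))) (κ' * ∏ i ∈ T, sgc (es (hs0 i) (hs i))) :=
    k8_tw k8 hpm
  set S := ∏ i ∈ T, sgc (es (hs0 i) (hs i)) with hS
  have e : κ ^ a * κ' ^ b * S = (κ * S) ^ a * (κ' * S) ^ b := by
    refine MonoidHom.ext fun σ => ?_
    have key : ∀ x y c : ℤ_[2]ˣ, (c = 1 ∨ c = -1) → x ^ a * y ^ b * c = (x * c) ^ a * (y * c) ^ b :=
      fun x y c hc => by
        rw [mul_zpow, mul_zpow, mul_mul_mul_comm, ← zpow_add]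
        congr 1
        obtain ⟨v, hv⟩ := hab
        rcases hc with rfl | rfl
        · rw [one_zpow]
        · rw [hv, zpow_add, zpow_mul, zpow_one]
          have : ((-1 : ℤ_[2]ˣ) ^ (2 : ℤ)) = 1 := by
            rw [show (2 : ℤ) = ((2 : ℕ) : ℤ) from rfl, zpow_natCast, neg_one_sq]
          rw [this, one_zpow, one_mul]
    exact key _ _ _ (hpm σ)
  rw [e]
  exact hV _ _ S' _ _ _ hgS kd2 k82

end Pool.Agent.H848.BKD
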