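import Pool.Agent.H848.BKD.MainGD
import Pool.Agent.H848.BKD.AlgF
import Pool.Agent.H848.BKD.Par

/-!
# The dimensions over `K` without a condition above two
-/

set_option autoImplicit false
set_option linter.unusedSectionVars false
set_option linter.unusedVariables false

namespace Pool.Agent.H848.BKD

open Pool.Agent.R384
open Pool.Agent.NH57.BK
open Pool.Agent.NH57.BK.Mn
open Pool.Agent.NH57.BG
open Pool.Agent.NH57.BH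
open Pool.Agent.Y676.IS (Cu)
open Pool.Agent.Y715.Red Pool.Agent.Y715.Nr Pool.Agent.W237.RK
open Pool.Agent.Y715.Gi (QB KK GK)
open Pool.Agent.Y715.Df (Cmp)

open scoped Classical

variable {i₀ : QB} (hi : i₀ ^ 2 = i₀ - 2) {χ : GK i₀ →* ℤ_[2]ˣ} {m : OO} {r : QB}

/-- the local conditions for the elements that belong to the Selmer classes modulo two -/
theorem core_lf (hRED : S_RED8) (hFRE₀ : S_FRE) (hFR8 : S_FRE8) (hFRE : S_FREG)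
    {x₀ y₀ z : ZMod 2} {S : Finset OO} (hT : PX x₀ y₀ S)
    {ϖ ϖ' v : OO} (c8 : C8 hi χ m r ϖ')
    {w4 : ZMod 4} (hw4 : w4 ^ 2 = w4 - 2)
    (hcase : (m = -(s7 * ∏ q ∈ S, q) ∧ ϖ = om ∧ ϖ' = 1 - om ∧ w4 = 2 ∧ z = x₀ ∧ v = -1) ∨
      (m = s7 * ∏ q ∈ S, q ∧ ϖ = 1 - om ∧ ϖ' = om ∧ w4 = 3 ∧ z = y₀ ∧ v = 1))
    (hm5 : ∀ ι : QB →ₐ[ℚ] PadicAlgCl 2, ‖em (iw hi ι) ϖ‖ < 1 → Mz z (em (iw hi ι) m))
    (hm6 : ∀ ι : QB →ₐ[ℚ] PadicAlgCl 2, ‖em (iw hi ι) ϖ'‖ < 1 → M15 (em (iw hi ι) (-m)))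
    {c : GK i₀ → ℚ_[2]} (hcc : Coc χ c) (hint : ∀ σ, ‖c σ‖ ≤ 1)
    (hodd : ∀ (p : ℕ) [Fact p.Prime] (ι : QB →ₐ[ℚ] PadicAlgCl p), p ≠ 2 → CobOn χ (II ι) c) :
    ∃ δ : OO, LF m ϖ ϖ' z hw4 δ ∧
      ∀ s : QB, s ^ 2 = em hi δ → ∀ σ : GK i₀, σ s = s ↔ md c σ = 0 := by
  have cd := c8.cd
  have hS : PS S := hT.ps
  have hPl : Pl ϖ ϖ' := by
    rcases hcase with ⟨-, h1, h2, -⟩ | ⟨-, h1, h2, -⟩
    · exact Or.inl ⟨h1, h2⟩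
    · exact Or.inr ⟨h1, h2⟩
  have hϖp : Prime ϖ := by
    rcases hPl with ⟨rfl, -⟩ | ⟨rfl, -⟩
    · exact prime_om
    · exact prime_om'
  have hϖp' : Prime ϖ' := by
    rcases hPl with ⟨-, rfl⟩ | ⟨-, rfl⟩
    · exact prime_om'
    · exact prime_om
  have hϖ2 : ϖ * ϖ' = 2 := by
    rcases hPl with ⟨rfl, rfl⟩ | ⟨rfl, rfl⟩
    · exact om_mul
    · rw [mul_comm]; exact om_mul
  obtain ⟨hv, hm⟩ : (v = 1 ∨ v = -1) ∧ m = v * (s7 * ∏ q ∈ S, q) := by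
    rcases hcase with ⟨h1, -, -, -, -, h2⟩ | ⟨h1, -, -, -, -, h2⟩
    · exact ⟨Or.inr h2, by rw [h1, h2]; ring⟩
    · exact ⟨Or.inl h2, by rw [h1, h2]; ring⟩
  -- the free place
  obtain ⟨p, hpf, ι, hι⟩ := exists_emb hi hϖp
  have hp2 : p = 2 := by
    rw [ι_em] at hι
    exact (two_of_dvd hϖp (iw hi ι) hι).2 ⟨_, hϖ2.symm⟩
  subst hp2
  have hι' : ‖em (iw hi ι) ϖ‖ < 1 := by rwa [ι_em] at hι
  -- the strict place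
  obtain ⟨p, hpf', ι₁, hι₁⟩ := exists_emb hi hϖp'
  have hp2 : p = 2 := by
    rw [ι_em] at hι₁
    exact (two_of_dvd hϖp' (iw hi ι₁) hι₁).2 ⟨_, by rw [mul_comm]; exact hϖ2.symm⟩
  subst hp2
  have hι₁' : ‖em (iw hi ι₁) ϖ'‖ < 1 := by rwa [ι_em] at hι₁
  -- Kummer theory
  obtain ⟨δ, hδ, hkum⟩ := kum hi (md c) (md_cont hcc) (md_mul hcc hint)
  obtain ⟨s, hs⟩ : ∃ s : QB, s ^ 2 = em hi δ := IsAlgClosed.exists_pow_nat_eq _ (by norm_num)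
  have hk : ∀ σ : GK i₀, σ s = s ↔ md c σ = 0 := hkum s hs
  have hnd : ¬ ϖ' ∣ δ := hFRE₀ hi hPl c8 ι₁ hι₁' (hm6 ι₁ hι₁') c hcc hint δ s hδ hs hk
  have hfr : ‖em (iw hi ι) δ - 1‖ ≤ 1 / 4 ∨
      ∃ δ' : OO, δ = (if z = 1 then -ϖ else ϖ) * δ' ∧ ‖em (iw hi ι) δ' - 1‖ ≤ 1 / 4 := by
    rcases hm5 ι hι' with ⟨hz, h⟩ | ⟨hz, h⟩
    · rw [if_pos hz]
      exact hFR8 hi hPl cd ι hι' h c hcc hint δ s hδ hs hk
    · rw [if_neg (by rw [hz]; exact zero_ne_one)]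
      exact hFRE hi hPl cd ι hι' h c hcc hint δ s hδ hs hk
  -- the prime divisors of `δ`
  have hsup : ∀ π : OO, Prime π → π ∣ δ → ¬ π ∣ 2 → π ∣ m := by
    intro π hπ hπδ hπ2
    by_contra hπm
    obtain ⟨l, hl, κ, hκ⟩ := exists_emb hi hπ
    rw [ι_em] at hκ
    have hl2 : l ≠ 2 := fun h => hπ2 ((two_of_dvd hπ (iw hi κ) hκ).1 h)
    have h1 := unram hi cd hl2 (hodd l κ hl2) ((dvd_iff (iw hi κ) hπ hκ m).not.1 hπm)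
    refine not_dvd_of_fix (iw hi κ) hπ hκ hδ (s := κ s) ?_ ?_ hπδ
    · rw [← map_pow, hs, ι_em]
    · intro τ hin hτ
      exact fix_I (fun σ hσ => (hk σ).2 (h1 σ hσ)) τ hin hτ
  -- the prime divisors of `m`
  have hloc := loc_all' hi cd hS hv hm hcc hint hodd hδ hs hk
  -- modulo four at the free place
  have h4 : em hw4 δ = 1 ∨
      ∃ δ' : OO, δ = (if z = 1 then -ϖ else ϖ) * δ' ∧ em hw4 δ' = 1 := by
    have hred : ∀ x : OO, ‖em (iw hi ι) x - 1‖ ≤ 1 / 4 → em hw4 x = 1 := by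
      intro x hx
      have hx' : ‖em (iw hi ι) (x - 1)‖ ≤ 1 / 4 := by rwa [map_sub, map_one]
      have h3 : em hw4 (x - 1) = 0 := by
        rcases hcase with ⟨-, h1, -, h2, -⟩ | ⟨-, h1, -, h2, -⟩
        · exact (hRED hi ι ϖ 6 e6 w4 hw4 (Or.inl ⟨h1, rfl, h2⟩) hι' (x - 1)).2 hx'
        · exact (hRED hi ι ϖ 3 e3 w4 hw4 (Or.inr ⟨h1, rfl, h2⟩) hι' (x - 1)).2 hx'
      rw [map_sub, map_one, sub_eq_zero] at h3
      exact h3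
    rcases hfr with h | ⟨δ', h1, h2⟩
    · exact Or.inl (hred δ h)
    · exact Or.inr ⟨δ', h1, hred δ' h2⟩
  exact ⟨δ, ⟨hδ, hnd, h4, hsup, hloc⟩, hkum⟩

/-- **The dimension over `K`.** -/
theorem core_dimF (hRED : S_RED8) (hFRE₀ : S_FRE) (hFR8 : S_FRE8) (hFRE : S_FREG)
    (hREC : S_REC)
    {x₀ y₀ z : ZMod 2} {S : Finset OO} (hT : PX x₀ y₀ S)
    {ϖ ϖ' v : OO} (c8 : C8 hi χ m r ϖ')
    {w4 : ZMod 4} (hw4 : w4 ^ 2 = w4 - 2)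
    (hcase : (m = -(s7 * ∏ q ∈ S, q) ∧ ϖ = om ∧ ϖ' = 1 - om ∧ w4 = 2 ∧ z = x₀ ∧ v = -1) ∨
      (m = s7 * ∏ q ∈ S, q ∧ ϖ = 1 - om ∧ ϖ' = om ∧ w4 = 3 ∧ z = y₀ ∧ v = 1))
    (hm5 : ∀ ι : QB →ₐ[ℚ] PadicAlgCl 2, ‖em (iw hi ι) ϖ‖ < 1 → Mz z (em (iw hi ι) m))
    (hm6 : ∀ ι : QB →ₐ[ℚ] PadicAlgCl 2, ‖em (iw hi ι) ϖ'‖ < 1 → M15 (em (iw hi ι) (-m))) :
    DimLe hi 1 χ ⊤ (crk S + 1) := by
  have cd := c8.cd
  obtain ⟨hv, hm⟩ : (v = 1 ∨ v = -1) ∧ m = v * (s7 * ∏ q ∈ S, q) := by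
    rcases hcase with ⟨h1, -, -, -, -, h2⟩ | ⟨h1, -, -, -, -, h2⟩
    · exact ⟨Or.inr h2, by rw [h1, h2]; ring⟩
    · exact ⟨Or.inl h2, by rw [h1, h2]; ring⟩
  have hfin : Fintype (KerF v x₀ y₀ S) := Fintype.ofFinite _
  refine dim_of_class hi (K := Bool × KerF v x₀ y₀ S) cd.cont ?_ ?_
    (fun c k => ∃ (T : Finset OO) (a : ZMod 2), T ⊆ S ∧ iy S T a = k.2.1 ∧
      ∀ s : QB, s ^ 2 = em hi (dg v ϖ z S k.1 a T) →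
      ∀ σ : GK i₀, σ s = s ↔ md c σ = 0) ?_ ?_
  · obtain ⟨σ₀, hσ₀⟩ := exists_mv hi cd hT.ps hv hm
    refine ⟨σ₀, fun h => ?_⟩
    have h1 := cd.big hi hσ₀
    rw [h, sub_self, norm_zero] at h1
    norm_num at h1
  · have := card_kerF v x₀ y₀ S
    rw [Fintype.card_prod, Fintype.card_bool, ← Nat.card_eq_fintype_card, pow_succ]
    omega
  · rintro c ⟨h1, h2, h3⟩ hint
    have hcc : Coc χ c := ⟨by
      have := h1.cont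
      rwa [Subgroup.coe_top, continuousOn_univ] at this, fun σ τ => h1.mul σ trivial τ trivial⟩
    obtain ⟨δ, hLC, hkum⟩ := core_lf hi hRED hFRE₀ hFR8 hFRE hT c8 hw4 hcase hm5 hm6 hcc hint
      (fun p _ ι hp => by
        obtain ⟨y, hy⟩ := h2 p ι hp
        exact ⟨y, fun σ hσ => hy σ hσ trivial⟩)
    obtain ⟨f, a, T, ha, hT, hk, he⟩ := algFD hREC hT hw4 hcase hLC
    refine ⟨⟨f, ⟨iy S T a, LinearMap.mem_ker.2 (funext fun q => hk q)⟩⟩, T, (a : ZMod 2), hT, rfl,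
      fun s hs => hkum s ?_⟩
    rw [he]
    rw [hs]
    unfold dg
    rcases ha with rfl | rfl
    · simp
    · simp
  · rintro c c' ⟨f, x⟩ ⟨T, a, hT, h1, h2⟩ ⟨T', a', hT', h1', h2'⟩
    obtain ⟨hTT, haa⟩ := iy_inj hT hT' (h1.trans h1'.symm)
    subst hTT
    subst haa
    obtain ⟨s, hs⟩ : ∃ s : QB, s ^ 2 = em hi (dg v ϖ z S f a T) :=
      IsAlgClosed.exists_pow_nat_eq _ (by norm_num)
    funext σ
    have h3 := (h2 s hs σ).symm.trans (h2' s hs σ)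
    have h01 : ∀ a b : ZMod 2, (a = 0 ↔ b = 0) → a = b := by decide
    exact h01 _ _ h3


/-- **The dimensions over `K`** for the curve, no condition above two -/
theorem dim_freeAB {κ κ' : GK i₀ →* ℤ_[2]ˣ} {x y : ZMod 2} {S : Finset OO} {r I : QB}
    (hT : PX x y S) (kd : KD hi κ κ' (-(s7 * ∏ q ∈ S, q)) r I) (k8 : K8 κ κ')
    {a b : ℤ} (hab : Odd (a + b)) :
    DimLe hi 1 (κ ^ a * κ' ^ b) ⊤ (crk S + 1) := by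
  obtain ⟨he, ho⟩ := c8_ab hi kd k8 hab
  have hM := fun ι : QB →ₐ[ℚ] PadicAlgCl 2 => t_MODG hi ι _ x y hT.ps.one hT.six hT.three
  rcases Int.even_or_odd a with hj | hj
  · obtain ⟨s, c8⟩ := he hj
    refine core_dimF hi t_RED8 (t_FREB (t_FREA t_H90 t_VAL)) (t_FREB8 (t_FREA8 t_H90 t_VAL8))
      (t_FREBG (t_FREAG t_H90 t_VALG)) t_REC hT c8 (w4 := 2) (by decide)
      (Or.inl ⟨rfl, rfl, rfl, rfl, rfl, rfl⟩) (fun ι hι => (hM ι).1 hι) (fun ι hι => ?_)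
    rw [neg_neg]
    exact MnG.m15_of ((hM ι).2 hι)
  · obtain ⟨s, c8⟩ := ho hj
    rw [neg_neg] at c8
    exact core_dimF hi t_RED8 (t_FREB (t_FREA t_H90 t_VAL)) (t_FREB8 (t_FREA8 t_H90 t_VAL8))
      (t_FREBG (t_FREAG t_H90 t_VALG)) t_REC hT c8 (w4 := 3) (by decide)
      (Or.inr ⟨rfl, rfl, rfl, rfl, rfl, rfl⟩) (fun ι hι => (hM ι).2 hι)
      (fun ι hι => MnG.m15_of ((hM ι).1 hι))

end Pool.Agent.H848.BKD
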