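import Pool.Agent.H848.BKD.Rec
import Pool.Agent.H463.PT.All

/-!
# The two matrices of symbols

The matrix of the symbols between the primes dividing `√-7 D` and the matrix of the
primes dividing `D` have the same corank.
-/

set_option autoImplicit false
set_option linter.unusedSectionVars false
set_option linter.unusedVariables false

namespace Pool.Agent.H848.BKD

open Pool.Agent.R384
open Pool.Agent.NH57.BK Pool.Agent.NH57.BK.AlgP
open QuadraticAlgebra

/-! ### Linear algebra -/

section la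

variable {ι : Type} [Fintype ι] [DecidableEq ι]

lemma two0 : (2 : ZMod 2) = 0 := by decide

lemma lin_bij (M : Matrix ι ι (ZMod 2)) (t : ι → ZMod 2) (s : ι)
    (hd : ∀ p, M p p = t p + ∑ q ∈ Finset.univ.erase p, M p q)
    (hr : ∀ p q, p ≠ q → M p q + M q p = t p * t q) (ht : ∑ p, t p = 1) :
    Nat.card {u : ι → ZMod 2 // M.transpose.mulVec u = 0} =
      Nat.card {v : ι → ZMod 2 // v s = 0 ∧ ∀ p, p ≠ s → M.mulVec v p + t p * v p = 0} := by
  have h5 : ∀ y : ZMod 2, y + y = 0 := by decide
  have h6 : ∀ y : ZMod 2, y * y = y := by decide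
  have F1 : ∀ p, ∑ q, M p q = t p := by
    intro p
    rw [← Finset.add_sum_erase _ _ (Finset.mem_univ p), hd p, add_assoc, h5, add_zero]
  have F2 : ∀ p q, M q p = M p q + (if p = q then t p else 0) + t p * t q := by
    intro p q
    by_cases h : p = q
    · subst h
      rw [if_pos rfl, add_assoc, h6, h5, add_zero]
    · rw [if_neg h, add_zero, ← hr p q h]
      linear_combination -h5 (M p q)
  have F3 : ∀ (v : ι → ZMod 2) (p : ι),
      M.transpose.mulVec (fun q => v q + ∑ r, t r * v r) p = M.mulVec v p + t p * v p := by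
    intro v p
    set c := ∑ r, t r * v r with hc
    have e1 : M.transpose.mulVec (fun q => v q + c) p = ∑ q, M q p * (v q + c) := rfl
    have e2 : M.mulVec v p = ∑ q, M p q * v q := rfl
    rw [e1, e2]
    calc ∑ q, M q p * (v q + c)
        = ∑ q, (M p q * v q + c * M p q + (if p = q then t p * (v q + c) else 0) +
            t p * (t q * v q) + t p * c * t q) := by
          refine Finset.sum_congr rfl fun q _ => ?_
          rw [F2 p q]
          split_ifs <;> ring
      _ = (∑ q, M p q * v q) + c * ∑ q, M p q + t p * (v p + c) +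
            t p * c + t p * c * ∑ q, t q := by
          simp only [Finset.sum_add_distrib, Finset.mul_sum, Finset.sum_ite_eq, Finset.mem_univ,
            if_true, hc]
      _ = _ := by
          rw [F1, ht]
          linear_combination 2 * h5 (t p * c)
  have F4 : ∀ v : ι → ZMod 2, ∑ p, (M.mulVec v p + t p * v p) = 0 := by
    intro v
    have e2 : ∀ p, M.mulVec v p = ∑ q, M p q * v q := fun p => rfl
    have e3 : ∀ q, ∑ p, M p q = t q := by
      intro q
      calc ∑ p, M p q = ∑ p, (M q p + (if q = p then t q else 0) + t q * t p) :=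
            Finset.sum_congr rfl fun p _ => F2 q p
        _ = t q := by
          rw [Finset.sum_add_distrib, Finset.sum_add_distrib, F1, ← Finset.mul_sum, ht]
          simp only [Finset.sum_ite_eq, Finset.mem_univ, if_true]
          linear_combination h5 (t q)
    simp only [e2]
    rw [Finset.sum_add_distrib, Finset.sum_comm]
    have e4 : ∀ q, ∑ p, M p q * v q = t q * v q := by
      intro q
      rw [← Finset.sum_mul, e3]
    simp only [e4]
    exact h5 _
  have F5 : ∀ u : ι → ZMod 2, M.transpose.mulVec u = 0 → ∑ r, t r * u r = 0 := by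
    intro u hu
    have e1 : ∀ p, M.transpose.mulVec u p = ∑ q, M q p * u q := fun p => rfl
    have e2 : ∑ p, M.transpose.mulVec u p = 0 := by rw [hu]; simp
    simp only [e1] at e2
    rw [Finset.sum_comm] at e2
    have e3 : ∀ q, ∑ p, M q p * u q = t q * u q := by
      intro q
      rw [← Finset.sum_mul, F1]
    simp only [e3] at e2
    exact e2
  refine Nat.card_congr ⟨fun u => ⟨fun q => u.1 q + u.1 s, h5 _, fun p _ => ?_⟩,
    fun v => ⟨fun q => v.1 q + ∑ r, t r * v.1 r, ?_⟩, fun u => ?_, fun v => ?_⟩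
  · have h1 := F3 (fun q => u.1 q + u.1 s) p
    rw [← h1]
    have h2 : ∑ r, t r * (u.1 r + u.1 s) = u.1 s := by
      simp only [mul_add, Finset.sum_add_distrib, ← Finset.sum_mul]
      rw [F5 u.1 u.2, ht]
      ring
    have h3 : (fun q => u.1 q + u.1 s + ∑ r, t r * (u.1 r + u.1 s)) = u.1 := by
      funext q
      rw [h2, add_assoc, h5, add_zero]
    rw [h3, u.2]
    rfl
  · funext p
    rw [F3 v.1 p, Pi.zero_apply]
    by_cases hp : p = s
    · subst hp
      have h1 := F4 v.1
      rw [← Finset.add_sum_erase _ _ (Finset.mem_univ p), Finset.sum_eq_zero, add_zero] at h1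
      · exact h1
      · intro q hq
        exact v.2.2 q (Finset.ne_of_mem_erase hq)
    · exact v.2.2 p hp
  · apply Subtype.ext
    funext q
    show u.1 q + u.1 s + ∑ r, t r * (u.1 r + u.1 s) = u.1 q
    have h2 : ∑ r, t r * (u.1 r + u.1 s) = u.1 s := by
      simp only [mul_add, Finset.sum_add_distrib, ← Finset.sum_mul]
      rw [F5 u.1 u.2, ht]
      ring
    rw [h2, add_assoc, h5, add_zero]
  · apply Subtype.ext
    funext q
    show v.1 q + (∑ r, t r * v.1 r) + (v.1 s + ∑ r, t r * v.1 r) = v.1 q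
    rw [v.2.1, zero_add, add_assoc, h5, add_zero]

lemma card_kerT (M : Matrix ι ι (ZMod 2)) :
    Nat.card {u : ι → ZMod 2 // M.transpose.mulVec u = 0} = 2 ^ (Fintype.card ι - M.rank) := by
  have h1 : Module.finrank (ZMod 2) (LinearMap.range M.transpose.mulVecLin) +
      Module.finrank (ZMod 2) (LinearMap.ker M.transpose.mulVecLin) = Fintype.card ι := by
    rw [M.transpose.mulVecLin.finrank_range_add_finrank_ker, Module.finrank_fintype_fun_eq_card]
  have h2 : Module.finrank (ZMod 2) (LinearMap.range M.transpose.mulVecLin) = M.rank := by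
    rw [← Matrix.rank_transpose]
    rfl
  have h4 := Module.natCard_eq_pow_finrank (K := ZMod 2)
    (V := LinearMap.ker M.transpose.mulVecLin)
  rw [Nat.card_zmod] at h4
  have h5 : Nat.card {u : ι → ZMod 2 // M.transpose.mulVec u = 0} =
      Nat.card (LinearMap.ker M.transpose.mulVecLin) := by
    refine Nat.card_congr (Equiv.subtypeEquivRight fun u => ?_)
    rw [LinearMap.mem_ker, Matrix.mulVecLin_apply]
  rw [h5, h4]
  congr 1
  omega

end la

/-! ### The matrix -/

open Pool.Agent.H463.QE (ns MP IsP Fs)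

open scoped Classical

lemma ns_qs (p x : OO) : ns p x = qs p x := by
  unfold ns qs
  have h1 : (∃ y : OO, p ∣ y ^ 2 - x) ↔ Sqm p x := by
    constructor
    · rintro ⟨y, hy⟩
      exact ⟨y, by rw [← neg_sub]; exact (dvd_neg).2 hy⟩
    · rintro ⟨y, hy⟩
      exact ⟨y, by rw [← neg_sub]; exact (dvd_neg).2 hy⟩
  by_cases h2 : Sqm p x
  · rw [if_pos h2, if_pos (h1.2 h2)]
  · rw [if_neg h2, if_neg fun h3 => h2 (h1.1 h3)]

lemma qs_neg_mod (x : OO) : qs (-s7) x = qs s7 x := by
  unfold qs Sqm
  simp only [neg_dvd]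

/-- `-1` is not a square modulo `√-7` -/
lemma qs_s7_neg : qs s7 (-1) = 1 := by
  have h1 : ¬ qs s7 (-1) = 0 := by
    rw [qs_zero]
    rintro ⟨y, c, hc⟩
    -- reduce modulo seven
    have h7 : (4 : ZMod 7) ^ 2 = 4 - 2 := by decide
    have h2 := congrArg (em h7) hc
    have h3 : em h7 s7 = 0 := by rw [em_apply]; simp only [s7]; decide
    rw [map_sub, map_neg, map_one, map_pow, map_mul, h3, zero_mul] at h2
    revert h2
    generalize em h7 y = z
    revert z
    decide
  revert h1
  generalize qs s7 (-1) = t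
  revert t
  decide

/-- the sign of a prime -/
noncomputable def tt (p : OO) : ZMod 2 := qs p (-1)

variable {S : Finset OO} (hS : PS S)

include hS in
lemma nS7 : -s7 ∉ S := fun h => (hS.pp _ h).sev ((dvd_neg).2 dvd_rfl)

lemma qs_mS {π : OO} (h : Pp π) : qs π (-s7) = tO π + qs s7 π := by
  have n1 : ¬ π ∣ s7 := not_s7 h
  have n2 : ¬ π ∣ (-1 : OO) := not_unit h (Or.inr rfl)
  rw [← neg_one_mul, qs_mul h.prime (not_two h) n2 n1, (t_REC.2 π h).1, (t_REC.2 π h).2]

include hS in
lemma rec_P {p q : OO} (hp : p ∈ insert (-s7) S) (hq : q ∈ insert (-s7) S) (hpq : p ≠ q) :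
    ns q p + ns p q = ns p (-1) * ns q (-1) := by
  have h5 : ∀ y : ZMod 2, y + y = 0 := by decide
  simp only [ns_qs]
  rcases Finset.mem_insert.1 hp with rfl | hp
  · rcases Finset.mem_insert.1 hq with rfl | hq
    · exact absurd rfl hpq
    · rw [qs_neg_mod, qs_neg_mod, qs_s7_neg, qs_mS (hS.pp q hq), (t_REC.2 q (hS.pp q hq)).2]
      linear_combination h5 (qs s7 q)
  · rcases Finset.mem_insert.1 hq with rfl | hq
    · rw [qs_neg_mod, qs_neg_mod, qs_s7_neg, qs_mS (hS.pp p hp), (t_REC.2 p (hS.pp p hp)).2]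
      linear_combination h5 (qs s7 p)
    · rw [(t_REC.2 p (hS.pp p hp)).2, (t_REC.2 q (hS.pp q hq)).2]
      linear_combination t_REC.1 p q (hS.pp p hp) (hS.pp q hq) hpq

/-- the entries -/
noncomputable def mp (P : Finset OO) (a b : OO) : ZMod 2 :=
  if a = b then qs a (-1) + ∑ r ∈ P.erase a, qs r a else qs b a

/-- the instances do not matter -/
lemma erase_inst {α : Type} (i j : DecidableEq α) (P : Finset α) (a : α) :
    @Finset.erase α i P a = @Finset.erase α j P a := by
  rw [Subsingleton.elim i j]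

lemma insert_inst {α : Type} (i j : DecidableEq α) (P : Finset α) (a : α) :
    @insert α (Finset α) (@Finset.instInsert α i) a P =
      @insert α (Finset α) (@Finset.instInsert α j) a P := by
  rw [Subsingleton.elim i j]

lemma det_inst {α : Type} [Fintype α] (i j : DecidableEq α) (M : Matrix α α (ZMod 2)) :
    @Matrix.det α i _ _ _ M = @Matrix.det α j _ _ _ M := by
  rw [Subsingleton.elim i j]

lemma diagonal_inst {α : Type} (i j : DecidableEq α) (f : α → ZMod 2) :
    @Matrix.diagonal α (ZMod 2) i _ f = @Matrix.diagonal α (ZMod 2) j _ f := by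
  rw [Subsingleton.elim i j]

lemma MP_mp (P : Finset OO) (p q : P) : MP P p q = mp P p q := by
  unfold MP mp
  rw [Matrix.of_apply]
  by_cases h : p = q
  · subst h
    rw [if_pos rfl, if_pos rfl, ns_qs]
    simp only [ns_qs]
    exact congrArg _ (Finset.sum_congr (erase_inst _ _ _ _) fun _ _ => rfl)
  · rw [if_neg h, if_neg fun h' => h (Subtype.ext h'), ns_qs]

/-- extension by zero -/
noncomputable def ext0 (P : Finset OO) (v : P → ZMod 2) (x : OO) : ZMod 2 :=
  if h : x ∈ P then v ⟨x, h⟩ else 0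

lemma ext0_coe (P : Finset OO) (v : P → ZMod 2) (p : P) : ext0 P v p = v p := by
  unfold ext0
  rw [dif_pos p.2]

lemma qs_self (q : OO) : qs q q = 0 := by
  rw [qs_zero]
  exact ⟨0, by simp⟩

include hS in
lemma mv_eq {P : Finset OO} (hP : P = insert (-s7) S) (hs : -s7 ∈ P) (hm : ∀ ρ ∈ S, ρ ∈ P)
    (v : P → ZMod 2) (hv : v ⟨-s7, hs⟩ = 0) (π : S) :
    (MP P).mulVec v ⟨π, hm _ π.2⟩ + qs (π : OO) (-1) * v ⟨π, hm _ π.2⟩ =
      (AA S).mulVec (fun ρ : S => v ⟨ρ, hm _ ρ.2⟩) π := by
  have h5 : ∀ y : ZMod 2, y + y = 0 := by decide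
  have hn := nS7 hS
  set g := ext0 P v with hg
  have g0 : g (-s7) = 0 := by
    rw [hg]
    exact (ext0_coe P v ⟨-s7, hs⟩).trans hv
  have gS : ∀ ρ : S, v ⟨ρ, hm _ ρ.2⟩ = g ρ := fun ρ =>
    (ext0_coe P v ⟨ρ, hm _ ρ.2⟩).symm
  have hne : (π : OO) ≠ -s7 := fun h => hn (h ▸ π.2)
  have e1 : (MP P).mulVec v ⟨π, hm _ π.2⟩ = ∑ ρ ∈ S, mp P π ρ * g ρ := by
    have e2 : (MP P).mulVec v ⟨π, hm _ π.2⟩ =
        ∑ q : P, mp P π (q : OO) * g (q : OO) := by
      show ∑ q : P, MP P ⟨π, hm _ π.2⟩ q * v q = _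
      refine Finset.sum_congr rfl fun q _ => ?_
      rw [MP_mp, hg, ext0_coe]
    rw [e2, Finset.sum_coe_sort P (fun q : OO => mp P π q * g q), hP, Finset.sum_insert hn, g0,
      mul_zero, zero_add]
  rw [e1, AA_mul]
  simp only [gS]
  rw [Finset.sum_coe_sort S (fun ρ : OO => qs ρ (π : OO) * g ρ), ← Finset.add_sum_erase S _ π.2,
    ← Finset.add_sum_erase S (fun ρ : OO => qs ρ (π : OO) * g ρ) π.2]
  have e3 : ∑ ρ ∈ S.erase (π : OO), mp P π ρ * g ρ = ∑ ρ ∈ S.erase (π : OO), qs ρ (π : OO) * g ρ := by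
    refine Finset.sum_congr rfl fun ρ hρ => ?_
    unfold mp
    rw [if_neg (Ne.symm (Finset.ne_of_mem_erase hρ))]
  have e4 : mp P (π : OO) (π : OO) = qs (π : OO) (-1) + (qs s7 π + ∑ τ ∈ S, qs (τ : OO) (π : OO)) := by
    unfold mp
    rw [if_pos rfl, hP, Finset.erase_insert_of_ne (Ne.symm hne), Finset.sum_insert, qs_neg_mod,
      ← Finset.add_sum_erase S (fun τ => qs τ (π : OO)) π.2, qs_self, zero_add]
    intro h
    exact hn (Finset.mem_of_mem_erase h)
  rw [e3, e4, qs_self]
  linear_combination h5 (qs (π : OO) (-1) * g (π : OO))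

include hS in
/-- **the coranks** -/
theorem cork_eq : (insert (-s7) S).card - (MP (insert (-s7) S)).rank = crk S := by
  have h5 : ∀ y : ZMod 2, y + y = 0 := by decide
  have hn := nS7 hS
  obtain ⟨P, hP⟩ : ∃ P, P = insert (-s7) S := ⟨_, rfl⟩
  rw [← hP]
  have hs : -s7 ∈ P := by rw [hP]; exact Finset.mem_insert_self _ _
  have hm : ∀ ρ ∈ S, ρ ∈ P := fun ρ hρ => by rw [hP]; exact Finset.mem_insert_of_mem hρ
  have hmP : ∀ ρ ∈ P, ρ = -s7 ∨ ρ ∈ S := fun ρ hρ => by rw [hP] at hρ; exact Finset.mem_insert.1 hρ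
  have hme := mv_eq hS hP hs hm
  let s : P := ⟨-s7, hs⟩
  have hBB : BB 1 S = AA S := by
    unfold BB
    rw [if_neg]
    intro h
    rw [eq_comm, pm_ne] at h
    exact h
  have key := lin_bij (MP P) (fun p : P => ns (p : OO) (-1)) s ?_ ?_ ?_
  · rw [card_kerT, Fintype.card_coe] at key
    have hk := card_ker 1 S
    have h1 : Nat.card {v : P → ZMod 2 // v s = 0 ∧ ∀ p, p ≠ s →
        (MP P).mulVec v p + ns (p : OO) (-1) * v p = 0} = Nat.card (Ker 1 S) := by
      refine Nat.card_congr ⟨fun v => ⟨fun ρ : S => v.1 ⟨ρ, hm _ ρ.2⟩, ?_⟩,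
        fun y => ⟨fun p => if h : (p : OO) ∈ S then y.1 ⟨p, h⟩ else 0, ?_, ?_⟩, fun v => ?_,
        fun y => ?_⟩
      · rw [LinearMap.mem_ker, Matrix.mulVecLin_apply, hBB]
        funext π
        rw [← hme v.1 v.2.1 π, ← ns_qs]
        refine v.2.2 _ fun h => hn ?_
        have h2 : (π : OO) = -s7 := congrArg Subtype.val h
        rw [← h2]
        exact π.2
      · show (if h : (s : OO) ∈ S then y.1 ⟨s, h⟩ else 0) = 0
        rw [dif_neg hn]
      · intro p hp
        have hpS : (p : OO) ∈ S := by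
          rcases hmP _ p.2 with h | h
          · exact absurd (Subtype.ext h) hp
          · exact h
        have h3 := hme (fun p => if h : (p : OO) ∈ S then y.1 ⟨p, h⟩ else 0)
          (by rw [dif_neg hn]) ⟨p, hpS⟩
        have h4 : (fun ρ : S => (fun p : P => if h : (p : OO) ∈ S then y.1 ⟨p, h⟩ else 0)
            ⟨ρ, hm _ ρ.2⟩) = y.1 := by
          funext ρ
          show (if h : (ρ : OO) ∈ S then y.1 ⟨ρ, h⟩ else 0) = _
          rw [dif_pos ρ.2]
        rw [ns_qs]
        refine h3.trans ?_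
        rw [h4]
        have h6 := y.2
        rw [LinearMap.mem_ker, Matrix.mulVecLin_apply] at h6
        rw [← hBB, h6]
        rfl
      · apply Subtype.ext
        funext p
        show (if h : (p : OO) ∈ S then v.1 ⟨p, _⟩ else 0) = v.1 p
        by_cases hp : (p : OO) ∈ S
        · rw [dif_pos hp]
        · rw [dif_neg hp]
          have : p = s := by
            rcases hmP _ p.2 with h | h
            · exact Subtype.ext h
            · exact absurd h hp
          rw [this, v.2.1]
      · apply Subtype.ext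
        funext ρ
        show (if h : (ρ : OO) ∈ S then y.1 ⟨ρ, h⟩ else 0) = _
        rw [dif_pos ρ.2]
    rw [h1, hk] at key
    exact Nat.pow_right_injective (le_refl 2) key
  · intro p
    rw [MP_mp]
    unfold mp
    rw [if_pos rfl, ns_qs]
    congr 1
    have h1 : ∀ q ∈ Finset.univ.erase p, MP P p q = qs (q : OO) (p : OO) := by
      intro q hq
      rw [MP_mp]
      unfold mp
      rw [if_neg]
      intro h
      exact Finset.ne_of_mem_erase hq (Subtype.ext h.symm)
    rw [Finset.sum_congr rfl h1]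
    refine Finset.sum_bij' (i := fun (r : OO) hr => (⟨r, Finset.mem_of_mem_erase hr⟩ : P))
      (j := fun (q : P) _ => (q : OO)) ?_ ?_ ?_ ?_ ?_
    · intro r hr
      refine Finset.mem_erase.2 ⟨fun h => Finset.ne_of_mem_erase hr (congrArg Subtype.val h),
        Finset.mem_univ _⟩
    · intro q hq
      exact Finset.mem_erase.2 ⟨fun h => Finset.ne_of_mem_erase hq (Subtype.ext h), q.2⟩
    · intro r hr; rfl
    · intro q hq; rfl
    · intro r hr; rfl
  · intro p q hpq
    show MP P p q + MP P q p = _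
    unfold MP
    rw [Matrix.of_apply, Matrix.of_apply, if_neg hpq, if_neg (Ne.symm hpq)]
    exact rec_P hS (hP ▸ p.2) (hP ▸ q.2) fun h => hpq (Subtype.ext h)
  · rw [Finset.sum_coe_sort P (fun q : OO => ns q (-1)), hP, Finset.sum_insert hn, ns_qs,
      qs_neg_mod, qs_s7_neg]
    have h1 : ∑ q ∈ S, ns q (-1) = 0 := by
      rw [← sum_t' hS]
      refine Finset.sum_congr rfl fun q hq => ?_
      rw [ns_qs, (t_REC.2 q (hS.pp q hq)).2]
    rw [h1, add_zero]

end Pool.Agent.H848.BKD
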