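import Pool.Agent.H848.BKD.EvT

/-!
# The number of the good tables is odd
-/

set_option autoImplicit false
set_option linter.unusedSectionVars false
set_option linter.unusedVariables false

namespace Pool.Agent.H848.BKD

open Pool.Agent.R384
open Pool.Agent.H463.QE (ns MP IsP Fs)
open QuadraticAlgebra Matrix

open scoped Classical

section la

variable {ι : Type} [Fintype ι] [DecidableEq ι]

/-- the diagonal of a table -/
def dgo (a : ι → ZMod 2) : Option ι → ZMod 2
  | none => 0
  | some j => a j

theorem sum_det_option (N : Matrix (Option ι) (Option ι) (ZMod 2)) :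
    ∑ a : ι → ZMod 2, (N + diagonal (dgo a)).det = N none none := by
  have z2n : ∀ x : ZMod 2, -x = x := by decide
  have h1 : ∀ a : ι → ZMod 2, (N + diagonal (dgo a)).det =
      ∑ σ : Equiv.Perm (Option ι), N (σ none) none *
        ∏ j : ι, (N (σ (some j)) (some j) + if σ (some j) = some j then a j else 0) := by
    intro a
    rw [det_apply]
    refine Finset.sum_congr rfl fun σ _ => ?_
    have h2 : ∀ x : ZMod 2, Equiv.Perm.sign σ • x = x := by
      intro x
      rcases Int.units_eq_one_or (Equiv.Perm.sign σ) with h | h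
      · rw [h, one_smul]
      · rw [h, Units.neg_smul, one_smul, z2n]
    rw [h2, Fintype.prod_option]
    congr 1
    · rw [Matrix.add_apply, diagonal_apply]
      by_cases h3 : σ none = none
      · rw [if_pos h3, h3]
        show N none none + 0 = _
        rw [add_zero]
      · rw [if_neg h3, add_zero]
    · refine Finset.prod_congr rfl fun j _ => ?_
      rw [Matrix.add_apply, diagonal_apply]
      congr 1
      by_cases h3 : σ (some j) = some j
      · rw [if_pos h3, if_pos h3, h3]
        rfl
      · rw [if_neg h3, if_neg h3]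
  simp only [h1]
  rw [Finset.sum_comm]
  have h4 : ∀ σ : Equiv.Perm (Option ι), (∑ a : ι → ZMod 2, N (σ none) none *
      ∏ j : ι, (N (σ (some j)) (some j) + if σ (some j) = some j then a j else 0)) =
      N (σ none) none * ∏ j : ι, ∑ t : ZMod 2,
        (N (σ (some j)) (some j) + if σ (some j) = some j then t else 0) := by
    intro σ
    rw [← Finset.mul_sum]
    congr 1
    rw [Finset.prod_univ_sum]
    rw [Fintype.piFinset_univ]
  simp only [h4]
  have h5 : ∀ (m : ZMod 2), ∑ t : ZMod 2, (m + t) = 1 := by decide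
  have h6 : ∀ (m : ZMod 2), ∑ t : ZMod 2, (m + 0) = 0 := by decide
  rw [Finset.sum_eq_single (1 : Equiv.Perm (Option ι))]
  · rw [Finset.prod_eq_one fun j _ => ?_]
    · rw [mul_one]
      rfl
    · have : ∀ t : ZMod 2, (if (1 : Equiv.Perm (Option ι)) (some j) = some j then t else 0) = t :=
        fun t => if_pos rfl
      simp only [this]
      exact h5 _
  · intro σ _ hσ
    obtain ⟨j, hj⟩ : ∃ j : ι, σ (some j) ≠ some j := by
      by_contra h
      push Not at h
      apply hσ
      have hn : σ none = none := by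
        rcases hk : σ none with _ | k
        · rfl
        · exfalso
          have h7 : σ (some k) = σ none := (h k).trans hk.symm
          exact Option.some_ne_none k (σ.injective h7)
      refine Equiv.ext fun o => ?_
      rcases o with _ | j
      · exact hn
      · exact h j
    rw [Finset.prod_eq_zero (Finset.mem_univ j), mul_zero]
    have : ∀ t : ZMod 2, (if σ (some j) = some j then t else 0) = 0 := fun t => if_neg hj
    simp only [this]
    exact h6 _
  · intro h
    exact absurd (Finset.mem_univ _) h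

end la

lemma sum_bmx (P : Finset OO) (g d : OO → ZMod 2) (c : ZMod 2) :
    ∑ a : P → ZMod 2, (BMX P g d (ext1 P a) c).det = c := by
  have h1 := sum_det_option (BMX P g d (fun _ => 0) c)
  have h2 : ∀ a : P → ZMod 2, BMX P g d (ext1 P a) c =
      BMX P g d (fun _ => 0) c + diagonal (dgo a) := by
    intro a
    ext i k
    rw [Matrix.add_apply]
    rcases i with _ | p
    · rcases k with _ | q
      · rw [diagonal_apply_eq]
        show c = c + 0
        rw [add_zero]
      · rw [diagonal_apply_ne _ (by simp), add_zero]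
        rfl
    · rcases k with _ | q
      · rw [diagonal_apply_ne _ (by simp), add_zero]
        rfl
      · by_cases h : p = q
        · subst h
          rw [diagonal_apply_eq]
          show (if (p : OO) = p then ext1 P a p + ∑ r ∈ P.erase (p : OO), qs r (p : OO) else
            qs (p : OO) (p : OO)) = (if (p : OO) = p then 0 + ∑ r ∈ P.erase (p : OO),
            qs r (p : OO) else qs (p : OO) (p : OO)) + a p
          rw [if_pos rfl, if_pos rfl, ext1_mem a p.2, zero_add, add_comm]
        · rw [diagonal_apply_ne _ (fun h' => h (Option.some.inj h')), add_zero]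
          show (if (p : OO) = q then ext1 P a p + ∑ r ∈ P.erase (p : OO), qs r (p : OO) else
            qs (q : OO) (p : OO)) = (if (p : OO) = q then 0 + ∑ r ∈ P.erase (p : OO),
            qs r (p : OO) else qs (q : OO) (p : OO))
          rw [if_neg fun h' => h (Subtype.ext h'), if_neg fun h' => h (Subtype.ext h')]
  rw [show (∑ a : P → ZMod 2, (BMX P g d (ext1 P a) c).det) = ∑ a : P → ZMod 2,
    (BMX P g d (fun _ => 0) c + diagonal (dgo a)).det from
    Finset.sum_congr rfl fun a _ => by rw [h2 a]]
  exact h1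

/-- the tables -/
noncomputable def tbe {P : Finset OO} (h1 : om ∉ P) (h2 : 1 - om ∉ P) :
    (Tb P → ZMod 2) ≃ (P → ZMod 2) × ZMod 2 × ZMod 2 where
  toFun u := (fun p => u ⟨p, P_Tb p.2⟩, u ⟨om, om_Tb P⟩, u ⟨1 - om, om'_Tb P⟩)
  invFun v := fun x => if x = ⟨om, om_Tb P⟩ then v.2.1 else
    if x = ⟨1 - om, om'_Tb P⟩ then v.2.2 else ext1 P v.1 x
  left_inv u := by
    funext x
    by_cases hx : x = ⟨om, om_Tb P⟩
    · rw [hx]
      exact if_pos rfl
    · by_cases hx' : x = ⟨1 - om, om'_Tb P⟩
      · rw [hx']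
        show (if (⟨1 - om, om'_Tb P⟩ : Tb P) = ⟨om, om_Tb P⟩ then _ else _) = _
        rw [if_neg fun h => om_ne (congrArg Subtype.val h).symm, if_pos rfl]
      · show (if x = ⟨om, om_Tb P⟩ then _ else _) = _
        rw [if_neg hx, if_neg hx']
        have hxP : (x : OO) ∈ P := by
          rcases Finset.mem_insert.1 x.2 with h | h
          · exact absurd (Subtype.ext h) hx
          · rcases Finset.mem_insert.1 h with h | h
            · exact absurd (Subtype.ext h) hx'
            · exact h
        rw [ext1_mem _ hxP]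
  right_inv v := by
    refine Prod.ext ?_ (Prod.ext ?_ ?_)
    · funext p
      show (if (⟨(p : OO), P_Tb p.2⟩ : Tb P) = ⟨om, om_Tb P⟩ then v.2.1 else
        if (⟨(p : OO), P_Tb p.2⟩ : Tb P) = ⟨1 - om, om'_Tb P⟩ then v.2.2 else ext1 P v.1 p) = v.1 p
      rw [if_neg, if_neg, ext1_mem _ p.2]
      · intro h
        apply h2
        have h3 : (p : OO) = 1 - om := congrArg Subtype.val h
        rw [← h3]
        exact p.2
      · intro h
        apply h1
        have h3 : (p : OO) = om := congrArg Subtype.val h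
        rw [← h3]
        exact p.2
    · show (if (⟨om, om_Tb P⟩ : Tb P) = ⟨om, om_Tb P⟩ then v.2.1 else
        if (⟨om, om_Tb P⟩ : Tb P) = ⟨1 - om, om'_Tb P⟩ then v.2.2 else ext1 P v.1 om) = v.2.1
      rw [if_pos rfl]
    · show (if (⟨1 - om, om'_Tb P⟩ : Tb P) = ⟨om, om_Tb P⟩ then v.2.1 else
        if (⟨1 - om, om'_Tb P⟩ : Tb P) = ⟨1 - om, om'_Tb P⟩ then v.2.2 else
          ext1 P v.1 (1 - om)) = v.2.2
      rw [if_neg fun h => om_ne (congrArg Subtype.val h).symm, if_pos rfl]

lemma TT_tbe {P : Finset OO} (h1 : om ∉ P) (h2 : 1 - om ∉ P) (u : Tb P → ZMod 2) :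
    TT P u = TX P (ext1 P (tbe h1 h2 u).1) (tbe h1 h2 u).2.1 (tbe h1 h2 u).2.2 := by
  unfold TT
  refine TX_congr (fun p hp => ?_) _ _
  rw [ext1_mem _ (P_Tb hp), ext1_mem _ hp]
  rfl

lemma sum_TT {P : Finset OO} (h1 : om ∉ P) (h2 : 1 - om ∉ P) :
    ∑ u : Tb P → ZMod 2, (TT P u).det = 1 := by
  simp only [TT_tbe h1 h2]
  rw [Equiv.sum_comp (tbe h1 h2) fun v : (P → ZMod 2) × ZMod 2 × ZMod 2 =>
    (TX P (ext1 P v.1) v.2.1 v.2.2).det, Fintype.sum_prod_type_right]
  have h3 : ∀ y : ZMod 2 × ZMod 2, ∑ x : P → ZMod 2, (TX P (ext1 P x) y.1 y.2).det =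
      1 + (Xs P + y.1) * (Ys P + y.2) := fun y => sum_bmx P _ _ _
  simp only [h3]
  generalize Xs P = X
  generalize Ys P = Y
  revert X Y
  decide

/-- **the number is odd** -/
theorem odd_NE {D : OO} (hD : Ad D) {P : Finset OO} (hP : IsP om D P) : Odd (NE P 0) := by
  obtain ⟨h1, h2⟩ : om ∉ P ∧ 1 - om ∉ P := by
    obtain ⟨S, hS, -, rfl⟩ := prm hD hP
    exact notin_P hS
  have h3 : NE P 0 = Nat.card {u : Tb P → ZMod 2 // (TT P u).det ≠ 0} := by
    refine Nat.card_congr (Equiv.subtypeEquivRight fun u => ?_)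
    rw [det_rank, Fintype.card_option, Fintype.card_coe, add_zero]
  rw [h3, Nat.card_eq_fintype_card, Fintype.card_subtype]
  have h4 := sum_TT h1 h2
  have h5 : ∀ x : ZMod 2, x = if x ≠ 0 then 1 else 0 := by decide
  have h6 : ∑ u : Tb P → ZMod 2, (TT P u).det =
      (((Finset.univ.filter fun u : Tb P → ZMod 2 => (TT P u).det ≠ 0).card : ℕ) : ZMod 2) := by
    rw [Finset.sum_congr rfl fun u _ => h5 _, Finset.sum_boole]
  rw [h4] at h6
  rw [← Nat.not_even_iff_odd, ← ZMod.natCast_eq_zero_iff_even]
  intro h7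
  rw [h7] at h6
  exact one_ne_zero h6

end Pool.Agent.H848.BKD
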