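import Pool.Agent.H848.BKD.Fld

/-!
# The coranks of the twists by primes, in `ℤ[ω]`
-/

set_option autoImplicit false
set_option linter.unusedSectionVars false
set_option linter.unusedVariables false

attribute [-instance] DivisionRing.toRatAlgebra

open NumberField IsDedekindDomain Filter Topology

namespace Pool.Agent.H848.BKD

open Pool.Agent.R384
open Pool.Agent.H463.QE (ns MP IsP Fs)
open Pool.Agent.H463.PT (Sys sys_of mem_P isP_insert fs_insert odd_card)
open Pool.Agent.Y698 (RR aR fR nR aR_sq)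
open Pool.Agent.R426.QD (Pn r4)
open Pool.Agent.R426.QC (Pm)

open scoped Classical

/-! ### The norms -/

lemma norm_alg (z : OO) : Algebra.norm ℤ z = QuadraticAlgebra.norm z := by
  rw [Algebra.norm_apply, ← QuadraticAlgebra.det_toLinearMap_eq_norm]
  rfl

lemma norm_psi {K : Type} [Field K] [NumberField K] (ψ : OO ≃+* 𝓞 K) (x : OO) :
    Algebra.norm ℤ (ψ x) = QuadraticAlgebra.norm x := by
  rw [← norm_alg]
  exact Algebra.norm_eq_of_algEquiv (AlgEquiv.ofRingEquiv (f := ψ) fun r => by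
    rw [eq_intCast, eq_intCast, map_intCast]) x

lemma ns_psi {R : Type} [CommRing R] (ψ : OO ≃+* R) (x y : OO) : ns (ψ x) (ψ y) = ns x y := by
  unfold ns
  have h1 : (∃ z : R, ψ x ∣ z ^ 2 - ψ y) ↔ ∃ z : OO, x ∣ z ^ 2 - y := by
    constructor
    · rintro ⟨z, hz⟩
      obtain ⟨z, rfl⟩ := ψ.surjective z
      refine ⟨z, ?_⟩
      rw [← map_pow, ← map_sub] at hz
      exact (map_dvd_iff ψ).1 hz
    · rintro ⟨z, hz⟩
      refine ⟨ψ z, ?_⟩
      rw [← map_pow, ← map_sub]
      exact (map_dvd_iff ψ).2 hz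
  by_cases h2 : ∃ z : OO, x ∣ z ^ 2 - y
  · rw [if_pos h2, if_pos (h1.2 h2)]
  · rw [if_neg h2, if_neg fun h3 => h2 (h1.1 h3)]

lemma psi14 {R : Type} [CommRing R] (ψ : OO ≃+* R) (x : OO) : ψ (1 + 4 * x) = 1 + 4 * ψ x := by
  rw [map_add, map_one, map_mul, map_ofNat]

/-- **the proportions** -/
theorem share_OO {D : OO} (hD : Ad D) {P : Finset OO} (hP : IsP om D P) {G : OO → Prop}
    {Q : (P → ZMod 2) → Prop} (hG : ∀ x : OO, Prime (1 + 4 * x) → 1 + 4 * x ∉ P →
      (G x ↔ Q fun p : P => ns (1 + 4 * x) (p : OO))) :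
    Tendsto (fun X : ℕ =>
      ({x : OO | (QuadraticAlgebra.norm (1 + 4 * x)).natAbs ≤ X ∧ Prime (1 + 4 * x) ∧
        G x}.ncard : ℝ) /
        ({x : OO | (QuadraticAlgebra.norm (1 + 4 * x)).natAbs ≤ X ∧ Prime (1 + 4 * x)}.ncard : ℝ))
      atTop (𝓝 ((Nat.card {u : P → ZMod 2 // Q u} : ℝ) / 2 ^ P.card)) := by
  obtain ⟨w, hw⟩ := exists_w
  have := nf_KK hw
  obtain ⟨e, -⟩ := exists_psi hw
  obtain ⟨S, hS, hprod, hf, hDe⟩ := exists_ps hD
  set ψ : OO ≃+* 𝓞 (Pool.Agent.Y715.Gi.KK w) := phi.trans e with hψ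
  have hsq : Squarefree (fR * phi D) := by
    rw [← phi_s7, ← map_mul]
    intro x hx
    obtain ⟨x, rfl⟩ := phi.surjective x
    rw [← map_mul, phi_dvd] at hx
    exact (MulEquiv.isUnit_map phi.toMulEquiv).2 (hD.1 x hx)
  have hP' : IsP (e aR) (e (phi D)) (P.image ψ) := by
    intro p
    obtain ⟨q, rfl⟩ := ψ.surjective p
    have h1 : (2 * e aR - 1) * e (phi D) = ψ ((2 * om - 1) * D) := by
      rw [hψ, RingEquiv.trans_apply, map_mul, map_mul, ← phi_om, map_sub, map_sub, map_mul,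
        map_mul, map_one, map_one, map_ofNat, map_ofNat]
    have h2 : e aR ^ 2 = ψ (om ^ 2) := by
      rw [hψ, RingEquiv.trans_apply, map_pow, map_pow, phi_om]
    have h3 : ψ q - 1 = ψ (q - 1) := by rw [map_sub, map_one]
    rw [h1, h2, h3, map_dvd_iff ψ, map_dvd_iff ψ]
    have h4 : Prime (ψ q) ↔ Prime q := MulEquiv.prime_iff ψ.toMulEquiv
    rw [h4, ← hP q, Finset.mem_image]
    constructor
    · rintro ⟨x, hx, h⟩
      rwa [← ψ.injective h]
    · intro h
      exact ⟨q, h, rfl⟩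
  let ε : P ≃ ↥(P.image ψ) :=
    Equiv.ofBijective (fun p => ⟨ψ p, Finset.mem_image_of_mem _ p.2⟩)
      ⟨fun p q h => Subtype.ext (ψ.injective (congrArg Subtype.val h)), fun ⟨p, hp⟩ => by
        obtain ⟨q, hq, rfl⟩ := Finset.mem_image.1 hp
        exact ⟨⟨q, hq⟩, rfl⟩⟩
  have key := share' hf hDe hP' hsq (G := fun x => G (ψ.symm x)) (Q := fun u => Q (u ∘ ε)) ?_
  · have hcard : (Nat.card {u : ↥(P.image ψ) → ZMod 2 //
        Q (u ∘ ε)}) = Nat.card {u : P → ZMod 2 // Q u} := by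
      refine Nat.card_congr ⟨fun u => ⟨u.1 ∘ ε, u.2⟩, fun u => ⟨u.1 ∘ ε.symm, ?_⟩, fun u => ?_,
        fun u => ?_⟩
      · have : (u.1 ∘ ε.symm) ∘ ε = u.1 := by
          funext p
          simp
        rw [this]
        exact u.2
      · apply Subtype.ext
        funext p
        simp
      · apply Subtype.ext
        funext p
        simp
    rw [hcard, Finset.card_image_of_injective _ ψ.injective] at key
    refine key.congr fun X => ?_
    have himg : ∀ H : OO → Prop, {x : 𝓞 (Pool.Agent.Y715.Gi.KK w) |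
        (Algebra.norm ℤ (1 + 4 * x)).natAbs ≤ X ∧ Prime (1 + 4 * x) ∧ H (ψ.symm x)}.ncard =
        {x : OO | (QuadraticAlgebra.norm (1 + 4 * x)).natAbs ≤ X ∧ Prime (1 + 4 * x) ∧
          H x}.ncard := by
      intro H
      rw [← Set.ncard_image_of_injective _ ψ.injective]
      congr 1
      ext y
      obtain ⟨x, rfl⟩ := ψ.surjective y
      have h4 : Prime (ψ (1 + 4 * x)) ↔ Prime (1 + 4 * x) := MulEquiv.prime_iff ψ.toMulEquiv
      simp only [Set.mem_ofPred_eq, Set.mem_image]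
      rw [← psi14 ψ, norm_psi, h4, ψ.symm_apply_apply]
      constructor
      · intro h
        exact ⟨x, h, rfl⟩
      · rintro ⟨x', h, hx⟩
        rwa [← ψ.injective hx]
    have h1 := himg G
    have h2 := himg fun _ => True
    simp only [and_true] at h2
    rw [h1, h2]
  · intro x hx hxP
    obtain ⟨x, rfl⟩ := ψ.surjective x
    rw [ψ.symm_apply_apply]
    rw [← psi14 ψ] at hx hxP ⊢
    have h4 : Prime (ψ (1 + 4 * x)) ↔ Prime (1 + 4 * x) := MulEquiv.prime_iff ψ.toMulEquiv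
    rw [hG x (h4.1 hx) (fun h => hxP (Finset.mem_image_of_mem _ h))]
    have h5 : (fun p : P => ns (1 + 4 * x) (p : OO)) =
        (fun p : ↥(P.image ψ) =>
          ns (ψ (1 + 4 * x)) (p : 𝓞 (Pool.Agent.Y715.Gi.KK w))) ∘ ε := by
      funext p
      show _ = ns (ψ (1 + 4 * x)) (ψ p)
      rw [ns_psi]
    rw [h5]

/-! ### The coranks -/

/-- the corank of the matrix of the symbols of `D` -/
def Ck (D : OO) (r : ℕ) : Prop := ∃ P : Finset OO, IsP om D P ∧ (MP P).rank + r = P.card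

lemma rank_le_P {R : Type} [CommRing R] (P : Finset R) (M : Matrix P P (ZMod 2)) :
    M.rank ≤ P.card := by
  have := Matrix.rank_le_card_width M
  rwa [Fintype.card_coe] at this

lemma isP_unique {R : Type} [CommRing R] {a D : R} {P P' : Finset R} (h : IsP a D P)
    (h' : IsP a D P') : P = P' := by
  ext p
  rw [h p, h' p]

lemma ck_iff {D : OO} {P : Finset OO} (h : IsP om D P) (r : ℕ) :
    Ck D r ↔ r = P.card - (MP P).rank := by
  have h1 := rank_le_P P (MP P)
  constructor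
  · rintro ⟨P', hP', h2⟩
    rw [isP_unique hP' h] at h2
    omega
  · intro h2
    exact ⟨P, h, by omega⟩

/-- the corank is well defined -/
lemma ck_unique {D : OO} (hD : Ad D) : ∃! r, Ck D r := by
  obtain ⟨S, hS, hprod, hf, hDe⟩ := exists_ps hD
  have hP := (isP_iff hS hf hDe (insert (-s7) S)).2 rfl
  refine ⟨_, (ck_iff hP _).2 rfl, fun r hr => (ck_iff hP r).1 hr⟩

/-- the corank and the primes -/
lemma ck_crk {D : OO} {r : ℕ} (hD : Ad D) (h : Ck D r) : ∃ S : Finset OO, PS S ∧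
    ∏ q ∈ S, q = D ∧ crk S = r := by
  obtain ⟨S, hS, hprod, hf, hDe⟩ := exists_ps hD
  have hP := (isP_iff hS hf hDe (insert (-s7) S)).2 rfl
  refine ⟨S, hS, hprod, ?_⟩
  rw [← cork_eq hS]
  exact ((ck_iff hP r).1 h).symm

/-- the twist by a prime -/
theorem ad_twist {D : OO} (hD : Ad D) {P : Finset OO} (hP : IsP om D P) {x : OO}
    (hx : Prime (1 + 4 * x)) (hxP : 1 + 4 * x ∉ P) :
    Ad (D * (1 + 4 * x)) ∧ IsP om (D * (1 + 4 * x)) (insert (1 + 4 * x) P) ∧
      Sys (insert (1 + 4 * x) P) := by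
  obtain ⟨S, hS, hprod, hf, hDe⟩ := exists_ps hD
  have hpm : Pm (phi (1 + 4 * x)) := ⟨phi_prime.2 hx, phi x, by
    rw [map_add, map_one, map_mul, map_ofNat]⟩
  have hPP := (isP_iff hS hf hDe P).1 hP
  have hxS : phi (1 + 4 * x) ∉ S.image phi := by
    rw [Finset.mem_image]
    rintro ⟨y, hy, h⟩
    rw [phi.injective h] at hy
    apply hxP
    rw [hPP]
    exact Finset.mem_insert_of_mem hy
  obtain ⟨hnf, hf', hprod'⟩ := fs_insert hf hpm hxS
  have hsq := hf'.sqf7
  have hpr : ∏ x ∈ insert (phi (1 + 4 * x)) (S.image phi), x = phi (D * (1 + 4 * x)) := by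
    rw [hprod', ← hDe, map_mul]
  rw [hpr] at hsq
  have hAd : Ad (D * (1 + 4 * x)) := by
    refine ⟨fun y hy => ?_, ?_⟩
    · have h1 : phi y * phi y ∣ fR * phi (D * (1 + 4 * x)) := by
        rw [← phi_s7, ← map_mul, ← map_mul, phi_dvd]
        exact hy
      exact (MulEquiv.isUnit_map phi.toMulEquiv).1 (hsq _ h1)
    · obtain ⟨c, hc⟩ := hD.2
      exact ⟨c + D * x, by linear_combination hc⟩
  have e1 : phi om = aR := phi_om
  have hPR : IsP (phi.symm aR) (phi.symm (phi D)) P := by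
    rw [← phi_om, phi.symm_apply_apply, phi.symm_apply_apply]
    exact hP
  have h2 := isP_insert (e := phi.symm) hf hDe hPR hpm hxS
  rw [← phi_om, phi.symm_apply_apply, ← map_mul, phi.symm_apply_apply,
    phi.symm_apply_apply] at h2
  have h3 : IsP om (D * (1 + 4 * x)) (insert (1 + 4 * x) P) := by
    rw [insert_inst _ (fun a b => Classical.propDecidable (a = b))]
    exact h2
  refine ⟨hAd, h3, ?_⟩
  refine sys_of (e := phi.symm) hf' (D := phi (D * (1 + 4 * x))) hpr.symm ?_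
  rw [← phi_om, phi.symm_apply_apply, phi.symm_apply_apply]
  exact h3

/-- **the corank of the twist by a prime** -/
theorem ck_twist {D : OO} (hD : Ad D) {P : Finset OO} (hP : IsP om D P) {x : OO}
    (hx : Prime (1 + 4 * x)) (hxP : 1 + 4 * x ∉ P) (r : ℕ) :
    Ck (D * (1 + 4 * x)) r ↔
      (tm P fun p : P => ns (1 + 4 * x) (p : OO)).rank + r = P.card := by
  obtain ⟨h1, h2, h3⟩ := ad_twist hD hP hx hxP
  have h4 := cork_insert (P := P) (q := 1 + 4 * x) hxP (by
    rw [insert_inst _ (fun a b => instDecidableEqQuadraticAlgebra a b)]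
    exact h3)
  rw [ck_iff h2]
  have h5 : (insert (1 + 4 * x) P).card - (MP (insert (1 + 4 * x) P)).rank =
      P.card - (tm P fun p : P => ns (1 + 4 * x) (p : OO)).rank := by
    rw [insert_inst _ (fun a b => Classical.propDecidable (a = b))]
    exact h4
  rw [h5]
  have h6 := rank_le_P P (tm P fun p : P => ns (1 + 4 * x) (p : OO))
  omega

/-- the number of the diagonal matrices such that the sum has corank `r` -/
noncomputable def Nu (P : Finset OO) (r : ℕ) : ℕ :=
  Nat.card {u : P → ZMod 2 // (MP P + Matrix.diagonal u).rank + r = P.card}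

lemma nu_tm (P : Finset OO) (r : ℕ) :
    Nat.card {u : P → ZMod 2 // (tm P u).rank + r = P.card} = Nu P r := by
  unfold Nu tm
  refine Nat.card_congr (Equiv.subtypeEquiv (Equiv.addRight fun p : P => ns (p : OO) (-1)) ?_)
  intro u
  rw [diagonal_inst _ (fun a b => Subtype.instDecidableEq a b)]
  rfl

/-- **the exact distribution of the coranks of the twists by primes** -/
theorem dist {D : OO} (hD : Ad D) {P : Finset OO} (hP : IsP om D P) (r : ℕ) :
    Tendsto (fun X : ℕ =>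
      ({x : OO | (QuadraticAlgebra.norm (1 + 4 * x)).natAbs ≤ X ∧ Prime (1 + 4 * x) ∧
        Ck (D * (1 + 4 * x)) r}.ncard : ℝ) /
        ({x : OO | (QuadraticAlgebra.norm (1 + 4 * x)).natAbs ≤ X ∧ Prime (1 + 4 * x)}.ncard : ℝ))
      atTop (𝓝 ((Nu P r : ℝ) / 2 ^ P.card)) := by
  rw [← nu_tm]
  exact share_OO hD hP (Q := fun u => (tm P u).rank + r = P.card) fun x hx hxP =>
    ck_twist hD hP hx hxP r

/-- the corank zero occurs -/
theorem odd_nu (P : Finset OO) : Odd (Nu P 0) := by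
  have h1 := odd_card (MP P)
  have h2 : Nu P 0 = Nat.card {u : P → ZMod 2 // (MP P + Matrix.diagonal u).det ≠ 0} := by
    refine Nat.card_congr (Equiv.subtypeEquivRight fun u => ?_)
    have h2 : ∀ i : DecidableEq P, (@Matrix.det P i _ _ _ (MP P + Matrix.diagonal u) ≠ 0 ↔
        (MP P + Matrix.diagonal u).rank = Fintype.card P) := fun i =>
      @det_rank P _ i (MP P + Matrix.diagonal u)
    rw [h2, Fintype.card_coe, add_zero]
  rw [h2]
  have h3 : ∀ (i j k l : DecidableEq P) (u : P → ZMod 2),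
      (@Matrix.det P i _ _ _ (MP P + @Matrix.diagonal P (ZMod 2) j _ u) ≠ 0) =
      (@Matrix.det P k _ _ _ (MP P + @Matrix.diagonal P (ZMod 2) l _ u) ≠ 0) := by
    intro i j k l u
    rw [Subsingleton.elim k i, Subsingleton.elim l j]
  refine (congrArg (fun n => Odd n) (congrArg (fun Q : (P → ZMod 2) → Prop =>
    Nat.card {u : P → ZMod 2 // Q u}) (funext fun u => h3 _ _ _ _ u))).mp h1

end Pool.Agent.H848.BKD
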