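import Pool.Agent.H848.BKD.Adm

/-!
# The coranks of the twists by primes: the exact distribution
-/

set_option autoImplicit false
set_option linter.unusedSectionVars false
set_option linter.unusedVariables false

attribute [-instance] DivisionRing.toRatAlgebra

open NumberField IsDedekindDomain Filter Topology

namespace Pool.Agent.H848.BKD

open Pool.Agent.H463.QE (ns MP IsP Fs)
open Pool.Agent.H463.PT (gm gm_self gm_ne Sys row_sum col_sum MP_apply)

open scoped Classical

/-! ### The corank of the twist -/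

section cork

variable {R : Type} [CommRing R]

lemma hz2 : ∀ y : ZMod 2, y + y = 0 := by decide

lemma card_cork (P : Finset R) (h : Sys P) {q : R} (hq : q ∈ P) :
    2 ^ (P.card - (MP P).rank) = Nat.card {v : P → ZMod 2 // v ⟨q, hq⟩ = 0 ∧
      ∀ p : P, p ≠ ⟨q, hq⟩ → (MP P).mulVec v p + ns (p : R) (-1) * v p = 0} := by
  have key := lin_bij (MP P) (fun p : P => ns (p : R) (-1)) ⟨q, hq⟩ ?_ ?_ ?_
  · rw [card_kerT, Fintype.card_coe] at key
    exact key
  · intro p
    have h1 := row_sum (P := P) p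
    rw [← Finset.add_sum_erase _ _ (Finset.mem_univ p)] at h1
    have h2 := hz2 (∑ q ∈ Finset.univ.erase p, MP P p q)
    linear_combination h1 - h2
  · intro p q hpq
    rw [MP_apply, MP_apply, gm_ne P (fun h' => hpq (Subtype.ext h')),
      gm_ne P (fun h' => hpq (Subtype.ext h'.symm))]
    exact h.rcp p p.2 q q.2 fun h' => hpq (Subtype.ext h')
  · rw [Finset.sum_coe_sort P fun p => ns p (-1)]
    exact h.sum

lemma card_kerM {ι : Type} [Fintype ι] [DecidableEq ι] (M : Matrix ι ι (ZMod 2)) :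
    Nat.card {u : ι → ZMod 2 // M.mulVec u = 0} = 2 ^ (Fintype.card ι - M.rank) := by
  have h := card_kerT M.transpose
  rwa [Matrix.transpose_transpose, Matrix.rank_transpose] at h

/-- the twisted matrix -/
noncomputable def tm (P : Finset R) (a : P → ZMod 2) : Matrix P P (ZMod 2) :=
  MP P + Matrix.diagonal fun p : P => a p + ns (p : R) (-1)

/-- **the corank of the twist** -/
theorem cork_insert {P : Finset R} {q : R} (hq : q ∉ P) (h : Sys (insert q P)) :
    (insert q P).card - (MP (insert q P)).rank =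
      P.card - (tm P fun p : P => ns q (p : R)).rank := by
  have h1 := card_cork (insert q P) h (Finset.mem_insert_self q P)
  have h2 := card_kerM (tm P fun p : P => ns q (p : R))
  rw [Fintype.card_coe] at h2
  obtain ⟨P', hP'⟩ : ∃ P', P' = insert q P := ⟨_, rfl⟩
  have hq' : q ∈ P' := by rw [hP']; exact Finset.mem_insert_self _ _
  have hm : ∀ p ∈ P, p ∈ P' := fun p hp => by rw [hP']; exact Finset.mem_insert_of_mem hp
  have hmP : ∀ p ∈ P', p = q ∨ p ∈ P := fun p hp => by rw [hP'] at hp; exact Finset.mem_insert.1 hp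
  have key : ∀ (v : P' → ZMod 2), v ⟨q, hq'⟩ = 0 → ∀ p : P,
      (MP P').mulVec v ⟨p, hm _ p.2⟩ + ns (p : R) (-1) * v ⟨p, hm _ p.2⟩ =
      (tm P fun p : P => ns q (p : R)).mulVec (fun r : P => v ⟨r, hm _ r.2⟩) p := by
    intro v hv p
    set g : R → ZMod 2 := fun x => if h : x ∈ P' then v ⟨x, h⟩ else 0 with hg
    have gP : ∀ r : P', v r = g r := fun r => by
      show v r = if h : (r : R) ∈ P' then v ⟨r, h⟩ else 0
      rw [dif_pos r.2]
    have g0 : g q = 0 := by
      have := gP ⟨q, hq'⟩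
      rw [hv] at this
      exact this.symm
    have hne : (p : R) ≠ q := fun h => hq (h ▸ p.2)
    have e1 : (MP P').mulVec v ⟨p, hm _ p.2⟩ =
        gm P' (p : R) p * g p + ∑ r ∈ P.erase (p : R), ns r (p : R) * g r := by
      have e2 : (MP P').mulVec v ⟨p, hm _ p.2⟩ = ∑ r : P', gm P' (p : R) (r : R) * g (r : R) := by
        show ∑ r : P', MP P' ⟨p, hm _ p.2⟩ r * v r = _
        refine Finset.sum_congr rfl fun r _ => ?_
        rw [MP_apply, gP]
      rw [e2, Finset.sum_coe_sort P' (fun r : R => gm P' (p : R) r * g r), hP',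
        Finset.sum_insert hq, g0, mul_zero, zero_add, ← Finset.add_sum_erase P _ p.2]
      congr 1
      refine Finset.sum_congr rfl fun r hr => ?_
      rw [gm_ne _ (Finset.ne_of_mem_erase hr).symm]
    have e3 : (MP P).mulVec (fun r : P => v ⟨r, hm _ r.2⟩) p =
        gm P (p : R) p * g p + ∑ r ∈ P.erase (p : R), ns r (p : R) * g r := by
      have e2 : (MP P).mulVec (fun r : P => v ⟨r, hm _ r.2⟩) p =
          ∑ r : P, gm P (p : R) (r : R) * g (r : R) := by
        show ∑ r : P, MP P p r * v ⟨r, hm _ r.2⟩ = _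
        refine Finset.sum_congr rfl fun r _ => ?_
        rw [MP_apply, gP]
      rw [e2, Finset.sum_coe_sort P (fun r : R => gm P (p : R) r * g r),
        ← Finset.add_sum_erase P _ p.2]
      congr 1
      refine Finset.sum_congr rfl fun r hr => ?_
      rw [gm_ne _ (Finset.ne_of_mem_erase hr).symm]
    have e4 : gm P' (p : R) p = ns q (p : R) + gm P (p : R) p := by
      rw [gm_self, gm_self, hP', Finset.erase_insert_of_ne (Ne.symm hne), Finset.sum_insert]
      · ring
      · intro h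
        exact hq (Finset.mem_of_mem_erase h)
    have e5 : (tm P fun p : P => ns q (p : R)).mulVec (fun r : P => v ⟨r, hm _ r.2⟩) p =
        (MP P).mulVec (fun r : P => v ⟨r, hm _ r.2⟩) p + (ns q (p : R) + ns (p : R) (-1)) * g p := by
      unfold tm
      rw [Matrix.add_mulVec, Pi.add_apply, Matrix.mulVec_diagonal, gP]
    rw [e5, e3, e1, e4, gP]
    ring
  have h3 : Nat.card {v : P' → ZMod 2 // v ⟨q, hq'⟩ = 0 ∧
      ∀ p : P', p ≠ ⟨q, hq'⟩ → (MP P').mulVec v p + ns (p : R) (-1) * v p = 0} =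
      Nat.card {u : P → ZMod 2 // (tm P fun p : P => ns q (p : R)).mulVec u = 0} := by
    refine Nat.card_congr ⟨fun v => ⟨fun p : P => v.1 ⟨p, hm _ p.2⟩, ?_⟩,
        fun y => ⟨fun p => if h : (p : R) ∈ P then y.1 ⟨p, h⟩ else 0, ?_, ?_⟩, fun v => ?_,
        fun y => ?_⟩
    · funext p
      rw [← key v.1 v.2.1 p]
      refine v.2.2 _ fun h' => hq ?_
      have h2 : (p : R) = q := congrArg Subtype.val h'
      rw [← h2]
      exact p.2
    · show (if h : q ∈ P then y.1 ⟨q, h⟩ else 0) = 0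
      rw [dif_neg hq]
    · intro p hp
      have hpS : (p : R) ∈ P := by
        rcases hmP _ p.2 with h | h
        · exact absurd (Subtype.ext h) hp
        · exact h
      have h3 := key (fun p => if h : (p : R) ∈ P then y.1 ⟨p, h⟩ else 0)
        (by rw [dif_neg hq]) ⟨p, hpS⟩
      have h4 : (fun r : P => (fun p : P' => if h : (p : R) ∈ P then y.1 ⟨p, h⟩ else 0)
          ⟨r, hm _ r.2⟩) = y.1 := by
        funext r
        show (if h : (r : R) ∈ P then y.1 ⟨r, h⟩ else 0) = _
        rw [dif_pos r.2]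
      refine h3.trans ?_
      rw [h4, y.2]
      rfl
    · apply Subtype.ext
      funext p
      show (if h : (p : R) ∈ P then v.1 ⟨p, _⟩ else 0) = v.1 p
      by_cases hp : (p : R) ∈ P
      · rw [dif_pos hp]
      · rw [dif_neg hp]
        have : p = ⟨q, hq'⟩ := by
          rcases hmP _ p.2 with h | h
          · exact Subtype.ext h
          · exact absurd h hp
        rw [this, v.2.1]
    · apply Subtype.ext
      funext r
      show (if h : (r : R) ∈ P then y.1 ⟨r, h⟩ else 0) = _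
      rw [dif_pos r.2]
  subst hP'
  rw [h3, h2] at h1
  exact Nat.pow_right_injective (le_refl 2) h1

end cork

/-! ### The densities -/

section den

open Pool.Agent.H463.PT Pool.Agent.H463.QE
open Pool.Agent.R426.QC Pool.Agent.R426.QD
open Pool.Agent.Y698 Pool.Agent.Y698.SG
open Pool.Agent.W192.HK (sp)
open Pool.Agent.Q283.LQ (sb mon Lsq Dy)

variable {K : Type} [Field K] [NumberField K] {e : RR ≃+* 𝓞 K} {D : RR} {S : Finset RR}
  {P : Finset (𝓞 K)}

/-- the class -/
lemma class_iff' (hf : Fs S (fun x => x)) (hD : D = ∏ ϖ ∈ S, ϖ) (hP : IsP (e aR) (e D) P)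
    {G : 𝓞 K → Prop} {Q : (P → ZMod 2) → Prop}
    (hG : ∀ x : 𝓞 K, Prime (1 + 4 * x) → 1 + 4 * x ∉ P →
      (G x ↔ Q fun p : P => ns (1 + 4 * x) (p : 𝓞 K)))
    {v : HeightOneSpectrum (𝓞 K)} (hd : ¬ Dy v) (hv : ∀ p ∈ P, p ∉ v.asIdeal) :
    QG G v ↔ sb v (av P 0) = 0 ∧ Q fun p : P => sb v (av P (P.equivFin p).succ) := by
  obtain ⟨ϖ, hϖ, rfl⟩ := exists_pm e hd
  rw [av_zero, sb_neg_one hϖ]
  have hsym : ∀ p : P, sb (plc e hϖ.pr : HeightOneSpectrum (𝓞 K)) (av P (P.equivFin p).succ) =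
      ns (e ϖ) (p : 𝓞 K) := by
    intro p
    rw [av_succ, Equiv.symm_apply_apply]
    obtain ⟨q, hq⟩ := e.surjective (p : 𝓞 K)
    have h1 := hv p p.2
    rw [← hq, plc_mem] at h1
    rw [← hq, ns_e]
    exact sb_plc hϖ h1
  have hfun : (fun p : P => sb (plc e hϖ.pr : HeightOneSpectrum (𝓞 K))
      (av P (P.equivFin p).succ)) = fun p : P => ns (e ϖ) (p : 𝓞 K) := funext hsym
  rw [hfun]
  have hm4 : tp ϖ = 0 → Pm ϖ := by
    intro h0
    rcases hϖ.cases with h1 | ⟨p, A, B, h1, -⟩
    · exact h1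
    · rw [h1.tp] at h0
      exact absurd h0 one_ne_zero
  have hnP : e ϖ ∉ P := by
    intro h1
    apply hv (e ϖ) h1
    rw [plc_mem]
  constructor
  · rintro ⟨x, h1, h2, h3⟩
    obtain ⟨x, rfl⟩ := e.surjective x
    rw [← e14] at h1 h3
    have h4 : Prime (1 + 4 * x) := (MulEquiv.prime_iff e.toMulEquiv).1 h1
    have h5 : plc e hϖ.pr = plc e h4 := HeightOneSpectrum.ext h3
    rw [plc_eq] at h5
    obtain ⟨u, hu⟩ := h5
    have h6 : ϖ = 1 + 4 * x := by
      rcases isUnit_iff.1 u.isUnit with h6 | h6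
      · rw [← hu, h6, mul_one]
      · exfalso
        rw [h6, mul_neg_one] at hu
        have h7 := r4_m4 (ϖ := 1 + 4 * x) ⟨x, rfl⟩
        rw [← hu, map_neg, hϖ.r4] at h7
        exact absurd h7 (by decide)
    have hpm : Pm ϖ := ⟨hϖ.pr, x, h6⟩
    refine ⟨tp_pm hpm, ?_⟩
    have h8 := (hG (e x) (by rw [← e14]; exact h1) (by rw [← e14, ← h6]; exact hnP)).1 h2
    rw [← e14, ← h6] at h8
    exact h8
  · rintro ⟨h0, h1⟩
    have hpm := hm4 h0
    obtain ⟨x, hx⟩ := hpm.m4
    have h2 : Prime (1 + 4 * e x) := by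
      rw [← e14, ← hx]
      exact (MulEquiv.prime_iff e.toMulEquiv).2 hϖ.pr
    refine ⟨e x, h2, ?_, ?_⟩
    · refine (hG (e x) h2 ?_).2 ?_
      · rw [← e14, ← hx]
        exact hnP
      · rw [← e14, ← hx]
        exact h1
    · rw [← e14, ← hx]
      rfl

/-- the number of the tables -/
lemma card_tables' (P : Finset (𝓞 K)) (Q : (P → ZMod 2) → Prop) :
    (Finset.univ.filter fun t : Fin (P.card + 1) → ZMod 2 => t 0 = 0 ∧
      Q fun p : P => t (P.equivFin p).succ).card = Nat.card {u : P → ZMod 2 // Q u} := by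
  rw [← Nat.card_eq_finsetCard]
  refine Nat.card_congr ?_
  refine Equiv.symm ?_
  refine
    { toFun := fun u => ⟨Fin.cons 0 fun i => u.1 (P.equivFin.symm i), ?_⟩
      invFun := fun t => ⟨(fun p : P => t.1 (P.equivFin p).succ), ?_⟩
      left_inv := ?_
      right_inv := ?_ }
  · rw [Finset.mem_filter]
    refine ⟨Finset.mem_univ _, rfl, ?_⟩
    have h1 : (fun p : P => (Fin.cons 0 fun i => u.1 (P.equivFin.symm i) :
        Fin (P.card + 1) → ZMod 2) (P.equivFin p).succ) = u.1 := by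
      funext p
      rw [Fin.cons_succ, Equiv.symm_apply_apply]
    rw [h1]
    exact u.2
  · exact (Finset.mem_filter.1 t.2).2.2
  · intro u
    apply Subtype.ext
    funext p
    show (Fin.cons 0 fun i => u.1 (P.equivFin.symm i) :
        Fin (P.card + 1) → ZMod 2) (P.equivFin p).succ = u.1 p
    rw [Fin.cons_succ, Equiv.symm_apply_apply]
  · intro t
    apply Subtype.ext
    funext l
    show (Fin.cons 0 fun i => t.1 (P.equivFin (P.equivFin.symm i)).succ :
        Fin (P.card + 1) → ZMod 2) l = t.1 l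
    refine Fin.cases ?_ (fun i => ?_) l
    · rw [Fin.cons_zero]
      exact (Finset.mem_filter.1 t.2).2.1.symm
    · rw [Fin.cons_succ, Equiv.apply_symm_apply]

/-- **the proportions** -/
theorem share' (hf : Fs S (fun x => x)) (hD : D = ∏ ϖ ∈ S, ϖ) (hP : IsP (e aR) (e D) P)
    (hsq : Squarefree (fR * D)) {G : 𝓞 K → Prop} {Q : (P → ZMod 2) → Prop}
    (hG : ∀ x : 𝓞 K, Prime (1 + 4 * x) → 1 + 4 * x ∉ P →
      (G x ↔ Q fun p : P => ns (1 + 4 * x) (p : 𝓞 K))) :
    Tendsto (fun X : ℕ =>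
      ({x : 𝓞 K | (Algebra.norm ℤ (1 + 4 * x)).natAbs ≤ X ∧ Prime (1 + 4 * x) ∧ G x}.ncard : ℝ) /
        ({x : 𝓞 K | (Algebra.norm ℤ (1 + 4 * x)).natAbs ≤ X ∧ Prime (1 + 4 * x)}.ncard : ℝ)) atTop
      (𝓝 ((Nat.card {u : P → ZMod 2 // Q u} : ℝ) / 2 ^ P.card)) := by
  have hE := fin_exc hP
  have hc1 := Dn.congr (dn_class (av P) (av_ne hP) (indep hf hD hP hsq)
    (Finset.univ.filter fun t : Fin (P.card + 1) → ZMod 2 => t 0 = 0 ∧
      Q fun p : P => t (P.equivFin p).succ)) (Q' := QG G) _ hE (fun v hv => by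
      have h1 : ¬ Dy v := fun h => hv (Or.inl h)
      have h2 : ∀ p ∈ P, p ∉ v.asIdeal := fun p hp h => hv (Or.inr ⟨p, hp, h⟩)
      rw [class_iff' hf hD hP hG h1 h2, Finset.mem_filter]
      exact and_iff_right (Finset.mem_univ _))
  have hc0 := Dn.congr (dn_class (av P) (av_ne hP) (indep hf hD hP hsq)
    (Finset.univ.filter fun t : Fin (P.card + 1) → ZMod 2 => t 0 = 0))
    (Q' := QG fun _ => True) _ hE (fun v hv => by
      have h1 : ¬ Dy v := fun h => hv (Or.inl h)
      rw [class_all hf hD hP h1, Finset.mem_filter]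
      exact and_iff_right (Finset.mem_univ _))
  rw [card_tables' P Q] at hc1
  rw [card_zero] at hc0
  have h1 := Dn.div hc1 hc0 (by positivity)
  have h2 : (Nat.card {u : P → ZMod 2 // Q u} : ℝ) /
      2 ^ (P.card + 1) / (((2 ^ P.card : ℕ) : ℝ) / 2 ^ (P.card + 1)) =
      (Nat.card {u : P → ZMod 2 // Q u} : ℝ) / 2 ^ P.card := by
    push_cast
    field_simp
  rw [h2] at h1
  refine h1.congr fun X => ?_
  rw [← cnt e G X, ← cnt e (fun _ => True) X]
  simp only [and_true]

end den

end Pool.Agent.H848.BKD
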